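import Mathlib

set_option autoImplicit false

namespace Pool.Agent.Results.MP_a226eb_gt.FlowsAndCuts

open Finset Matrix

/-- the point at distance `τ` from the unit vector `p` on the great circle through `p` with unit tangent
vector `d` at `p` -/
noncomputable def along {k : ℕ} (p d : Fin k → ℝ) (τ : ℝ) : Fin k → ℝ :=
  Real.cos τ • p + Real.sin τ • d

/-- the unit tangent vector of this great circle at the point `along p d τ` -/
noncomputable def tang {k : ℕ} (p d : Fin k → ℝ) (τ : ℝ) : Fin k → ℝ :=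
  Real.cos τ • d - Real.sin τ • p

section defs

variable {V Ed : Type} [Fintype Ed] [DecidableEq V]

/-- A balanced geodesic realization on the unit sphere of `ℝᵏ` of the multigraph with vertex set `V`,
edge set `Ed` and ends `s e`, `t e` of the edges `e`: the edge `e` is the geodesic of length `L e > 0`
from the point `P (s e)` with unit tangent vector `d e` to the point `P (t e)`, and the unit tangent
vectors of the edges sum to zero at every vertex. -/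
structure Realization (k : ℕ) (s t : Ed → V) (P : V → Fin k → ℝ) (d : Ed → Fin k → ℝ)
    (L : Ed → ℝ) : Prop where
  /-- the vertices are on the sphere -/
  sphere : ∀ v, P v ⬝ᵥ P v = 1
  /-- `d e` is a unit tangent vector at the first end of the edge `e` -/
  dir : ∀ e, d e ⬝ᵥ d e = 1 ∧ P (s e) ⬝ᵥ d e = 0
  /-- the length `L e` of `e` is positive -/
  pos : ∀ e, 0 < L e
  /-- the geodesic ends at the second end of `e` -/
  ends : ∀ e, along (P (s e)) (d e) (L e) = P (t e)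
  /-- the sum of the unit tangent vectors, directed away from the vertex, is zero -/
  balanced : ∀ v, ∑ e ∈ univ.filter (fun e => s e = v), d e +
    ∑ e ∈ univ.filter (fun e => t e = v), -tang (P (s e)) (d e) (L e) = 0

/-- A closed geodesic net on the unit sphere of `ℝᵏ` modelled on the multigraph: a balanced realization
with different vertices whose edges do not meet each other or themselves, except at their ends. -/
structure IsGeodesicNet (k : ℕ) (s t : Ed → V) (P : V → Fin k → ℝ) (d : Ed → Fin k → ℝ)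
    (L : Ed → ℝ) : Prop extends Realization k s t P d L where
  /-- the vertices are different -/
  inj : Function.Injective P
  /-- the edges do not meet each other or themselves, except at their ends -/
  embedded : ∀ (e e' : Ed) (τ τ' : ℝ), 0 ≤ τ → τ ≤ L e → 0 ≤ τ' → τ' ≤ L e' →
    along (P (s e)) (d e) τ = along (P (s e')) (d e') τ' →
    (e = e' ∧ τ = τ') ∨ ((τ = 0 ∨ τ = L e) ∧ (τ' = 0 ∨ τ' = L e'))

/-- An `S²`-flow: unit vectors of `ℝ³` on the edges which satisfy Kirchhoff's law at every vertex -/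
structure IsFlow (s t : Ed → V) (a : Ed → Fin 3 → ℝ) : Prop where
  /-- unit vectors -/
  unit : ∀ e, a e ⬝ᵥ a e = 1
  /-- Kirchhoff's law -/
  kirchhoff : ∀ v, ∑ e ∈ univ.filter (fun e => s e = v), a e =
    ∑ e ∈ univ.filter (fun e => t e = v), a e

/-- the multigraph is 3-regular and has no loops -/
structure IsCubic (s t : Ed → V) : Prop where
  /-- no loops -/
  loopless : ∀ e, s e ≠ t e
  /-- every vertex has degree 3 -/
  cubic : ∀ v, (univ.filter (fun e => s e = v ∨ t e = v)).card = 3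

/-- the edges with exactly one end in the set `A` of vertices -/
def cut (s t : Ed → V) (A : Finset V) : Finset Ed := univ.filter (fun e => ¬ (s e ∈ A ↔ t e ∈ A))

end defs

/-- the infinitesimal rotation in the oriented plane of `p`, `d` (the momentum of the great circle) -/
noncomputable def mom {k : ℕ} (p d x : Fin k → ℝ) : Fin k → ℝ := (p ⬝ᵥ x) • d - (d ⬝ᵥ x) • p

theorem mom_along {k : ℕ} (p d x : Fin k → ℝ) (τ : ℝ) :
    mom (along p d τ) (tang p d τ) x = mom p d x := by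
  have h := Real.sin_sq_add_cos_sq τ
  ext i
  simp only [mom, along, tang, add_dotProduct, sub_dotProduct, smul_dotProduct, Pi.sub_apply,
    Pi.add_apply, Pi.smul_apply, smul_eq_mul]
  linear_combination ((p ⬝ᵥ x) * d i - (d ⬝ᵥ x) * p i) * h

theorem mom_add {k : ℕ} (p d d' x : Fin k → ℝ) : mom p (d + d') x = mom p d x + mom p d' x := by
  ext i
  simp only [mom, add_dotProduct, Pi.sub_apply, Pi.add_apply, Pi.smul_apply, smul_eq_mul]
  ring

theorem mom_zero {k : ℕ} (p x : Fin k → ℝ) : mom p 0 x = 0 := by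
  ext i
  simp [mom]

theorem mom_neg {k : ℕ} (p d x : Fin k → ℝ) : mom p (-d) x = -mom p d x := by
  ext i
  simp only [mom, neg_dotProduct, Pi.sub_apply, Pi.neg_apply, Pi.smul_apply, smul_eq_mul]
  ring

theorem mom_smul {k : ℕ} (p d x : Fin k → ℝ) (c : ℝ) : mom p (c • d) x = c • mom p d x := by
  ext i
  simp only [mom, smul_dotProduct, Pi.sub_apply, Pi.smul_apply, smul_eq_mul]
  ring

theorem mom_sum {k : ℕ} {ι : Type} (S : Finset ι) (p x : Fin k → ℝ) (f : ι → Fin k → ℝ) :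
    mom p (∑ i ∈ S, f i) x = ∑ i ∈ S, mom p (f i) x := by
  classical
  induction S using Finset.induction_on with
  | empty => simp [mom_zero]
  | insert a S ha ih => rw [sum_insert ha, sum_insert ha, mom_add, ih]

section cuts

variable {V Ed : Type} [Fintype Ed] [DecidableEq V]

/-- the sign of the edge `e` at the set `A` -/
noncomputable def sgn (s t : Ed → V) (A : Finset V) (e : Ed) : ℝ :=
  (if s e ∈ A then 1 else 0) - (if t e ∈ A then 1 else 0)

theorem sgn_of_notMem (s t : Ed → V) (A : Finset V) (e : Ed) (h : e ∉ cut s t A) :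
    sgn s t A e = 0 := by
  have h1 : s e ∈ A ↔ t e ∈ A := by
    by_contra h2
    exact h (by simp [cut, h2])
  unfold sgn
  by_cases h3 : t e ∈ A
  · rw [if_pos h3, if_pos (h1.2 h3)]; norm_num
  · rw [if_neg h3, if_neg (fun h4 => h3 (h1.1 h4))]; norm_num

theorem sgn_of_mem (s t : Ed → V) (A : Finset V) (e : Ed) (h : e ∈ cut s t A) :
    sgn s t A e = 1 ∨ sgn s t A e = -1 := by
  have h1 : ¬ (s e ∈ A ↔ t e ∈ A) := by simpa [cut] using h
  unfold sgn
  by_cases h3 : t e ∈ A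
  · have : s e ∉ A := fun h4 => h1 ⟨fun _ => h3, fun _ => h4⟩
    rw [if_pos h3, if_neg this]; right; norm_num
  · have : s e ∈ A := by
      by_contra h4
      exact h1 ⟨fun h5 => absurd h5 h4, fun h5 => absurd h5 h3⟩
    rw [if_neg h3, if_pos this]; left; norm_num

/-- a flow has net value zero on every cut -/
theorem cut_sum {W : Type} [AddCommGroup W] [Module ℝ W] (s t : Ed → V) (g : Ed → W)
    (hg : ∀ v, ∑ e ∈ univ.filter (fun e => s e = v), g e =
      ∑ e ∈ univ.filter (fun e => t e = v), g e) (A : Finset V) :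
    ∑ e ∈ cut s t A, sgn s t A e • g e = 0 := by
  have h1 : ∑ e ∈ cut s t A, sgn s t A e • g e = ∑ e, sgn s t A e • g e := by
    refine Finset.sum_subset (Finset.subset_univ _) fun e _ he => ?_
    rw [sgn_of_notMem s t A e he, zero_smul]
  have h2 : ∀ f : Ed → V, ∑ e, (if f e ∈ A then (1 : ℝ) else 0) • g e =
      ∑ v ∈ A, ∑ e ∈ univ.filter (fun e => f e = v), g e := by
    intro f
    have h3 : ∀ v ∈ A, ∑ e ∈ univ.filter (fun e => f e = v), g e =
        ∑ e, if f e = v then g e else 0 := fun v _ => Finset.sum_filter _ _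
    rw [Finset.sum_congr rfl h3, Finset.sum_comm]
    refine Finset.sum_congr rfl fun e _ => ?_
    by_cases h4 : f e ∈ A
    · rw [if_pos h4, one_smul, Finset.sum_ite_eq, if_pos h4]
    · rw [if_neg h4, zero_smul, Finset.sum_ite_eq, if_neg h4]
  rw [h1]
  unfold sgn
  simp only [sub_smul]
  rw [Finset.sum_sub_distrib, h2 s, h2 t, Finset.sum_congr rfl (fun v _ => hg v), sub_self]

/-- the momentum is a flow -/
theorem mom_kirchhoff {k : ℕ} {s t : Ed → V} {P : V → Fin k → ℝ} {d : Ed → Fin k → ℝ} {L : Ed → ℝ}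
    (h : Realization k s t P d L) (x : Fin k → ℝ) (v : V) :
    ∑ e ∈ univ.filter (fun e => s e = v), mom (P (s e)) (d e) x =
      ∑ e ∈ univ.filter (fun e => t e = v), mom (P (s e)) (d e) x := by
  have h1 : ∑ e ∈ univ.filter (fun e => s e = v), mom (P (s e)) (d e) x =
      ∑ e ∈ univ.filter (fun e => s e = v), mom (P v) (d e) x := by
    refine Finset.sum_congr rfl fun e he => ?_
    rw [(mem_filter.1 he).2]
  have h2 : ∑ e ∈ univ.filter (fun e => t e = v), mom (P (s e)) (d e) x =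
      ∑ e ∈ univ.filter (fun e => t e = v), mom (P v) (tang (P (s e)) (d e) (L e)) x := by
    refine Finset.sum_congr rfl fun e he => ?_
    rw [← mom_along _ _ _ (L e), h.ends e, (mem_filter.1 he).2]
  have h3 := congrArg (fun y => mom (P v) y x) (h.balanced v)
  simp only [mom_add, mom_sum, mom_zero, mom_neg, Finset.sum_neg_distrib] at h3
  rw [h1, h2]
  exact add_neg_eq_zero.1 h3

end cuts

/-! ### one plane -/

section plane

variable {k : ℕ}

theorem mom_self {p d : Fin k → ℝ} (hp : p ⬝ᵥ p = 1) (hpd : p ⬝ᵥ d = 0) : mom p d p = d := by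
  rw [mom, hp, dotProduct_comm d p, hpd, one_smul, zero_smul, sub_zero]

theorem mom_dir {p d : Fin k → ℝ} (hd : d ⬝ᵥ d = 1) (hpd : p ⬝ᵥ d = 0) : mom p d d = -p := by
  rw [mom, hd, hpd, one_smul, zero_smul, zero_sub]

/-- a unit vector of the plane is on the great circle -/
theorem exists_along {p d x : Fin k → ℝ} (hp : p ⬝ᵥ p = 1) (hd : d ⬝ᵥ d = 1) (hpd : p ⬝ᵥ d = 0)
    (hx : x ⬝ᵥ x = 1) (α β : ℝ) (h : x = α • p + β • d) : ∃ τ, along p d τ = x := by
  have h1 : α ^ 2 + β ^ 2 = 1 := by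
    rw [h] at hx
    simp only [add_dotProduct, dotProduct_add, smul_dotProduct, dotProduct_smul, smul_eq_mul] at hx
    rw [hp, hd, hpd, dotProduct_comm d p, hpd] at hx
    linarith
  have h2 : ‖(⟨α, β⟩ : ℂ)‖ = 1 := by
    have h3 : ‖(⟨α, β⟩ : ℂ)‖ ^ 2 = 1 := by
      rw [Complex.sq_norm, Complex.normSq_mk]
      linarith
    have h4 := norm_nonneg (⟨α, β⟩ : ℂ)
    nlinarith
  refine ⟨Complex.arg ⟨α, β⟩, ?_⟩
  have h5 : (⟨α, β⟩ : ℂ) ≠ 0 := by
    intro h6
    rw [h6, norm_zero] at h2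
    exact zero_ne_one h2
  have h6 : Real.cos (Complex.arg ⟨α, β⟩) = α := by
    rw [Complex.cos_arg h5, h2, div_one]
  have h7 : Real.sin (Complex.arg ⟨α, β⟩) = β := by
    rw [Complex.sin_arg, h2, div_one]
  rw [along, h6, h7, h]

theorem along_unit {p d : Fin k → ℝ} (hp : p ⬝ᵥ p = 1) (hd : d ⬝ᵥ d = 1) (hpd : p ⬝ᵥ d = 0)
    (τ : ℝ) : along p d τ ⬝ᵥ along p d τ = 1 := by
  have h := Real.sin_sq_add_cos_sq τ
  simp only [along, add_dotProduct, dotProduct_add, smul_dotProduct, dotProduct_smul, smul_eq_mul]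
  rw [hp, hd, hpd, dotProduct_comm d p, hpd]
  linear_combination h

theorem tang_unit {p d : Fin k → ℝ} (hp : p ⬝ᵥ p = 1) (hd : d ⬝ᵥ d = 1) (hpd : p ⬝ᵥ d = 0)
    (τ : ℝ) : tang p d τ ⬝ᵥ tang p d τ = 1 ∧ along p d τ ⬝ᵥ tang p d τ = 0 := by
  have h := Real.sin_sq_add_cos_sq τ
  simp only [along, tang, add_dotProduct, dotProduct_sub, sub_dotProduct, smul_dotProduct,
    dotProduct_smul, smul_eq_mul]
  rw [hp, hd, hpd, dotProduct_comm d p, hpd]
  constructor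
  · linear_combination h
  · ring

/-- two great circles with the same momentum up to sign are equal -/
theorem circle_subset {p d p' d' : Fin k → ℝ} (hp : p ⬝ᵥ p = 1) (hd : d ⬝ᵥ d = 1)
    (hpd : p ⬝ᵥ d = 0) (hp' : p' ⬝ᵥ p' = 1) (hd' : d' ⬝ᵥ d' = 1) (hpd' : p' ⬝ᵥ d' = 0) (c : ℝ)
    (h : ∀ x, mom p' d' x = c • mom p d x) :
    Set.range (along p' d') ⊆ Set.range (along p d) := by
  rintro x ⟨τ, rfl⟩
  have h1 := h p'
  have h2 := h d'
  rw [mom_self hp' hpd'] at h1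
  rw [mom_dir hd' hpd'] at h2
  have h3 : p' = -(c • mom p d d') := by rw [← h2, neg_neg]
  refine exists_along hp hd hpd (along_unit hp' hd' hpd' τ)
    (Real.cos τ * (c * (d ⬝ᵥ d')) - Real.sin τ * (c * (d ⬝ᵥ p')))
    (Real.sin τ * (c * (p ⬝ᵥ p')) - Real.cos τ * (c * (p ⬝ᵥ d'))) ?_
  ext i
  have h4 := congrFun h1 i
  have h5 := congrFun h3 i
  simp only [mom, Pi.sub_apply, Pi.smul_apply, Pi.neg_apply, smul_eq_mul] at h4 h5
  simp only [along, Pi.add_apply, Pi.smul_apply, smul_eq_mul]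
  linear_combination Real.cos τ * h5 + Real.sin τ * h4

/-- three momenta with sum zero: the great circles are concurrent and balanced -/
theorem three {p₁ d₁ p₂ d₂ p₃ d₃ : Fin k → ℝ} (hp₁ : p₁ ⬝ᵥ p₁ = 1) (hd₁ : d₁ ⬝ᵥ d₁ = 1)
    (h₁ : p₁ ⬝ᵥ d₁ = 0) (hp₂ : p₂ ⬝ᵥ p₂ = 1) (hd₂ : d₂ ⬝ᵥ d₂ = 1) (h₂ : p₂ ⬝ᵥ d₂ = 0)
    (hp₃ : p₃ ⬝ᵥ p₃ = 1) (hd₃ : d₃ ⬝ᵥ d₃ = 1) (h₃ : p₃ ⬝ᵥ d₃ = 0) {c₁ c₂ c₃ : ℝ}
    (hc₁ : c₁ ^ 2 = 1) (hc₂ : c₂ ^ 2 = 1) (hc₃ : c₃ ^ 2 = 1)
    (h : ∀ x, c₁ • mom p₁ d₁ x + c₂ • mom p₂ d₂ x + c₃ • mom p₃ d₃ x = 0) :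
    ∃ (x : Fin k → ℝ) (θ₁ θ₂ θ₃ : ℝ), along p₁ d₁ θ₁ = x ∧ along p₂ d₂ θ₂ = x ∧
      along p₃ d₃ θ₃ = x ∧
      c₁ • tang p₁ d₁ θ₁ + c₂ • tang p₂ d₂ θ₂ + c₃ • tang p₃ d₃ θ₃ = 0 := by
  -- the pairings
  have e1 := congrArg (fun y => d₁ ⬝ᵥ y) (h p₁)
  have e2 := congrArg (fun y => d₂ ⬝ᵥ y) (h p₂)
  have e3 := congrArg (fun y => d₃ ⬝ᵥ y) (h p₃)
  simp only [mom, dotProduct_add, dotProduct_sub, dotProduct_smul, smul_eq_mul, dotProduct_zero,
    hp₁, hd₁, hp₂, hd₂, hp₃, hd₃, dotProduct_comm d₁ p₁, dotProduct_comm d₂ p₂,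
    dotProduct_comm d₃ p₃, h₁, h₂, h₃, dotProduct_comm d₂ d₁, dotProduct_comm d₃ d₁,
    dotProduct_comm d₃ d₂, dotProduct_comm p₂ p₁, dotProduct_comm p₃ p₁, dotProduct_comm p₃ p₂,
    dotProduct_comm d₁ p₂, dotProduct_comm d₁ p₃, dotProduct_comm d₂ p₁, dotProduct_comm d₂ p₃,
    dotProduct_comm d₃ p₁, dotProduct_comm d₃ p₂] at e1 e2 e3
  have b12 : c₁ * c₂ * ((p₁ ⬝ᵥ p₂) * (d₁ ⬝ᵥ d₂) - (p₁ ⬝ᵥ d₂) * (p₂ ⬝ᵥ d₁)) = -1 / 2 := by
    linear_combination (c₁ * e1 + c₂ * e2 - c₃ * e3 - hc₁ - hc₂ + hc₃) / 2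
  have b13 : c₁ * c₃ * ((p₁ ⬝ᵥ p₃) * (d₁ ⬝ᵥ d₃) - (p₁ ⬝ᵥ d₃) * (p₃ ⬝ᵥ d₁)) = -1 / 2 := by
    linear_combination (c₁ * e1 - c₂ * e2 + c₃ * e3 - hc₁ + hc₂ - hc₃) / 2
  -- a vector killed by the third momentum but not by the first
  obtain ⟨y, hy3, hy1⟩ : ∃ y, mom p₃ d₃ y = 0 ∧ mom p₁ d₁ y ≠ 0 := by
    by_contra hcon
    push Not at hcon
    have k1 := hcon (p₁ - (p₃ ⬝ᵥ p₁) • p₃ - (d₃ ⬝ᵥ p₁) • d₃) (by
      ext i
      simp only [mom, dotProduct_sub, dotProduct_smul, smul_eq_mul, hp₃, hd₃, h₃,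
        dotProduct_comm d₃ p₃, Pi.sub_apply, Pi.smul_apply, Pi.zero_apply]
      ring)
    have k2 := hcon (d₁ - (p₃ ⬝ᵥ d₁) • p₃ - (d₃ ⬝ᵥ d₁) • d₃) (by
      ext i
      simp only [mom, dotProduct_sub, dotProduct_smul, smul_eq_mul, hp₃, hd₃, h₃,
        dotProduct_comm d₃ p₃, Pi.sub_apply, Pi.smul_apply, Pi.zero_apply]
      ring)
    have k3 := congrArg (fun y => d₁ ⬝ᵥ y) k1
    have k4 := congrArg (fun y => p₁ ⬝ᵥ y) k1
    have k5 := congrArg (fun y => p₁ ⬝ᵥ y) k2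
    simp only [mom, dotProduct_sub, dotProduct_smul, smul_eq_mul, dotProduct_zero, hp₁, hd₁, h₁,
      dotProduct_comm d₁ p₁, dotProduct_comm p₃ p₁, dotProduct_comm d₃ p₁, dotProduct_comm d₃ d₁,
      dotProduct_comm d₁ p₃] at k3 k4 k5
    have k6 : ((p₁ ⬝ᵥ p₃) * (d₁ ⬝ᵥ d₃) - (p₁ ⬝ᵥ d₃) * (p₃ ⬝ᵥ d₁)) ^ 2 = 1 / 4 := by
      have k7 : (c₁ * c₃ * ((p₁ ⬝ᵥ p₃) * (d₁ ⬝ᵥ d₃) - (p₁ ⬝ᵥ d₃) * (p₃ ⬝ᵥ d₁))) ^ 2 =
          (-1 / 2) ^ 2 := by rw [b13]
      have k8 : (c₁ * c₃ * ((p₁ ⬝ᵥ p₃) * (d₁ ⬝ᵥ d₃) - (p₁ ⬝ᵥ d₃) * (p₃ ⬝ᵥ d₁))) ^ 2 =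
          c₁ ^ 2 * (c₃ ^ 2 * ((p₁ ⬝ᵥ p₃) * (d₁ ⬝ᵥ d₃) - (p₁ ⬝ᵥ d₃) * (p₃ ⬝ᵥ d₁)) ^ 2) := by ring
      rw [k8, hc₁, hc₃] at k7
      linarith
    have k9 : (p₁ ⬝ᵥ p₃) ^ 2 + (p₁ ⬝ᵥ d₃) ^ 2 = 1 := by linear_combination -k3
    have k10 : (p₁ ⬝ᵥ p₃) * (p₃ ⬝ᵥ d₁) + (p₁ ⬝ᵥ d₃) * (d₁ ⬝ᵥ d₃) = 0 := by
      linear_combination k4
    have k11 : (p₃ ⬝ᵥ d₁) ^ 2 + (d₁ ⬝ᵥ d₃) ^ 2 = 1 := by linear_combination k5
    have k12 : ((p₁ ⬝ᵥ p₃) * (d₁ ⬝ᵥ d₃) - (p₁ ⬝ᵥ d₃) * (p₃ ⬝ᵥ d₁)) ^ 2 =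
        ((p₁ ⬝ᵥ p₃) ^ 2 + (p₁ ⬝ᵥ d₃) ^ 2) * ((p₃ ⬝ᵥ d₁) ^ 2 + (d₁ ⬝ᵥ d₃) ^ 2) -
        ((p₁ ⬝ᵥ p₃) * (p₃ ⬝ᵥ d₁) + (p₁ ⬝ᵥ d₃) * (d₁ ⬝ᵥ d₃)) ^ 2 := by ring
    rw [k9, k10, k11, k6] at k12
    norm_num at k12
  obtain ⟨z, hz⟩ : ∃ z, z = mom p₁ d₁ y := ⟨_, rfl⟩
  have hz0 : z ≠ 0 := by rw [hz]; exact hy1
  have hz2 : z = (-(c₁ * c₂)) • mom p₂ d₂ y := by
    have := h y
    rw [hy3, smul_zero, add_zero, ← hz] at this
    ext i
    have h4 := congrFun this i
    simp only [Pi.add_apply, Pi.smul_apply, smul_eq_mul, Pi.zero_apply] at h4 ⊢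
    linear_combination (-(z i)) * hc₁ + c₁ * h4
  have hzz : 0 < z ⬝ᵥ z := by
    have h5 : 0 ≤ z ⬝ᵥ z := by
      rw [dotProduct]
      exact Finset.sum_nonneg fun i _ => mul_self_nonneg _
    rcases h5.lt_or_eq with h6 | h6
    · exact h6
    · exact absurd (dotProduct_self_eq_zero.1 h6.symm) hz0
  obtain ⟨r, hr⟩ : ∃ r : ℝ, r = (√(z ⬝ᵥ z))⁻¹ := ⟨_, rfl⟩
  have hrz : r ^ 2 * (z ⬝ᵥ z) = 1 := by
    rw [hr, inv_pow, Real.sq_sqrt hzz.le, inv_mul_cancel₀ hzz.ne']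
  have hx : (r • z) ⬝ᵥ (r • z) = 1 := by
    rw [smul_dotProduct, dotProduct_smul, smul_eq_mul, smul_eq_mul]
    linarith
  obtain ⟨θ₁, hθ₁⟩ := exists_along hp₁ hd₁ h₁ hx (-(r * (d₁ ⬝ᵥ y))) (r * (p₁ ⬝ᵥ y)) (by
    rw [hz]
    ext i
    simp only [mom, Pi.sub_apply, Pi.smul_apply, Pi.add_apply, smul_eq_mul]
    ring)
  obtain ⟨θ₂, hθ₂⟩ := exists_along hp₂ hd₂ h₂ hx (r * (c₁ * c₂ * (d₂ ⬝ᵥ y)))
    (-(r * (c₁ * c₂ * (p₂ ⬝ᵥ y)))) (by
    rw [hz2]
    ext i
    simp only [mom, Pi.sub_apply, Pi.smul_apply, Pi.add_apply, smul_eq_mul]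
    ring)
  obtain ⟨x, hxx⟩ : ∃ x, x = r • z := ⟨_, rfl⟩
  rw [← hxx] at hx hθ₁ hθ₂
  obtain ⟨u₁, hu₁⟩ : ∃ u, u = tang p₁ d₁ θ₁ := ⟨_, rfl⟩
  obtain ⟨u₂, hu₂⟩ : ∃ u, u = tang p₂ d₂ θ₂ := ⟨_, rfl⟩
  have a1 := tang_unit hp₁ hd₁ h₁ θ₁
  have a2 := tang_unit hp₂ hd₂ h₂ θ₂
  rw [hθ₁, ← hu₁] at a1
  rw [hθ₂, ← hu₂] at a2
  have m1 : ∀ w, mom p₁ d₁ w = mom x u₁ w := fun w => by rw [← mom_along p₁ d₁ w θ₁, hθ₁, hu₁]
  have m2 : ∀ w, mom p₂ d₂ w = mom x u₂ w := fun w => by rw [← mom_along p₂ d₂ w θ₂, hθ₂, hu₂]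
  obtain ⟨u₃, hu₃⟩ : ∃ u, u = -(c₃ • (c₁ • u₁ + c₂ • u₂)) := ⟨_, rfl⟩
  have m3 : ∀ w, mom p₃ d₃ w = mom x u₃ w := by
    intro w
    rw [hu₃, mom_neg, mom_smul, mom_add, mom_smul, mom_smul, ← m1, ← m2]
    ext i
    have h4 := congrFun (h w) i
    simp only [Pi.add_apply, Pi.smul_apply, Pi.neg_apply, smul_eq_mul, Pi.zero_apply] at h4 ⊢
    linear_combination (-(mom p₃ d₃ w i)) * hc₃ + c₃ * h4
  have b12' : c₁ * c₂ * (u₁ ⬝ᵥ u₂) = -1 / 2 := by
    rw [← b12]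
    congr 1
    have h5 : d₁ ⬝ᵥ mom p₂ d₂ p₁ = d₁ ⬝ᵥ mom x u₂ p₁ := by rw [m2]
    simp only [mom, dotProduct_sub, dotProduct_smul, smul_eq_mul] at h5
    have h6 : x ⬝ᵥ p₁ = Real.cos θ₁ := by
      rw [← hθ₁, along, add_dotProduct, smul_dotProduct, smul_dotProduct, hp₁,
        dotProduct_comm d₁ p₁, h₁]
      simp
    have h7 : d₁ ⬝ᵥ x = Real.sin θ₁ := by
      rw [← hθ₁, along, dotProduct_add, dotProduct_smul, dotProduct_smul, hd₁,
        dotProduct_comm d₁ p₁, h₁]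
      simp
    rw [h6, h7] at h5
    rw [hu₁, tang, sub_dotProduct, smul_dotProduct, smul_dotProduct, smul_eq_mul, smul_eq_mul]
    rw [dotProduct_comm p₂ p₁, dotProduct_comm d₂ p₁, dotProduct_comm d₁ p₂,
      dotProduct_comm u₂ p₁] at h5
    linarith
  have a3 : u₃ ⬝ᵥ u₃ = 1 ∧ x ⬝ᵥ u₃ = 0 := by
    constructor
    · rw [hu₃]
      simp only [neg_dotProduct, dotProduct_neg, smul_dotProduct, dotProduct_smul, add_dotProduct,
        dotProduct_add, smul_eq_mul]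
      rw [a1.1, a2.1, dotProduct_comm u₂ u₁]
      linear_combination 2 * c₃ ^ 2 * b12' + c₃ ^ 2 * hc₁ + c₃ ^ 2 * hc₂ + hc₃
    · rw [hu₃]
      simp only [dotProduct_neg, dotProduct_smul, dotProduct_add, smul_eq_mul]
      rw [a1.2, a2.2]
      ring
  have hx3 : x = -mom p₃ d₃ u₃ := by rw [m3, mom_dir a3.1 a3.2, neg_neg]
  obtain ⟨θ₃, hθ₃⟩ := exists_along hp₃ hd₃ h₃ hx (d₃ ⬝ᵥ u₃) (-(p₃ ⬝ᵥ u₃)) (by
    rw [hx3]
    ext i
    simp only [mom, Pi.sub_apply, Pi.neg_apply, Pi.smul_apply, Pi.add_apply, smul_eq_mul]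
    have h8 : d₃ ⬝ᵥ u₃ = d₃ ⬝ᵥ u₃ := rfl
    ring)
  refine ⟨x, θ₁, θ₂, θ₃, hθ₁, hθ₂, hθ₃, ?_⟩
  have h9 : tang p₃ d₃ θ₃ = u₃ := by
    have h10 := m3 x
    have h11 := tang_unit hp₃ hd₃ h₃ θ₃
    rw [mom_self hx a3.2] at h10
    rw [← h10, ← mom_along p₃ d₃ x θ₃, hθ₃]
    rw [hθ₃] at h11
    exact (mom_self hx h11.2).symm
  rw [h9, ← hu₁, ← hu₂, hu₃]
  ext i
  simp only [Pi.add_apply, Pi.neg_apply, Pi.smul_apply, smul_eq_mul, Pi.zero_apply]
  linear_combination (-(c₁ * u₁ i + c₂ * u₂ i)) * hc₃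

end plane

/-! ### `S²`-flows from realizations on the 3-sphere -/

/-- the self-dual part of the momentum -/
noncomputable def sd (p d : Fin 4 → ℝ) : Fin 3 → ℝ :=
  ![p 0 * d 1 - p 1 * d 0 + (p 2 * d 3 - p 3 * d 2), p 0 * d 2 - p 2 * d 0 - (p 1 * d 3 - p 3 * d 1),
    p 0 * d 3 - p 3 * d 0 + (p 1 * d 2 - p 2 * d 1)]

theorem fin3_ext {x y : Fin 3 → ℝ} (h0 : x 0 = y 0) (h1 : x 1 = y 1) (h2 : x 2 = y 2) : x = y := by
  funext i
  fin_cases i
  · exact h0
  · exact h1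
  · exact h2

theorem sd_along (p d : Fin 4 → ℝ) (τ : ℝ) : sd (along p d τ) (tang p d τ) = sd p d := by
  have h := Real.sin_sq_add_cos_sq τ
  apply fin3_ext
  · simp only [sd, along, tang, Pi.add_apply, Pi.sub_apply, Pi.smul_apply, smul_eq_mul,
      Matrix.cons_val_zero]
    linear_combination (p 0 * d 1 - p 1 * d 0 + (p 2 * d 3 - p 3 * d 2)) * h
  · simp only [sd, along, tang, Pi.add_apply, Pi.sub_apply, Pi.smul_apply, smul_eq_mul,
      Matrix.cons_val_one, Matrix.cons_val_zero]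
    linear_combination (p 0 * d 2 - p 2 * d 0 - (p 1 * d 3 - p 3 * d 1)) * h
  · simp only [sd, along, tang, Pi.add_apply, Pi.sub_apply, Pi.smul_apply, smul_eq_mul,
      Matrix.cons_val]
    linear_combination (p 0 * d 3 - p 3 * d 0 + (p 1 * d 2 - p 2 * d 1)) * h

theorem sd_unit {p d : Fin 4 → ℝ} (hp : p ⬝ᵥ p = 1) (hd : d ⬝ᵥ d = 1) (hpd : p ⬝ᵥ d = 0) :
    sd p d ⬝ᵥ sd p d = 1 := by
  simp only [dotProduct, Fin.sum_univ_four] at hp hd hpd
  simp only [dotProduct, Fin.sum_univ_three, sd, Matrix.cons_val_zero, Matrix.cons_val_one,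
    Matrix.cons_val]
  linear_combination (d 0 * d 0 + d 1 * d 1 + d 2 * d 2 + d 3 * d 3) * hp + hd -
    (p 0 * d 0 + p 1 * d 1 + p 2 * d 2 + p 3 * d 3) * hpd

theorem sd_add (p d d' : Fin 4 → ℝ) : sd p (d + d') = sd p d + sd p d' := by
  apply fin3_ext <;>
  · simp only [sd, Pi.add_apply, Matrix.cons_val_zero, Matrix.cons_val_one, Matrix.cons_val]
    ring

theorem sd_neg (p d : Fin 4 → ℝ) : sd p (-d) = -sd p d := by
  apply fin3_ext <;>
  · simp only [sd, Pi.neg_apply, Matrix.cons_val_zero, Matrix.cons_val_one, Matrix.cons_val]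
    ring

theorem sd_zero (p : Fin 4 → ℝ) : sd p 0 = 0 := by
  apply fin3_ext <;>
  · simp only [sd, Pi.zero_apply, Matrix.cons_val_zero, Matrix.cons_val_one, Matrix.cons_val]
    ring

theorem sd_sum {ι : Type} (S : Finset ι) (p : Fin 4 → ℝ) (f : ι → Fin 4 → ℝ) :
    sd p (∑ i ∈ S, f i) = ∑ i ∈ S, sd p (f i) := by
  classical
  induction S using Finset.induction_on with
  | empty => simp [sd_zero]
  | insert a S ha ih => rw [sum_insert ha, sum_insert ha, sd_add, ih]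

theorem flow_of_realization {V Ed : Type} [Fintype Ed] [DecidableEq V] {s t : Ed → V}
    {P : V → Fin 4 → ℝ} {d : Ed → Fin 4 → ℝ} {L : Ed → ℝ} (h : Realization 4 s t P d L) :
    IsFlow s t (fun e => sd (P (s e)) (d e)) := by
  refine ⟨fun e => sd_unit (h.sphere _) (h.dir e).1 (h.dir e).2, fun v => ?_⟩
  have h1 : ∑ e ∈ univ.filter (fun e => s e = v), sd (P (s e)) (d e) =
      ∑ e ∈ univ.filter (fun e => s e = v), sd (P v) (d e) := by
    refine Finset.sum_congr rfl fun e he => ?_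
    rw [(mem_filter.1 he).2]
  have h2 : ∑ e ∈ univ.filter (fun e => t e = v), sd (P (s e)) (d e) =
      ∑ e ∈ univ.filter (fun e => t e = v), sd (P v) (tang (P (s e)) (d e) (L e)) := by
    refine Finset.sum_congr rfl fun e he => ?_
    rw [← sd_along _ _ (L e), h.ends e, (mem_filter.1 he).2]
  have h3 := congrArg (fun y => sd (P v) y) (h.balanced v)
  simp only [sd_add, sd_sum, sd_zero, sd_neg, Finset.sum_neg_distrib] at h3
  rw [h1, h2]
  exact add_neg_eq_zero.1 h3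

/-! ### a great 2-sphere of the 3-sphere -/

/-- `ℝ³` in `ℝ⁴` -/
noncomputable def emb (x : Fin 3 → ℝ) : Fin 4 → ℝ := ![x 0, x 1, x 2, 0]

theorem fin4_ext {x y : Fin 4 → ℝ} (h0 : x 0 = y 0) (h1 : x 1 = y 1) (h2 : x 2 = y 2)
    (h3 : x 3 = y 3) : x = y := by
  funext i
  fin_cases i
  · exact h0
  · exact h1
  · exact h2
  · exact h3

theorem emb_dot (x y : Fin 3 → ℝ) : emb x ⬝ᵥ emb y = x ⬝ᵥ y := by
  simp only [dotProduct, Fin.sum_univ_three, Fin.sum_univ_four, emb, Matrix.cons_val_zero,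
    Matrix.cons_val_one, Matrix.cons_val]
  ring

theorem emb_lin (a b : ℝ) (x y : Fin 3 → ℝ) : emb (a • x + b • y) = a • emb x + b • emb y := by
  apply fin4_ext <;>
  · simp only [emb, Pi.add_apply, Pi.smul_apply, smul_eq_mul, Matrix.cons_val_zero,
      Matrix.cons_val_one, Matrix.cons_val]
    try ring

theorem emb_zero : emb 0 = 0 := by
  have := emb_lin 0 0 0 0
  simpa using this

theorem emb_add (x y : Fin 3 → ℝ) : emb (x + y) = emb x + emb y := by
  have := emb_lin 1 1 x y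
  simpa using this

theorem emb_neg (x : Fin 3 → ℝ) : emb (-x) = -emb x := by
  have := emb_lin (-1) 0 x x
  simpa using this

theorem emb_along (p d : Fin 3 → ℝ) (τ : ℝ) : emb (along p d τ) = along (emb p) (emb d) τ :=
  emb_lin _ _ _ _

theorem emb_tang (p d : Fin 3 → ℝ) (τ : ℝ) : emb (tang p d τ) = tang (emb p) (emb d) τ := by
  have h1 : tang p d τ = Real.cos τ • d + (-Real.sin τ) • p := by
    rw [tang, neg_smul, sub_eq_add_neg]
  have h2 : tang (emb p) (emb d) τ = Real.cos τ • emb d + (-Real.sin τ) • emb p := by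
    rw [tang, neg_smul, sub_eq_add_neg]
  rw [h1, h2, emb_lin]

theorem emb_sum {ι : Type} (S : Finset ι) (f : ι → Fin 3 → ℝ) :
    emb (∑ i ∈ S, f i) = ∑ i ∈ S, emb (f i) := by
  classical
  induction S using Finset.induction_on with
  | empty => simp [emb_zero]
  | insert a S ha ih => rw [sum_insert ha, sum_insert ha, emb_add, ih]

theorem realization_emb {V Ed : Type} [Fintype Ed] [DecidableEq V] {s t : Ed → V}
    {P : V → Fin 3 → ℝ} {d : Ed → Fin 3 → ℝ} {L : Ed → ℝ} (h : Realization 3 s t P d L) :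
    Realization 4 s t (fun v => emb (P v)) (fun e => emb (d e)) L where
  sphere v := by rw [emb_dot]; exact h.sphere v
  dir e := by rw [emb_dot, emb_dot]; exact h.dir e
  pos := h.pos
  ends e := by rw [← emb_along, h.ends e]
  balanced v := by
    have h1 := congrArg emb (h.balanced v)
    rw [emb_add, emb_sum, emb_sum, emb_zero] at h1
    rw [← h1]
    congr 1
    refine Finset.sum_congr rfl fun e _ => ?_
    rw [emb_neg, emb_tang]

/-! ### realizations on the 2-sphere from `S²`-flows -/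

/-- the cross product -/
noncomputable def cr (a b : Fin 3 → ℝ) : Fin 3 → ℝ :=
  ![a 1 * b 2 - a 2 * b 1, a 2 * b 0 - a 0 * b 2, a 0 * b 1 - a 1 * b 0]

theorem cr_dot_left (a b : Fin 3 → ℝ) : cr a b ⬝ᵥ a = 0 := by
  simp only [dotProduct, Fin.sum_univ_three, cr, Matrix.cons_val_zero, Matrix.cons_val_one,
    Matrix.cons_val]
  ring

theorem cr_dot_right (a b : Fin 3 → ℝ) : cr a b ⬝ᵥ b = 0 := by
  simp only [dotProduct, Fin.sum_univ_three, cr, Matrix.cons_val_zero, Matrix.cons_val_one,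
    Matrix.cons_val]
  ring

theorem cr_sq (a b : Fin 3 → ℝ) : cr a b ⬝ᵥ cr a b = (a ⬝ᵥ a) * (b ⬝ᵥ b) - (a ⬝ᵥ b) ^ 2 := by
  simp only [dotProduct, Fin.sum_univ_three, cr, Matrix.cons_val_zero, Matrix.cons_val_one,
    Matrix.cons_val]
  ring

theorem cr_add (a a' b : Fin 3 → ℝ) : cr (a + a') b = cr a b + cr a' b := by
  apply fin3_ext <;>
  · simp only [cr, Pi.add_apply, Matrix.cons_val_zero, Matrix.cons_val_one, Matrix.cons_val]
    ring

theorem cr_zero (b : Fin 3 → ℝ) : cr 0 b = 0 := by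
  apply fin3_ext <;>
  · simp only [cr, Pi.zero_apply, Matrix.cons_val_zero, Matrix.cons_val_one, Matrix.cons_val]
    ring

theorem cr_neg (a b : Fin 3 → ℝ) : cr (-a) b = -cr a b := by
  apply fin3_ext <;>
  · simp only [cr, Pi.neg_apply, Matrix.cons_val_zero, Matrix.cons_val_one, Matrix.cons_val]
    ring

theorem cr_sum {ι : Type} (S : Finset ι) (b : Fin 3 → ℝ) (f : ι → Fin 3 → ℝ) :
    cr (∑ i ∈ S, f i) b = ∑ i ∈ S, cr (f i) b := by
  classical
  induction S using Finset.induction_on with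
  | empty => simp [cr_zero]
  | insert a S ha ih => rw [sum_insert ha, sum_insert ha, cr_add, ih]

/-- expansion of a vector in the basis `a`, `n`, `a × n` -/
theorem basis_expand {a n m : Fin 3 → ℝ} (ha : a ⬝ᵥ a = 1) (hn : n ⬝ᵥ n = 1) (han : n ⬝ᵥ a = 0)
    (hm : m ⬝ᵥ a = 0) : m = (n ⬝ᵥ m) • n + (cr a n ⬝ᵥ m) • cr a n := by
  have key : ∀ i, m i * ((a ⬝ᵥ a) * (n ⬝ᵥ n) - (n ⬝ᵥ a) ^ 2) = cr a n i * (cr a n ⬝ᵥ m) +
      (n ⬝ᵥ m) * (n i * (a ⬝ᵥ a) - a i * (n ⬝ᵥ a)) +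
      (m ⬝ᵥ a) * (a i * (n ⬝ᵥ n) - n i * (n ⬝ᵥ a)) := by
    intro i
    simp only [dotProduct, Fin.sum_univ_three, cr, Matrix.cons_val_zero, Matrix.cons_val_one,
      Matrix.cons_val]
    fin_cases i <;>
    · simp only [Fin.zero_eta, Fin.mk_one, Fin.reduceFinMk, Matrix.cons_val_zero,
        Matrix.cons_val_one, Matrix.cons_val]
      ring
  funext i
  have := key i
  rw [ha, hn, han, hm] at this
  simp only [Pi.add_apply, Pi.smul_apply, smul_eq_mul]
  linarith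

theorem cr_cr {a n : Fin 3 → ℝ} (ha : a ⬝ᵥ a = 1) (han : n ⬝ᵥ a = 0) : cr a (cr a n) = -n := by
  have key : ∀ i, cr a (cr a n) i = a i * (n ⬝ᵥ a) - n i * (a ⬝ᵥ a) := by
    intro i
    simp only [dotProduct, Fin.sum_univ_three, cr, Matrix.cons_val_zero, Matrix.cons_val_one,
      Matrix.cons_val]
    fin_cases i <;>
    · simp only [Fin.zero_eta, Fin.mk_one, Fin.reduceFinMk, Matrix.cons_val_zero,
        Matrix.cons_val_one, Matrix.cons_val]
      ring
  funext i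
  rw [key i, ha, han, Pi.neg_apply]
  ring

theorem cr_lin (a : Fin 3 → ℝ) (x y : ℝ) (b c : Fin 3 → ℝ) :
    cr a (x • b + y • c) = x • cr a b + y • cr a c := by
  apply fin3_ext <;>
  · simp only [cr, Pi.add_apply, Pi.smul_apply, smul_eq_mul, Matrix.cons_val_zero,
      Matrix.cons_val_one, Matrix.cons_val]
    ring

/-- three unit vectors with a signed sum zero have a common unit normal -/
theorem exists_normal {a₁ a₂ a₃ : Fin 3 → ℝ} (h₁ : a₁ ⬝ᵥ a₁ = 1) (h₂ : a₂ ⬝ᵥ a₂ = 1)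
    (h₃ : a₃ ⬝ᵥ a₃ = 1) {c₁ c₂ c₃ : ℝ} (hc₁ : c₁ ^ 2 = 1) (hc₂ : c₂ ^ 2 = 1) (hc₃ : c₃ ^ 2 = 1)
    (h : c₁ • a₁ + c₂ • a₂ + c₃ • a₃ = 0) :
    ∃ n : Fin 3 → ℝ, n ⬝ᵥ n = 1 ∧ n ⬝ᵥ a₁ = 0 ∧ n ⬝ᵥ a₂ = 0 ∧ n ⬝ᵥ a₃ = 0 := by
  have e1 := congrArg (fun y => a₁ ⬝ᵥ y) h
  have e2 := congrArg (fun y => a₂ ⬝ᵥ y) h
  have e3 := congrArg (fun y => a₃ ⬝ᵥ y) h
  simp only [dotProduct_add, dotProduct_smul, smul_eq_mul, dotProduct_zero, h₁, h₂, h₃,
    dotProduct_comm a₂ a₁, dotProduct_comm a₃ a₁, dotProduct_comm a₃ a₂] at e1 e2 e3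
  have b12 : c₁ * c₂ * (a₁ ⬝ᵥ a₂) = -1 / 2 := by
    linear_combination (c₁ * e1 + c₂ * e2 - c₃ * e3 - hc₁ - hc₂ + hc₃) / 2
  have b12' : (a₁ ⬝ᵥ a₂) ^ 2 = 1 / 4 := by
    have k7 : (c₁ * c₂ * (a₁ ⬝ᵥ a₂)) ^ 2 = (-1 / 2) ^ 2 := by rw [b12]
    have k8 : (c₁ * c₂ * (a₁ ⬝ᵥ a₂)) ^ 2 = c₁ ^ 2 * (c₂ ^ 2 * (a₁ ⬝ᵥ a₂) ^ 2) := by ring
    rw [k8, hc₁, hc₂] at k7
    linarith
  have hsq := cr_sq a₁ a₂
  rw [h₁, h₂, b12'] at hsq
  obtain ⟨r, hr⟩ : ∃ r : ℝ, r ^ 2 * (3 / 4) = 1 := by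
    refine ⟨√(4 / 3), ?_⟩
    rw [Real.sq_sqrt (by norm_num)]
    norm_num
  have n1 : (r • cr a₁ a₂) ⬝ᵥ a₁ = 0 := by rw [smul_dotProduct, cr_dot_left, smul_zero]
  have n2 : (r • cr a₁ a₂) ⬝ᵥ a₂ = 0 := by rw [smul_dotProduct, cr_dot_right, smul_zero]
  refine ⟨r • cr a₁ a₂, ?_, n1, n2, ?_⟩
  · rw [smul_dotProduct, dotProduct_smul, hsq, smul_eq_mul, smul_eq_mul]
    linarith
  · have e4 := congrArg (fun y => (r • cr a₁ a₂) ⬝ᵥ y) h
    simp only [dotProduct_add, dotProduct_smul, dotProduct_zero, n1, n2, smul_eq_mul] at e4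
    have e5 : c₃ * (c₃ * ((r • cr a₁ a₂) ⬝ᵥ a₃)) = (r • cr a₁ a₂) ⬝ᵥ a₃ := by
      linear_combination ((r • cr a₁ a₂) ⬝ᵥ a₃) * hc₃
    rw [← e5]
    have e6 : c₃ * ((r • cr a₁ a₂) ⬝ᵥ a₃) = 0 := by linarith
    rw [e6, mul_zero]

theorem vertex_normal {V Ed : Type} [Fintype Ed] [DecidableEq V] {s t : Ed → V}
    (hG : IsCubic s t) {a : Ed → Fin 3 → ℝ} (h : IsFlow s t a) (v : V) :
    ∃ n : Fin 3 → ℝ, n ⬝ᵥ n = 1 ∧ ∀ e, (s e = v ∨ t e = v) → n ⬝ᵥ a e = 0 := by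
  classical
  obtain ⟨e₁, e₂, e₃, h12, h13, h23, hI⟩ := Finset.card_eq_three.1 (hG.cubic v)
  have hs := cut_sum s t a h.kirchhoff {v}
  have hcut : cut s t {v} = {e₁, e₂, e₃} := by
    rw [← hI]
    ext e
    simp only [cut, mem_filter, mem_univ, true_and, mem_singleton]
    have := hG.loopless e
    constructor
    · intro h1
      by_contra h2
      push Not at h2
      exact h1 ⟨fun h3 => absurd h3 h2.1, fun h3 => absurd h3 h2.2⟩
    · rintro (h1 | h1) h2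
      · exact this (h1.trans (h2.1 h1).symm)
      · exact this ((h2.2 h1).trans h1.symm)
  have hsg : ∀ e ∈ ({e₁, e₂, e₃} : Finset Ed), (sgn s t {v} e) ^ 2 = 1 := by
    intro e he
    rcases sgn_of_mem s t {v} e (by rw [hcut]; exact he) with h1 | h1 <;> rw [h1] <;> norm_num
  rw [hcut, Finset.sum_insert (by simp [h12, h13]), Finset.sum_insert (by simp [h23]),
    Finset.sum_singleton, ← add_assoc] at hs
  obtain ⟨n, hn, n1, n2, n3⟩ := exists_normal (h.unit e₁) (h.unit e₂) (h.unit e₃)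
    (hsg e₁ (by simp)) (hsg e₂ (by simp)) (hsg e₃ (by simp)) hs
  refine ⟨n, hn, fun e he => ?_⟩
  have he' : e ∈ ({e₁, e₂, e₃} : Finset Ed) := by
    rw [← hI]
    simpa using he
  simp only [mem_insert, mem_singleton] at he'
  rcases he' with rfl | rfl | rfl
  · exact n1
  · exact n2
  · exact n3

theorem realization_of_flow {V Ed : Type} [Fintype Ed] [DecidableEq V] {s t : Ed → V}
    (hG : IsCubic s t) {a : Ed → Fin 3 → ℝ} (h : IsFlow s t a) :
    ∃ (P : V → Fin 3 → ℝ) (d : Ed → Fin 3 → ℝ) (L : Ed → ℝ), Realization 3 s t P d L := by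
  choose n hn hna using vertex_normal hG h
  have hd1 : ∀ e, cr (a e) (n (s e)) ⬝ᵥ cr (a e) (n (s e)) = 1 := by
    intro e
    rw [cr_sq, h.unit e, hn, dotProduct_comm, hna (s e) e (Or.inl rfl)]
    norm_num
  have hd2 : ∀ e, n (s e) ⬝ᵥ cr (a e) (n (s e)) = 0 := by
    intro e
    rw [dotProduct_comm]
    exact cr_dot_right _ _
  have hL : ∀ e, ∃ l : ℝ, 0 < l ∧ along (n (s e)) (cr (a e) (n (s e))) l = n (t e) := by
    intro e
    obtain ⟨τ, hτ⟩ := exists_along (hn (s e)) (hd1 e) (hd2 e) (hn (t e)) _ _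
      (basis_expand (h.unit e) (hn (s e)) (hna (s e) e (Or.inl rfl)) (hna (t e) e (Or.inr rfl)))
    obtain ⟨N, hN⟩ := exists_nat_gt (-τ / (2 * Real.pi))
    have hpi : 0 < 2 * Real.pi := by positivity
    refine ⟨τ + N * (2 * Real.pi), ?_, ?_⟩
    · rw [div_lt_iff₀ hpi] at hN
      linarith
    · rw [along, Real.cos_add_nat_mul_two_pi, Real.sin_add_nat_mul_two_pi]
      exact hτ
  choose L hLpos hLend using hL
  refine ⟨n, fun e => cr (a e) (n (s e)), L, ⟨hn, fun e => ⟨hd1 e, hd2 e⟩, hLpos, hLend, ?_⟩⟩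
  intro v
  have h1 : ∑ e ∈ univ.filter (fun e => s e = v), cr (a e) (n (s e)) =
      cr (∑ e ∈ univ.filter (fun e => s e = v), a e) (n v) := by
    rw [cr_sum]
    refine Finset.sum_congr rfl fun e he => ?_
    rw [(mem_filter.1 he).2]
  have h2 : ∑ e ∈ univ.filter (fun e => t e = v), -tang (n (s e)) (cr (a e) (n (s e))) (L e) =
      -cr (∑ e ∈ univ.filter (fun e => t e = v), a e) (n v) := by
    rw [cr_sum, ← Finset.sum_neg_distrib]
    refine Finset.sum_congr rfl fun e he => ?_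
    rw [← (mem_filter.1 he).2, ← hLend e, along, cr_lin,
      cr_cr (h.unit e) (hna (s e) e (Or.inl rfl)), tang, smul_neg, sub_eq_add_neg]
  rw [h1, h2, h.kirchhoff v]
  exact add_neg_cancel _

/-! ### pairs of `S²`-flows -/

/-- the anti-self-dual part of the momentum -/
noncomputable def asd (p d : Fin 4 → ℝ) : Fin 3 → ℝ :=
  ![p 0 * d 1 - p 1 * d 0 - (p 2 * d 3 - p 3 * d 2), p 0 * d 2 - p 2 * d 0 + (p 1 * d 3 - p 3 * d 1),
    p 0 * d 3 - p 3 * d 0 - (p 1 * d 2 - p 2 * d 1)]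

theorem asd_along (p d : Fin 4 → ℝ) (τ : ℝ) : asd (along p d τ) (tang p d τ) = asd p d := by
  have h := Real.sin_sq_add_cos_sq τ
  apply fin3_ext
  · simp only [asd, along, tang, Pi.add_apply, Pi.sub_apply, Pi.smul_apply, smul_eq_mul,
      Matrix.cons_val_zero]
    linear_combination (p 0 * d 1 - p 1 * d 0 - (p 2 * d 3 - p 3 * d 2)) * h
  · simp only [asd, along, tang, Pi.add_apply, Pi.sub_apply, Pi.smul_apply, smul_eq_mul,
      Matrix.cons_val_one, Matrix.cons_val_zero]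
    linear_combination (p 0 * d 2 - p 2 * d 0 + (p 1 * d 3 - p 3 * d 1)) * h
  · simp only [asd, along, tang, Pi.add_apply, Pi.sub_apply, Pi.smul_apply, smul_eq_mul,
      Matrix.cons_val]
    linear_combination (p 0 * d 3 - p 3 * d 0 - (p 1 * d 2 - p 2 * d 1)) * h

theorem asd_unit {p d : Fin 4 → ℝ} (hp : p ⬝ᵥ p = 1) (hd : d ⬝ᵥ d = 1) (hpd : p ⬝ᵥ d = 0) :
    asd p d ⬝ᵥ asd p d = 1 := by
  simp only [dotProduct, Fin.sum_univ_four] at hp hd hpd
  simp only [dotProduct, Fin.sum_univ_three, asd, Matrix.cons_val_zero, Matrix.cons_val_one,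
    Matrix.cons_val]
  linear_combination (d 0 * d 0 + d 1 * d 1 + d 2 * d 2 + d 3 * d 3) * hp + hd -
    (p 0 * d 0 + p 1 * d 1 + p 2 * d 2 + p 3 * d 3) * hpd

theorem asd_add (p d d' : Fin 4 → ℝ) : asd p (d + d') = asd p d + asd p d' := by
  apply fin3_ext <;>
  · simp only [asd, Pi.add_apply, Matrix.cons_val_zero, Matrix.cons_val_one, Matrix.cons_val]
    ring

theorem asd_neg (p d : Fin 4 → ℝ) : asd p (-d) = -asd p d := by
  apply fin3_ext <;>
  · simp only [asd, Pi.neg_apply, Matrix.cons_val_zero, Matrix.cons_val_one, Matrix.cons_val]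
    ring

theorem asd_zero (p : Fin 4 → ℝ) : asd p 0 = 0 := by
  apply fin3_ext <;>
  · simp only [asd, Pi.zero_apply, Matrix.cons_val_zero, Matrix.cons_val_one, Matrix.cons_val]
    ring

theorem asd_sum {ι : Type} (S : Finset ι) (p : Fin 4 → ℝ) (f : ι → Fin 4 → ℝ) :
    asd p (∑ i ∈ S, f i) = ∑ i ∈ S, asd p (f i) := by
  classical
  induction S using Finset.induction_on with
  | empty => simp [asd_zero]
  | insert a S ha ih => rw [sum_insert ha, sum_insert ha, asd_add, ih]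

theorem flow_of_realization' {V Ed : Type} [Fintype Ed] [DecidableEq V] {s t : Ed → V}
    {P : V → Fin 4 → ℝ} {d : Ed → Fin 4 → ℝ} {L : Ed → ℝ} (h : Realization 4 s t P d L) :
    IsFlow s t (fun e => asd (P (s e)) (d e)) := by
  refine ⟨fun e => asd_unit (h.sphere _) (h.dir e).1 (h.dir e).2, fun v => ?_⟩
  have h1 : ∑ e ∈ univ.filter (fun e => s e = v), asd (P (s e)) (d e) =
      ∑ e ∈ univ.filter (fun e => s e = v), asd (P v) (d e) := by
    refine Finset.sum_congr rfl fun e he => ?_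
    rw [(mem_filter.1 he).2]
  have h2 : ∑ e ∈ univ.filter (fun e => t e = v), asd (P (s e)) (d e) =
      ∑ e ∈ univ.filter (fun e => t e = v), asd (P v) (tang (P (s e)) (d e) (L e)) := by
    refine Finset.sum_congr rfl fun e he => ?_
    rw [← asd_along _ _ (L e), h.ends e, (mem_filter.1 he).2]
  have h3 := congrArg (fun y => asd (P v) y) (h.balanced v)
  simp only [asd_add, asd_sum, asd_zero, asd_neg, Finset.sum_neg_distrib] at h3
  rw [h1, h2]
  exact add_neg_eq_zero.1 h3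

/-- the self-dual operator of `a` -/
noncomputable def opA (a : Fin 3 → ℝ) (x : Fin 4 → ℝ) : Fin 4 → ℝ :=
  ![-(x 1 * a 0) - x 2 * a 1 - x 3 * a 2, x 0 * a 0 - x 2 * a 2 + x 3 * a 1,
    x 0 * a 1 + x 1 * a 2 - x 3 * a 0, x 0 * a 2 - x 1 * a 1 + x 2 * a 0]

/-- the anti-self-dual operator of `b` -/
noncomputable def opB (b : Fin 3 → ℝ) (x : Fin 4 → ℝ) : Fin 4 → ℝ :=
  ![-(x 1 * b 0) - x 2 * b 1 - x 3 * b 2, x 0 * b 0 + x 2 * b 2 - x 3 * b 1,
    x 0 * b 1 - x 1 * b 2 + x 3 * b 0, x 0 * b 2 + x 1 * b 1 - x 2 * b 0]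

theorem mom_op (p d x : Fin 4 → ℝ) :
    mom p d x = (1 / 2 : ℝ) • (opA (sd p d) x + opB (asd p d) x) := by
  apply fin4_ext <;>
  · simp only [mom, opA, opB, sd, asd, dotProduct, Fin.sum_univ_four, Pi.add_apply, Pi.sub_apply,
      Pi.smul_apply, smul_eq_mul, Matrix.cons_val_zero, Matrix.cons_val_one, Matrix.cons_val]
    ring

theorem opA_add (a a' : Fin 3 → ℝ) (x : Fin 4 → ℝ) : opA (a + a') x = opA a x + opA a' x := by
  apply fin4_ext <;>
  · simp only [opA, Pi.add_apply, Matrix.cons_val_zero, Matrix.cons_val_one, Matrix.cons_val]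
    ring

theorem opB_add (a a' : Fin 3 → ℝ) (x : Fin 4 → ℝ) : opB (a + a') x = opB a x + opB a' x := by
  apply fin4_ext <;>
  · simp only [opB, Pi.add_apply, Matrix.cons_val_zero, Matrix.cons_val_one, Matrix.cons_val]
    ring

theorem opA_zero (x : Fin 4 → ℝ) : opA 0 x = 0 := by
  apply fin4_ext <;>
  · simp only [opA, Pi.zero_apply, Matrix.cons_val_zero, Matrix.cons_val_one, Matrix.cons_val]
    ring

theorem opB_zero (x : Fin 4 → ℝ) : opB 0 x = 0 := by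
  apply fin4_ext <;>
  · simp only [opB, Pi.zero_apply, Matrix.cons_val_zero, Matrix.cons_val_one, Matrix.cons_val]
    ring

theorem opA_sum {ι : Type} (S : Finset ι) (f : ι → Fin 3 → ℝ) (x : Fin 4 → ℝ) :
    opA (∑ i ∈ S, f i) x = ∑ i ∈ S, opA (f i) x := by
  classical
  induction S using Finset.induction_on with
  | empty => simp [opA_zero]
  | insert a S ha ih => rw [sum_insert ha, sum_insert ha, opA_add, ih]

theorem opB_sum {ι : Type} (S : Finset ι) (f : ι → Fin 3 → ℝ) (x : Fin 4 → ℝ) :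
    opB (∑ i ∈ S, f i) x = ∑ i ∈ S, opB (f i) x := by
  classical
  induction S using Finset.induction_on with
  | empty => simp [opB_zero]
  | insert a S ha ih => rw [sum_insert ha, sum_insert ha, opB_add, ih]

/-- every pair of unit vectors comes from a great circle -/
theorem exists_plane {a b : Fin 3 → ℝ} (ha : a ⬝ᵥ a = 1) (hb : b ⬝ᵥ b = 1) :
    ∃ p q : Fin 4 → ℝ, p ⬝ᵥ p = 1 ∧ q ⬝ᵥ q = 1 ∧ p ⬝ᵥ q = 0 ∧ sd p q = a ∧ asd p q = b := by
  obtain ⟨w, hw⟩ : ∃ w, opA a w + opB b w ≠ 0 := by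
    by_contra hcon
    push Not at hcon
    have h0 := hcon ![1, 0, 0, 0]
    have h1 := hcon ![0, 1, 0, 0]
    have h2 := hcon ![0, 0, 1, 0]
    have q0 := congrFun h0 1
    have q1 := congrFun h0 2
    have q2 := congrFun h0 3
    have q3 := congrFun h1 2
    have q4 := congrFun h1 3
    have q5 := congrFun h2 3
    simp only [opA, opB, Pi.add_apply, Pi.zero_apply, Matrix.cons_val_zero, Matrix.cons_val_one,
      Matrix.cons_val] at q0 q1 q2 q3 q4 q5
    have r0 : a 0 = 0 := by linarith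
    have r1 : a 1 = 0 := by linarith
    have r2 : a 2 = 0 := by linarith
    simp only [dotProduct, Fin.sum_univ_three, r0, r1, r2] at ha
    norm_num at ha
  obtain ⟨z, hz⟩ : ∃ z, z = opA a w + opB b w := ⟨_, rfl⟩
  have hz0 : z ≠ 0 := by rw [hz]; exact hw
  have hzz : 0 < z ⬝ᵥ z := by
    have h5 : 0 ≤ z ⬝ᵥ z := by
      rw [dotProduct]
      exact Finset.sum_nonneg fun i _ => mul_self_nonneg _
    rcases h5.lt_or_eq with h6 | h6
    · exact h6
    · exact absurd (dotProduct_self_eq_zero.1 h6.symm) hz0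
  obtain ⟨r, hr⟩ : ∃ r : ℝ, r = (√(z ⬝ᵥ z))⁻¹ := ⟨_, rfl⟩
  have hrz : r ^ 2 * (z ⬝ᵥ z) = 1 := by
    rw [hr, inv_pow, Real.sq_sqrt hzz.le, inv_mul_cancel₀ hzz.ne']
  have hx : (r • z) ⬝ᵥ (r • z) = 1 := by
    rw [smul_dotProduct, dotProduct_smul, smul_eq_mul, smul_eq_mul]
    linarith
  obtain ⟨p, hp⟩ : ∃ p, p = r • z := ⟨_, rfl⟩
  rw [← hp] at hx
  have hAB : opA a p = opB b p := by
    have key : ∀ i, opA a p i - opB b p i = r * ((b ⬝ᵥ b - a ⬝ᵥ a) * w i) := by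
      intro i
      rw [hp, hz]
      simp only [dotProduct, Fin.sum_univ_three]
      fin_cases i <;>
      · simp only [opA, opB, Pi.smul_apply, Pi.add_apply, smul_eq_mul, Fin.zero_eta, Fin.mk_one,
          Fin.reduceFinMk, Matrix.cons_val_zero, Matrix.cons_val_one, Matrix.cons_val]
        ring
    funext i
    have := key i
    rw [ha, hb, sub_self, zero_mul, mul_zero] at this
    linarith
  refine ⟨p, opA a p, hx, ?_, ?_, ?_, ?_⟩
  · have key : opA a p ⬝ᵥ opA a p = (a ⬝ᵥ a) * (p ⬝ᵥ p) := by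
      simp only [opA, dotProduct, Fin.sum_univ_three, Fin.sum_univ_four, Matrix.cons_val_zero,
        Matrix.cons_val_one, Matrix.cons_val]
      ring
    rw [key, ha, hx, one_mul]
  · simp only [opA, dotProduct, Fin.sum_univ_four, Matrix.cons_val_zero,
      Matrix.cons_val_one, Matrix.cons_val]
    ring
  · have key : ∀ i, sd p (opA a p) i = a i * (p ⬝ᵥ p) := by
      intro i
      simp only [dotProduct, Fin.sum_univ_four]
      fin_cases i <;>
      · simp only [opA, sd, Fin.zero_eta, Fin.mk_one, Fin.reduceFinMk, Matrix.cons_val_zero,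
          Matrix.cons_val_one, Matrix.cons_val]
        ring
    funext i
    rw [key i, hx, mul_one]
  · rw [hAB]
    have key : ∀ i, asd p (opB b p) i = b i * (p ⬝ᵥ p) := by
      intro i
      simp only [dotProduct, Fin.sum_univ_four]
      fin_cases i <;>
      · simp only [opB, asd, Fin.zero_eta, Fin.mk_one, Fin.reduceFinMk, Matrix.cons_val_zero,
          Matrix.cons_val_one, Matrix.cons_val]
        ring
    funext i
    rw [key i, hx, mul_one]

theorem along_along {k : ℕ} (p q : Fin k → ℝ) (x y : ℝ) :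
    along (along p q x) (tang p q x) y = along p q (x + y) := by
  ext i
  simp only [along, tang, Pi.add_apply, Pi.sub_apply, Pi.smul_apply, smul_eq_mul, Real.cos_add,
    Real.sin_add]
  ring

theorem tang_along {k : ℕ} (p q : Fin k → ℝ) (x y : ℝ) :
    tang (along p q x) (tang p q x) y = tang p q (x + y) := by
  ext i
  simp only [along, tang, Pi.add_apply, Pi.sub_apply, Pi.smul_apply, smul_eq_mul, Real.cos_add,
    Real.sin_add]
  ring

theorem cut_singleton {V Ed : Type} [Fintype Ed] [DecidableEq V] {s t : Ed → V}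
    (hG : IsCubic s t) (v : V) : cut s t {v} = univ.filter (fun e => s e = v ∨ t e = v) := by
  ext e
  simp only [cut, mem_filter, mem_univ, true_and, mem_singleton]
  have := hG.loopless e
  constructor
  · intro h1
    by_contra h2
    push Not at h2
    exact h1 ⟨fun h3 => absurd h3 h2.1, fun h3 => absurd h3 h2.2⟩
  · rintro (h1 | h1) h2
    · exact this (h1.trans (h2.1 h1).symm)
    · exact this ((h2.2 h1).trans h1.symm)

theorem realization_of_pair {V Ed : Type} [Fintype Ed] [DecidableEq V] {s t : Ed → V}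
    (hG : IsCubic s t) {a b : Ed → Fin 3 → ℝ} (ha : IsFlow s t a) (hb : IsFlow s t b) :
    ∃ (P : V → Fin 4 → ℝ) (d : Ed → Fin 4 → ℝ) (L : Ed → ℝ), Realization 4 s t P d L ∧
      ∀ e, sd (P (s e)) (d e) = a e ∧ asd (P (s e)) (d e) = b e := by
  classical
  choose p q hp hq hpq hsd hasd using fun e => exists_plane (ha.unit e) (hb.unit e)
  -- Kirchhoff's law for the momenta
  have hK : ∀ (x : Fin 4 → ℝ) (v : V), ∑ e ∈ univ.filter (fun e => s e = v), mom (p e) (q e) x =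
      ∑ e ∈ univ.filter (fun e => t e = v), mom (p e) (q e) x := by
    intro x v
    have h1 : ∀ S : Finset Ed, ∑ e ∈ S, mom (p e) (q e) x =
        (1 / 2 : ℝ) • (opA (∑ e ∈ S, a e) x + opB (∑ e ∈ S, b e) x) := by
      intro S
      rw [opA_sum, opB_sum, ← Finset.sum_add_distrib, Finset.smul_sum]
      refine Finset.sum_congr rfl fun e _ => ?_
      rw [mom_op, hsd, hasd]
    rw [h1, h1, ha.kirchhoff v, hb.kirchhoff v]
  have hx : ∀ v, ∃ x : Fin 4 → ℝ, x ⬝ᵥ x = 1 ∧ ∀ e, (s e = v ∨ t e = v) →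
      ∃ θ, along (p e) (q e) θ = x := by
    intro v
    obtain ⟨e₁, e₂, e₃, h12, h13, h23, hI⟩ := Finset.card_eq_three.1 (hG.cubic v)
    have hcut : cut s t {v} = {e₁, e₂, e₃} := by rw [cut_singleton hG v, hI]
    have hsg : ∀ e ∈ ({e₁, e₂, e₃} : Finset Ed), (sgn s t {v} e) ^ 2 = 1 := by
      intro e he
      rcases sgn_of_mem s t {v} e (by rw [hcut]; exact he) with h1 | h1 <;> rw [h1] <;> norm_num
    have hs : ∀ x, sgn s t {v} e₁ • mom (p e₁) (q e₁) x + sgn s t {v} e₂ • mom (p e₂) (q e₂) x +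
        sgn s t {v} e₃ • mom (p e₃) (q e₃) x = 0 := by
      intro x
      have hs := cut_sum s t (fun e => mom (p e) (q e) x) (hK x) {v}
      rw [hcut, Finset.sum_insert (by simp [h12, h13]), Finset.sum_insert (by simp [h23]),
        Finset.sum_singleton, ← add_assoc] at hs
      exact hs
    obtain ⟨x, θ₁, θ₂, θ₃, t1, t2, t3, -⟩ := three (hp e₁) (hq e₁) (hpq e₁) (hp e₂) (hq e₂)
      (hpq e₂) (hp e₃) (hq e₃) (hpq e₃) (hsg e₁ (by simp)) (hsg e₂ (by simp))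
      (hsg e₃ (by simp)) hs
    refine ⟨x, ?_, fun e he => ?_⟩
    · rw [← t1]
      exact along_unit (hp e₁) (hq e₁) (hpq e₁) θ₁
    · have he' : e ∈ ({e₁, e₂, e₃} : Finset Ed) := by
        rw [← hI]
        simpa using he
      simp only [mem_insert, mem_singleton] at he'
      rcases he' with rfl | rfl | rfl
      · exact ⟨θ₁, t1⟩
      · exact ⟨θ₂, t2⟩
      · exact ⟨θ₃, t3⟩
  choose P hP hPe using hx
  choose φ hφ using fun e => hPe (s e) e (Or.inl rfl)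
  choose ψ hψ using fun e => hPe (t e) e (Or.inr rfl)
  have hN : ∀ e, ∃ N : ℕ, 0 < ψ e - φ e + N * (2 * Real.pi) := by
    intro e
    obtain ⟨N, hN⟩ := exists_nat_gt (-(ψ e - φ e) / (2 * Real.pi))
    have hpi : 0 < 2 * Real.pi := by positivity
    refine ⟨N, ?_⟩
    rw [div_lt_iff₀ hpi] at hN
    linarith
  choose N hN using hN
  have hsum : ∀ e, φ e + (ψ e - φ e + N e * (2 * Real.pi)) = ψ e + N e * (2 * Real.pi) :=
    fun e => by ring
  have hal : ∀ e, along (p e) (q e) (ψ e + N e * (2 * Real.pi)) = along (p e) (q e) (ψ e) := by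
    intro e
    rw [along, along, Real.cos_add_nat_mul_two_pi, Real.sin_add_nat_mul_two_pi]
  have hta : ∀ e, tang (p e) (q e) (ψ e + N e * (2 * Real.pi)) = tang (p e) (q e) (ψ e) := by
    intro e
    rw [tang, tang, Real.cos_add_nat_mul_two_pi, Real.sin_add_nat_mul_two_pi]
  have hmt : ∀ e θ, mom (p e) (q e) (along (p e) (q e) θ) = tang (p e) (q e) θ := by
    intro e θ
    rw [← mom_along (p e) (q e) _ θ]
    exact mom_self (along_unit (hp e) (hq e) (hpq e) θ) (tang_unit (hp e) (hq e) (hpq e) θ).2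
  refine ⟨P, fun e => tang (p e) (q e) (φ e), fun e => ψ e - φ e + N e * (2 * Real.pi),
    ⟨hP, fun e => ?_, hN, fun e => ?_, fun v => ?_⟩, fun e => ⟨?_, ?_⟩⟩
  · have := tang_unit (hp e) (hq e) (hpq e) (φ e)
    rw [hφ e] at this
    exact this
  · rw [← hφ e, along_along, hsum e, hal e, hψ e]
  · have h1 : ∑ e ∈ univ.filter (fun e => s e = v), tang (p e) (q e) (φ e) =
        ∑ e ∈ univ.filter (fun e => s e = v), mom (p e) (q e) (P v) := by
      refine Finset.sum_congr rfl fun e he => ?_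
      rw [← (mem_filter.1 he).2, ← hφ e, hmt]
    have h2 : ∑ e ∈ univ.filter (fun e => t e = v), -tang (P (s e)) (tang (p e) (q e) (φ e))
        (ψ e - φ e + N e * (2 * Real.pi)) =
        ∑ e ∈ univ.filter (fun e => t e = v), -mom (p e) (q e) (P v) := by
      refine Finset.sum_congr rfl fun e he => ?_
      rw [← hφ e, tang_along, hsum e, hta e, ← (mem_filter.1 he).2, ← hψ e, hmt]
    rw [h1, h2, Finset.sum_neg_distrib, hK (P v) v]
    exact add_neg_cancel _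
  · rw [← hφ e, sd_along, hsd]
  · rw [← hφ e, asd_along, hasd]

/-- both ends of an edge are on its great circle -/
theorem on_circle {V Ed : Type} [Fintype Ed] [DecidableEq V] {k : ℕ} {s t : Ed → V}
    {P : V → Fin k → ℝ} {d : Ed → Fin k → ℝ} {L : Ed → ℝ} (h : Realization k s t P d L) (e : Ed)
    (v : V) (he : s e = v ∨ t e = v) : ∃ θ, along (P (s e)) (d e) θ = P v := by
  rcases he with he | he
  · refine ⟨0, ?_⟩
    rw [along, Real.cos_zero, Real.sin_zero, one_smul, zero_smul, add_zero, he]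
  · exact ⟨L e, by rw [h.ends e, he]⟩

theorem dot_of_sum {k : ℕ} {a₁ a₂ a₃ : Fin k → ℝ} (h₁ : a₁ ⬝ᵥ a₁ = 1) (h₂ : a₂ ⬝ᵥ a₂ = 1)
    (h₃ : a₃ ⬝ᵥ a₃ = 1) {c₁ c₂ c₃ : ℝ} (hc₁ : c₁ ^ 2 = 1) (hc₂ : c₂ ^ 2 = 1) (hc₃ : c₃ ^ 2 = 1)
    (h : c₁ • a₁ + c₂ • a₂ + c₃ • a₃ = 0) : (a₁ ⬝ᵥ a₂) ^ 2 = 1 / 4 := by
  have e1 := congrArg (fun y => a₁ ⬝ᵥ y) h
  have e2 := congrArg (fun y => a₂ ⬝ᵥ y) h
  have e3 := congrArg (fun y => a₃ ⬝ᵥ y) h
  simp only [dotProduct_add, dotProduct_smul, smul_eq_mul, dotProduct_zero, h₁, h₂, h₃,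
    dotProduct_comm a₂ a₁, dotProduct_comm a₃ a₁, dotProduct_comm a₃ a₂] at e1 e2 e3
  have b12 : c₁ * c₂ * (a₁ ⬝ᵥ a₂) = -1 / 2 := by
    linear_combination (c₁ * e1 + c₂ * e2 - c₃ * e3 - hc₁ - hc₂ + hc₃) / 2
  have k7 : (c₁ * c₂ * (a₁ ⬝ᵥ a₂)) ^ 2 = (-1 / 2) ^ 2 := by rw [b12]
  have k8 : (c₁ * c₂ * (a₁ ⬝ᵥ a₂)) ^ 2 = c₁ ^ 2 * (c₂ ^ 2 * (a₁ ⬝ᵥ a₂) ^ 2) := by ring
  rw [k8, hc₁, hc₂] at k7
  linarith

/-- the flows determine the vertices up to sign -/
theorem unique_of_pair {V Ed : Type} [Fintype Ed] [DecidableEq V] {s t : Ed → V}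
    (hG : IsCubic s t) {P P' : V → Fin 4 → ℝ} {d d' : Ed → Fin 4 → ℝ} {L L' : Ed → ℝ}
    (h : Realization 4 s t P d L) (h' : Realization 4 s t P' d' L')
    (hsd : ∀ e, sd (P (s e)) (d e) = sd (P' (s e)) (d' e))
    (hasd : ∀ e, asd (P (s e)) (d e) = asd (P' (s e)) (d' e)) (v : V) :
    P' v = P v ∨ P' v = -P v := by
  classical
  obtain ⟨e₁, e₂, e₃, h12, h13, h23, hI⟩ := Finset.card_eq_three.1 (hG.cubic v)
  have hcut : cut s t {v} = {e₁, e₂, e₃} := by rw [cut_singleton hG v, hI]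
  have hinc : ∀ e ∈ ({e₁, e₂, e₃} : Finset Ed), s e = v ∨ t e = v := by
    intro e he
    rw [← hI] at he
    simpa using he
  have hsg : ∀ e ∈ ({e₁, e₂, e₃} : Finset Ed), (sgn s t {v} e) ^ 2 = 1 := by
    intro e he
    rcases sgn_of_mem s t {v} e (by rw [hcut]; exact he) with h1 | h1 <;> rw [h1] <;> norm_num
  have hs := cut_sum s t (fun e => mom (P (s e)) (d e) (P v)) (mom_kirchhoff h (P v)) {v}
  rw [hcut, Finset.sum_insert (by simp [h12, h13]), Finset.sum_insert (by simp [h23]),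
    Finset.sum_singleton, ← add_assoc] at hs
  -- one incident edge
  have key : ∀ e ∈ ({e₁, e₂, e₃} : Finset Ed),
      mom (P (s e)) (d e) (P v) ⬝ᵥ mom (P (s e)) (d e) (P v) = 1 ∧
      P v ⬝ᵥ mom (P (s e)) (d e) (P v) = 0 ∧
      P' v = (P v ⬝ᵥ P' v) • P v +
        (mom (P (s e)) (d e) (P v) ⬝ᵥ P' v) • mom (P (s e)) (d e) (P v) := by
    intro e he
    obtain ⟨θ, hθ⟩ := on_circle h e v (hinc e he)
    obtain ⟨θ', hθ'⟩ := on_circle h' e v (hinc e he)
    have hu := tang_unit (h.sphere (s e)) (h.dir e).1 (h.dir e).2 θ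
    have hu' := tang_unit (h'.sphere (s e)) (h'.dir e).1 (h'.dir e).2 θ'
    rw [hθ] at hu
    rw [hθ'] at hu'
    have m1 : ∀ w, mom (P (s e)) (d e) w = mom (P v) (tang (P (s e)) (d e) θ) w := fun w => by
      rw [← mom_along (P (s e)) (d e) w θ, hθ]
    have m2 : ∀ w, mom (P (s e)) (d e) w = mom (P' v) (tang (P' (s e)) (d' e) θ') w := fun w => by
      rw [mom_op, hsd e, hasd e, ← mom_op, ← mom_along (P' (s e)) (d' e) w θ', hθ']
    have m3 : mom (P (s e)) (d e) (P v) = tang (P (s e)) (d e) θ := by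
      rw [m1, mom_self (h.sphere v) hu.2]
    have m4 : mom (P (s e)) (d e) (mom (P (s e)) (d e) (P' v)) = -P' v := by
      rw [m2 (P' v), mom_self (h'.sphere v) hu'.2, m2, mom_dir hu'.1 hu'.2]
    refine ⟨by rw [m3]; exact hu.1, by rw [m3]; exact hu.2, ?_⟩
    rw [m3]
    rw [m1, m1] at m4
    obtain ⟨u, hu0⟩ : ∃ u, u = tang (P (s e)) (d e) θ := ⟨_, rfl⟩
    rw [← hu0] at m4 hu ⊢
    ext i
    have m5 := congrFun m4 i
    simp only [mom, dotProduct_sub, dotProduct_smul, smul_eq_mul, h.sphere v, hu.1, hu.2,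
      dotProduct_comm u (P v), Pi.sub_apply, Pi.smul_apply, Pi.neg_apply] at m5
    simp only [Pi.add_apply, Pi.smul_apply, smul_eq_mul]
    linear_combination m5
  obtain ⟨a1, b1, g1⟩ := key e₁ (by simp)
  obtain ⟨a2, b2, g2⟩ := key e₂ (by simp)
  obtain ⟨a3, b3, g3⟩ := key e₃ (by simp)
  have hdot := dot_of_sum a1 a2 a3 (hsg e₁ (by simp)) (hsg e₂ (by simp)) (hsg e₃ (by simp)) hs
  obtain ⟨u₁, hu₁⟩ : ∃ u, u = mom (P (s e₁)) (d e₁) (P v) := ⟨_, rfl⟩
  obtain ⟨u₂, hu₂⟩ : ∃ u, u = mom (P (s e₂)) (d e₂) (P v) := ⟨_, rfl⟩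
  rw [← hu₁] at a1 b1 g1 hdot
  rw [← hu₂] at a2 b2 g2 hdot
  have q1 := congrArg (fun y => u₁ ⬝ᵥ y) g2
  have q2 := congrArg (fun y => u₂ ⬝ᵥ y) g1
  simp only [dotProduct_add, dotProduct_smul, smul_eq_mul, dotProduct_comm u₁ (P v),
    dotProduct_comm u₂ (P v), dotProduct_comm u₂ u₁, b1, b2, mul_zero, zero_add] at q1 q2
  have q3 : u₁ ⬝ᵥ P' v = 0 := by
    have : u₁ ⬝ᵥ P' v = (u₁ ⬝ᵥ P' v) * (u₁ ⬝ᵥ u₂) ^ 2 := by
      linear_combination q1 + (u₁ ⬝ᵥ u₂) * q2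
    rw [hdot] at this
    linarith
  rw [q3, zero_smul, add_zero] at g1
  have q4 : (P v ⬝ᵥ P' v) ^ 2 = 1 := by
    have := h'.sphere v
    rw [g1, smul_dotProduct, dotProduct_smul, h.sphere v] at this
    simp only [smul_eq_mul] at this
    linear_combination this
  have q5 : (P v ⬝ᵥ P' v - 1) * (P v ⬝ᵥ P' v + 1) = 0 := by linear_combination q4
  rcases mul_eq_zero.1 q5 with h1 | h1
  · left
    rw [g1, show P v ⬝ᵥ P' v = 1 by linarith, one_smul]
  · right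
    rw [g1, show P v ⬝ᵥ P' v = -1 by linarith, neg_smul, one_smul]

/-- in a balanced geodesic realization no edge is a bridge -/
theorem no_bridge {V Ed : Type} [Fintype Ed] [DecidableEq V] {k : ℕ} {s t : Ed → V}
    {P : V → Fin k → ℝ} {d : Ed → Fin k → ℝ} {L : Ed → ℝ} (h : Realization k s t P d L)
    (A : Finset V) : (cut s t A).card ≠ 1 := by
  intro hc
  obtain ⟨e, he⟩ := Finset.card_eq_one.1 hc
  have hs := cut_sum s t (fun e' => mom (P (s e')) (d e') (P (s e)))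
    (mom_kirchhoff h (P (s e))) A
  rw [he, Finset.sum_singleton, mom_self (h.sphere _) (h.dir e).2] at hs
  have hd : d e = 0 := by
    rcases sgn_of_mem s t A e (by rw [he]; exact Finset.mem_singleton_self e) with h1 | h1
    · rw [h1, one_smul] at hs
      exact hs
    · rw [h1, neg_smul, one_smul, neg_eq_zero] at hs
      exact hs
  have h2 := (h.dir e).1
  rw [hd, zero_dotProduct] at h2
  exact zero_ne_one h2

/-- the two edges of a 2-edge-cut are on one great circle -/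
theorem cut_two {V Ed : Type} [Fintype Ed] [DecidableEq V] {k : ℕ} {s t : Ed → V}
    {P : V → Fin k → ℝ} {d : Ed → Fin k → ℝ} {L : Ed → ℝ} (h : Realization k s t P d L)
    (A : Finset V) (e f : Ed) (hef : e ≠ f) (hc : ∀ g, g ∈ cut s t A ↔ g = e ∨ g = f) :
    Set.range (along (P (s e)) (d e)) = Set.range (along (P (s f)) (d f)) := by
  classical
  have hcut : cut s t A = {e, f} := by
    ext g
    rw [hc g, mem_insert, mem_singleton]
  have hs : ∀ x, sgn s t A e • mom (P (s e)) (d e) x + sgn s t A f • mom (P (s f)) (d f) x = 0 := by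
    intro x
    have h1 := cut_sum s t (fun e' => mom (P (s e')) (d e') x) (mom_kirchhoff h x) A
    rw [hcut, Finset.sum_pair hef] at h1
    exact h1
  have he2 : (sgn s t A e) ^ 2 = 1 := by
    rcases sgn_of_mem s t A e (by rw [hc]; exact Or.inl rfl) with h1 | h1 <;> rw [h1] <;> norm_num
  have hf2 : (sgn s t A f) ^ 2 = 1 := by
    rcases sgn_of_mem s t A f (by rw [hc]; exact Or.inr rfl) with h1 | h1 <;> rw [h1] <;> norm_num
  apply Set.Subset.antisymm
  · refine circle_subset (h.sphere _) (h.dir f).1 (h.dir f).2 (h.sphere _) (h.dir e).1 (h.dir e).2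
      (-(sgn s t A e * sgn s t A f)) fun x => ?_
    ext i
    have h4 := congrFun (hs x) i
    simp only [Pi.add_apply, Pi.smul_apply, smul_eq_mul, Pi.zero_apply] at h4 ⊢
    linear_combination (-(mom (P (s e)) (d e) x i)) * he2 + sgn s t A e * h4
  · refine circle_subset (h.sphere _) (h.dir e).1 (h.dir e).2 (h.sphere _) (h.dir f).1 (h.dir f).2
      (-(sgn s t A e * sgn s t A f)) fun x => ?_
    ext i
    have h4 := congrFun (hs x) i
    simp only [Pi.add_apply, Pi.smul_apply, smul_eq_mul, Pi.zero_apply] at h4 ⊢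
    linear_combination (-(mom (P (s f)) (d f) x i)) * hf2 + sgn s t A f * h4

/-- the great circles of the edges of a 3-edge-cut are concurrent and balanced -/
theorem cut_three {V Ed : Type} [Fintype Ed] [DecidableEq V] {k : ℕ} {s t : Ed → V}
    {P : V → Fin k → ℝ} {d : Ed → Fin k → ℝ} {L : Ed → ℝ} (h : Realization k s t P d L)
    (A : Finset V) (e f g : Ed) (hef : e ≠ f) (heg : e ≠ g) (hfg : f ≠ g)
    (hc : ∀ g', g' ∈ cut s t A ↔ g' = e ∨ g' = f ∨ g' = g) :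
    ∃ (x : Fin k → ℝ) (α β γ : ℝ), along (P (s e)) (d e) α = x ∧ along (P (s f)) (d f) β = x ∧
      along (P (s g)) (d g) γ = x ∧
      sgn s t A e • tang (P (s e)) (d e) α + sgn s t A f • tang (P (s f)) (d f) β +
        sgn s t A g • tang (P (s g)) (d g) γ = 0 := by
  classical
  have hcut : cut s t A = {e, f, g} := by
    ext g'
    rw [hc g', mem_insert, mem_insert, mem_singleton]
  have hs : ∀ x, sgn s t A e • mom (P (s e)) (d e) x + sgn s t A f • mom (P (s f)) (d f) x +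
      sgn s t A g • mom (P (s g)) (d g) x = 0 := by
    intro x
    have h1 := cut_sum s t (fun e' => mom (P (s e')) (d e') x) (mom_kirchhoff h x) A
    rw [hcut, Finset.sum_insert (by simp [hef, heg]), Finset.sum_insert (by simp [hfg]),
      Finset.sum_singleton, ← add_assoc] at h1
    exact h1
  have hsg : ∀ e', e' ∈ cut s t A → (sgn s t A e') ^ 2 = 1 := by
    intro e' he
    rcases sgn_of_mem s t A e' he with h1 | h1 <;> rw [h1] <;> norm_num
  exact three (h.sphere _) (h.dir e).1 (h.dir e).2 (h.sphere _) (h.dir f).1 (h.dir f).2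
    (h.sphere _) (h.dir g).1 (h.dir g).2 (hsg e (by rw [hc]; exact Or.inl rfl))
    (hsg f (by rw [hc]; exact Or.inr (Or.inl rfl))) (hsg g (by rw [hc]; exact Or.inr (Or.inr rfl)))
    hs

/-- **Closed geodesic nets, `S²`-flows and edge cuts.**

1. If the round 3-sphere carries a closed geodesic net modelled on a multigraph, then the multigraph
has an `S²`-flow and no bridge.
2. In every balanced geodesic realization of a multigraph on a round sphere of any dimension (in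
particular in every closed geodesic net): there is no 1-edge-cut; the two edges of a 2-edge-cut are on
one great circle; the great circles of the three edges of a 3-edge-cut pass through a common point `x`
(and `-x`) and are balanced there, as if one side of the cut was contracted to the point `x`.
3. The self-dual and the anti-self-dual part of the momenta of the edges of a balanced realization on
the 3-sphere are `S²`-flows; for a 3-regular multigraph, every pair of `S²`-flows arises in this way, and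
the pair determines every vertex up to sign.  In particular a 3-regular multigraph has a balanced
geodesic realization on the 3-sphere if and only if it has one on the 2-sphere if and only if it has an
`S²`-flow. -/
theorem result :
    (∀ (V Ed : Type) [Fintype Ed] [DecidableEq V] (s t : Ed → V),
      (∃ (P : V → Fin 4 → ℝ) (d : Ed → Fin 4 → ℝ) (L : Ed → ℝ), IsGeodesicNet 4 s t P d L) →
      (∃ a, IsFlow s t a) ∧ ∀ A : Finset V, (cut s t A).card ≠ 1) ∧
    (∀ (V Ed : Type) [Fintype Ed] [DecidableEq V] (k : ℕ) (s t : Ed → V) (P : V → Fin k → ℝ)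
      (d : Ed → Fin k → ℝ) (L : Ed → ℝ), Realization k s t P d L → ∀ A : Finset V,
      (cut s t A).card ≠ 1 ∧
      (∀ e f, e ≠ f → (∀ g, g ∈ cut s t A ↔ g = e ∨ g = f) →
        Set.range (along (P (s e)) (d e)) = Set.range (along (P (s f)) (d f))) ∧
      (∀ e f g, e ≠ f → e ≠ g → f ≠ g → (∀ g', g' ∈ cut s t A ↔ g' = e ∨ g' = f ∨ g' = g) →
        ∃ (x : Fin k → ℝ) (α β γ : ℝ), along (P (s e)) (d e) α = x ∧
          along (P (s f)) (d f) β = x ∧ along (P (s g)) (d g) γ = x ∧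
          sgn s t A e • tang (P (s e)) (d e) α + sgn s t A f • tang (P (s f)) (d f) β +
            sgn s t A g • tang (P (s g)) (d g) γ = 0)) ∧
    (∀ (V Ed : Type) [Fintype Ed] [DecidableEq V] (s t : Ed → V) (P : V → Fin 4 → ℝ)
      (d : Ed → Fin 4 → ℝ) (L : Ed → ℝ), Realization 4 s t P d L →
      IsFlow s t (fun e => sd (P (s e)) (d e)) ∧ IsFlow s t (fun e => asd (P (s e)) (d e))) ∧
    (∀ (V Ed : Type) [Fintype Ed] [DecidableEq V] (s t : Ed → V), IsCubic s t →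
      (∀ a b, IsFlow s t a → IsFlow s t b →
        ∃ (P : V → Fin 4 → ℝ) (d : Ed → Fin 4 → ℝ) (L : Ed → ℝ), Realization 4 s t P d L ∧
          ∀ e, sd (P (s e)) (d e) = a e ∧ asd (P (s e)) (d e) = b e) ∧
      (∀ (P P' : V → Fin 4 → ℝ) (d d' : Ed → Fin 4 → ℝ) (L L' : Ed → ℝ),
        Realization 4 s t P d L → Realization 4 s t P' d' L' →
        (∀ e, sd (P (s e)) (d e) = sd (P' (s e)) (d' e)) →
        (∀ e, asd (P (s e)) (d e) = asd (P' (s e)) (d' e)) → ∀ v, P' v = P v ∨ P' v = -P v) ∧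
      ((∃ (P : V → Fin 4 → ℝ) (d : Ed → Fin 4 → ℝ) (L : Ed → ℝ), Realization 4 s t P d L) ↔
        ∃ a, IsFlow s t a) ∧
      ((∃ (P : V → Fin 3 → ℝ) (d : Ed → Fin 3 → ℝ) (L : Ed → ℝ), Realization 3 s t P d L) ↔
        ∃ a, IsFlow s t a)) := by
  refine ⟨?_, ?_, ?_, ?_⟩
  · rintro V Ed _ _ s t ⟨P, d, L, h⟩
    exact ⟨⟨_, flow_of_realization h.toRealization⟩, no_bridge h.toRealization⟩
  · intro V Ed _ _ k s t P d L h A
    exact ⟨no_bridge h A, cut_two h A, cut_three h A⟩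
  · intro V Ed _ _ s t P d L h
    exact ⟨flow_of_realization h, flow_of_realization' h⟩
  · intro V Ed _ _ s t hG
    refine ⟨fun a b ha hb => realization_of_pair hG ha hb,
      fun P P' d d' L L' h h' h1 h2 => unique_of_pair hG h h' h1 h2, ⟨?_, ?_⟩, ⟨?_, ?_⟩⟩
    · rintro ⟨P, d, L, h⟩
      exact ⟨_, flow_of_realization h⟩
    · rintro ⟨a, ha⟩
      obtain ⟨P, d, L, h, -⟩ := realization_of_pair hG ha ha
      exact ⟨P, d, L, h⟩
    · rintro ⟨P, d, L, h⟩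
      exact ⟨_, flow_of_realization (realization_emb h)⟩
    · rintro ⟨a, ha⟩
      exact realization_of_flow hG ha

end Pool.Agent.Results.MP_a226eb_gt.FlowsAndCuts
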