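import Mathlib
import Pool.Agent.H357.Nets

set_option autoImplicit false

namespace Pool.Agent.Results.MP_a226eb_gt.GeneralizedPetersen

open Pool.Agent.H357.Nets ComplexConjugate

/-- The generalized Petersen graph `GP(n, k)`: outer vertices `(false, j)`, inner vertices `(true, j)`,
`j ∈ ℤ/n`, and the edges `(false, j) (false, j + 1)`, `(true, j) (true, j + k)`, `(false, j) (true, j)`. -/
def gp (n k : ℕ) : SimpleGraph (Bool × ZMod n) :=
  SimpleGraph.fromRel fun u v =>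
    (u.1 = false ∧ v = (false, u.2 + 1)) ∨ (u.1 = true ∧ v = (true, u.2 + (k : ZMod n))) ∨
      (u.1 = false ∧ v = (true, u.2))

/-- `Good n k`: with `c = cos (2 π / n)` and `d = cos (2 π k / n)` we have `d < c`, and the quadratic
equation `4 X (1 - X) (c - d)² + (X c + (1 - X) d)² = 1` has a root strictly between `1/2` and `1`. -/
def Good (n k : ℕ) : Prop :=
  Real.cos (2 * Real.pi * k / n) < Real.cos (2 * Real.pi / n) ∧
    ∃ X : ℝ, 1 / 2 < X ∧ X < 1 ∧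
      4 * X * (1 - X) * (Real.cos (2 * Real.pi / n) - Real.cos (2 * Real.pi * k / n)) ^ 2 +
        (X * Real.cos (2 * Real.pi / n) + (1 - X) * Real.cos (2 * Real.pi * k / n)) ^ 2 = 1

section

variable {n : ℕ}

theorem adj_false (hn : 3 ≤ n) (k : ℕ) (j : ZMod n) (v : Bool × ZMod n) :
    (gp n k).Adj (false, j) v ↔ v = (false, j + 1) ∨ v = (false, j + -1) ∨ v = (true, j) := by
  have h1 : (1 : ZMod n) ≠ 0 := by
    have : Fact (1 < n) := ⟨by omega⟩
    exact one_ne_zero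
  obtain ⟨b, i⟩ := v
  simp only [gp, SimpleGraph.fromRel_adj, ne_eq, Prod.mk.injEq]
  cases b
  · simp only [true_and, Bool.false_eq_true, false_and, or_false, and_false]
    constructor
    · rintro ⟨-, h | h⟩
      · exact Or.inl h
      · right; rw [h]; ring
    · rintro (h | h)
      · refine ⟨?_, Or.inl h⟩
        rw [h]; intro h2; apply h1; linear_combination -h2
      · refine ⟨?_, Or.inr (by rw [h]; ring)⟩
        rw [h]; intro h2; apply h1; linear_combination h2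
  · simp only [Bool.false_eq_true, false_and, false_or, reduceCtorEq, true_and, or_false,
      not_false_eq_true]

theorem adj_true (k : ℕ) (hk : (k : ZMod n) ≠ 0) (j : ZMod n) (v : Bool × ZMod n) :
    (gp n k).Adj (true, j) v ↔
      v = (true, j + (k : ZMod n)) ∨ v = (true, j + -(k : ZMod n)) ∨ v = (false, j) := by
  obtain ⟨b, i⟩ := v
  simp only [gp, SimpleGraph.fromRel_adj, ne_eq, Prod.mk.injEq]
  cases b
  · simp only [Bool.false_eq_true, Bool.true_eq_false, false_and, false_or, reduceCtorEq, true_and,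
      or_false, not_false_eq_true, and_false]
    exact eq_comm
  · simp only [true_and, Bool.true_eq_false, false_and, or_false, and_false, false_or]
    constructor
    · rintro ⟨-, h | h⟩
      · exact Or.inl h
      · right; rw [h]; ring
    · rintro (h | h)
      · refine ⟨?_, Or.inl h⟩
        rw [h]; intro h2; apply hk; linear_combination -h2
      · refine ⟨?_, Or.inr (by rw [h]; ring)⟩
        rw [h]; intro h2; apply hk; linear_combination h2

/-- the positions of the vertices -/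
noncomputable def pos [NeZero n] (k' : ZMod n) (C₁ S₁ C₂ S₂ : ℝ) : Bool × ZMod n → ℂ × ℂ
  | (false, j) => pt C₁ S₁ (E j) (E (k' * j))
  | (true, j) => pt C₂ S₂ (E j) (E (k' * j))

theorem comb_fst (a b C S C' S' : ℝ) (u v u' v' : ℂ) :
    (a • pt C S u v + b • pt C' S' u' v').1 = (a * C : ℝ) * u + (b * C' : ℝ) * u' := by
  simp only [pt, Prod.fst_add, Prod.smul_fst, Complex.real_smul]
  push_cast; ring

theorem comb_snd (a b C S C' S' : ℝ) (u v u' v' : ℂ) :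
    (a • pt C S u v + b • pt C' S' u' v').2 = (a * S : ℝ) * v + (b * S' : ℝ) * v' := by
  simp only [pt, Prod.snd_add, Prod.smul_snd, Complex.real_smul]
  push_cast; ring

theorem reach (k : ℕ) (hn : 3 ≤ n) (m : ℕ) :
    (gp n k).Reachable (false, 0) (false, (m : ZMod n)) := by
  induction m with
  | zero => simp
  | succ m ih =>
    refine ih.trans (SimpleGraph.Adj.reachable ?_)
    rw [adj_false hn]
    left
    push_cast
    rfl

theorem conn [NeZero n] (k : ℕ) (hn : 3 ≤ n) : (gp n k).Connected := by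
  have h0 : ∀ v, (gp n k).Reachable (false, 0) v := by
    rintro ⟨b, j⟩
    have hj : (gp n k).Reachable (false, 0) (false, j) := by
      have := reach (n := n) k hn j.val
      rwa [ZMod.natCast_zmod_val] at this
    cases b
    · exact hj
    · refine hj.trans (SimpleGraph.Adj.reachable ?_)
      rw [adj_false hn]
      right; right; rfl
  refine { preconnected := fun u v => (h0 u).symm.trans (h0 v), nonempty := ⟨(false, 0)⟩ }

section

variable [NeZero n] (hn : 3 ≤ n) (k k' : ZMod n) (hkk : k * k' = 1)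
    (C₁ S₁ C₂ S₂ : ℝ) (hC₁ : 0 < C₁) (hS₁ : 0 < S₁) (hC₂ : 0 < C₂) (hS₂ : 0 < S₂)
    (h₁ : C₁ ^ 2 + S₁ ^ 2 = 1) (h₂ : C₂ ^ 2 + S₂ ^ 2 = 1) (hone : 1 < C₁ ^ 2 + S₂ ^ 2)

include h₁ h₂ in
theorem pos_unit (v : Bool × ZMod n) : ip (pos k' C₁ S₁ C₂ S₂ v) (pos k' C₁ S₁ C₂ S₂ v) = 1 := by
  obtain ⟨b, j⟩ := v
  cases b
  · simp only [pos]
    rw [ip_pt' _ _ _ _ _ _ (E_norm _) (E_norm _)]; linarith
  · simp only [pos]
    rw [ip_pt' _ _ _ _ _ _ (E_norm _) (E_norm _)]; linarith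

include hC₁ hC₂ h₁ h₂ hone in
theorem pos_inj : Function.Injective (pos k' C₁ S₁ C₂ S₂) := by
  have hC : C₂ < C₁ := by nlinarith
  have key : ∀ (a b : ℝ) (i j : ZMod n), 0 < a → 0 < b → (a : ℂ) * E i = b * E j → a = b ∧ i = j := by
    intro a b i j ha hb h
    have h1 := congrArg norm h
    rw [norm_mul, norm_mul, E_norm, E_norm, Complex.norm_real, Complex.norm_real, mul_one, mul_one,
      Real.norm_of_nonneg ha.le, Real.norm_of_nonneg hb.le] at h1
    refine ⟨h1, ?_⟩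
    rw [h1] at h
    have hb0 : (b : ℂ) ≠ 0 := by exact_mod_cast hb.ne'
    exact E_inj (mul_left_cancel₀ hb0 h)
  rintro ⟨b, i⟩ ⟨b', j⟩ h
  cases b <;> cases b' <;> simp only [pos, pt, Prod.mk.injEq] at h
  · rw [(key _ _ _ _ hC₁ hC₁ h.1).2]
  · exact absurd (key _ _ _ _ hC₁ hC₂ h.1).1 hC.ne'
  · exact absurd (key _ _ _ _ hC₂ hC₁ h.1).1 hC.ne
  · rw [(key _ _ _ _ hC₂ hC₂ h.1).2]

theorem outer_norm (j : ZMod n) (a b : ℝ) (x : ℂ × ℂ)
    (h : x = a • pos k' C₁ S₁ C₂ S₂ (false, j) + b • pos k' C₁ S₁ C₂ S₂ (false, j + 1)) :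
    Complex.normSq x.1 = C₁ ^ 2 * (a ^ 2 + b ^ 2 + 2 * a * b * (E (1 : ZMod n)).re) ∧
      Complex.normSq x.2 = S₁ ^ 2 * (a ^ 2 + b ^ 2 + 2 * a * b * (E k').re) := by
  simp only [pos] at h
  have e : k' * (j + 1) = k' * j + k' := by ring
  constructor
  · have h1 : x.1 = (C₁ : ℂ) * ((a : ℂ) * E j + b * E (j + 1)) := by
      rw [h, comb_fst]; push_cast; ring
    rw [h1, map_mul, Complex.normSq_ofReal, normSq_comb]; ring
  · have h1 : x.2 = (S₁ : ℂ) * ((a : ℂ) * E (k' * j) + b * E (k' * j + k')) := by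
      rw [h, comb_snd, e]; push_cast; ring
    rw [h1, map_mul, Complex.normSq_ofReal, normSq_comb]; ring

include hkk in
theorem inner_norm (j : ZMod n) (a b : ℝ) (x : ℂ × ℂ)
    (h : x = a • pos k' C₁ S₁ C₂ S₂ (true, j) + b • pos k' C₁ S₁ C₂ S₂ (true, j + k)) :
    Complex.normSq x.1 = C₂ ^ 2 * (a ^ 2 + b ^ 2 + 2 * a * b * (E k).re) ∧
      Complex.normSq x.2 = S₂ ^ 2 * (a ^ 2 + b ^ 2 + 2 * a * b * (E (1 : ZMod n)).re) := by
  simp only [pos] at h
  have e : k' * (j + k) = k' * j + 1 := by linear_combination hkk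
  constructor
  · have h1 : x.1 = (C₂ : ℂ) * ((a : ℂ) * E j + b * E (j + k)) := by
      rw [h, comb_fst]; push_cast; ring
    rw [h1, map_mul, Complex.normSq_ofReal, normSq_comb]; ring
  · have h1 : x.2 = (S₂ : ℂ) * ((a : ℂ) * E (k' * j) + b * E (k' * j + 1)) := by
      rw [h, comb_snd, e]; push_cast; ring
    rw [h1, map_mul, Complex.normSq_ofReal, normSq_comb]; ring

theorem normSq_unit (r : ℝ) (j : ZMod n) : Complex.normSq ((r : ℂ) * E j) = r ^ 2 := by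
  rw [map_mul, Complex.normSq_ofReal, Complex.normSq_eq_norm_sq (E j), E_norm]; ring

theorem rung_norm (j : ZMod n) (a b : ℝ) (x : ℂ × ℂ)
    (h : x = a • pos k' C₁ S₁ C₂ S₂ (false, j) + b • pos k' C₁ S₁ C₂ S₂ (true, j)) :
    x.1 = ((a * C₁ + b * C₂ : ℝ) : ℂ) * E j ∧
    Complex.normSq x.1 = (a * C₁ + b * C₂) ^ 2 ∧ Complex.normSq x.2 = (a * S₁ + b * S₂) ^ 2 := by
  simp only [pos] at h
  have h1 : x.1 = ((a * C₁ + b * C₂ : ℝ) : ℂ) * E j := by
    rw [h, comb_fst]; push_cast; ring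
  have h2 : x.2 = ((a * S₁ + b * S₂ : ℝ) : ℂ) * E (k' * j) := by
    rw [h, comb_snd]; push_cast; ring
  refine ⟨h1, ?_, ?_⟩
  · rw [h1, normSq_unit]
  · rw [h2, normSq_unit]

include hn hC₁ hC₂ h₁ h₂ hone in
theorem meet_oo (j l : ZMod n) (hjl : j ≠ l) :
    Meet (pos k' C₁ S₁ C₂ S₂) (false, j) (false, j + 1) (false, l) (false, l + 1) := by
  apply meet_of (pos_unit k' C₁ S₁ C₂ S₂ h₁ h₂) (pos_inj k' C₁ S₁ C₂ S₂ hC₁ hC₂ h₁ h₂ hone)
  intro x a b a' b' hx ha hb ha' hb' e e'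
  simp only [pos] at e e'
  have f1 := congrArg Prod.fst e
  have f2 := congrArg Prod.fst e'
  rw [comb_fst] at f1 f2
  rcases two_edges hn C₁ hC₁.ne' j l hjl a b a' b' ha hb ha' hb' (by
    push_cast at f1 f2; linear_combination f2 - f1) with h | h
  · exact Or.inl h
  · exact Or.inr (Or.inl h)

include hn hkk hC₁ hC₂ hS₂ h₁ h₂ hone in
theorem meet_ii (j l : ZMod n) (hjl : j ≠ l) :
    Meet (pos k' C₁ S₁ C₂ S₂) (true, j) (true, j + k) (true, l) (true, l + k) := by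
  apply meet_of (pos_unit k' C₁ S₁ C₂ S₂ h₁ h₂) (pos_inj k' C₁ S₁ C₂ S₂ hC₁ hC₂ h₁ h₂ hone)
  intro x a b a' b' hx ha hb ha' hb' e e'
  simp only [pos] at e e'
  have f1 := congrArg Prod.snd e
  have f2 := congrArg Prod.snd e'
  have g1 : k' * (j + k) = k' * j + 1 := by linear_combination hkk
  have g2 : k' * (l + k) = k' * l + 1 := by linear_combination hkk
  rw [comb_snd, g1] at f1
  rw [comb_snd, g2] at f2
  have hne : k' * j ≠ k' * l := by
    intro h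
    apply hjl
    have : k * (k' * j) = k * (k' * l) := by rw [h]
    rw [← mul_assoc, ← mul_assoc, hkk, one_mul, one_mul] at this
    exact this
  rcases two_edges hn S₂ hS₂.ne' (k' * j) (k' * l) hne a b a' b' ha hb ha' hb' (by
    push_cast at f1 f2; linear_combination f2 - f1) with h | h
  · exact Or.inl h
  · exact Or.inr (Or.inl h)

include hC₁ hC₂ h₁ h₂ hone in
theorem meet_rr (j l : ZMod n) (hjl : j ≠ l) :
    Meet (pos k' C₁ S₁ C₂ S₂) (false, j) (true, j) (false, l) (true, l) := by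
  apply meet_of (pos_unit k' C₁ S₁ C₂ S₂ h₁ h₂) (pos_inj k' C₁ S₁ C₂ S₂ hC₁ hC₂ h₁ h₂ hone)
  intro x a b a' b' hx ha hb ha' hb' e e'
  exfalso
  obtain ⟨f1, f2, f3⟩ := rung_norm k' C₁ S₁ C₂ S₂ j a b x e
  obtain ⟨g1, g2, g3⟩ := rung_norm k' C₁ S₁ C₂ S₂ l a' b' x e'
  have hs : Complex.normSq x.1 + Complex.normSq x.2 = 1 := by rw [← ip_self_eq]; exact hx
  have hpos : 0 < a * C₁ + b * C₂ := by
    rcases eq_or_lt_of_le ha with h0 | h0
    · rcases eq_or_lt_of_le hb with h3 | h3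
      · rw [f2, f3, ← h0, ← h3] at hs; norm_num at hs
      · positivity
    · positivity
  have hpos' : 0 ≤ a' * C₁ + b' * C₂ := by positivity
  have heq : a * C₁ + b * C₂ = a' * C₁ + b' * C₂ := by
    have : (a * C₁ + b * C₂) ^ 2 = (a' * C₁ + b' * C₂) ^ 2 := by rw [← f2, ← g2]
    exact (pow_left_inj₀ hpos.le hpos' two_ne_zero).mp this
  apply hjl
  rw [f1, ← heq] at g1
  have h0 : ((a * C₁ + b * C₂ : ℝ) : ℂ) ≠ 0 := by exact_mod_cast hpos.ne'
  exact E_inj (mul_left_cancel₀ h0 g1)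

include hkk hC₁ hS₁ hC₂ hS₂ h₁ h₂ hone in
theorem meet_oi (hdc : (E k').re < (E (1 : ZMod n)).re) (hec : (E k).re < (E (1 : ZMod n)).re)
    (j l : ZMod n) :
    Meet (pos k' C₁ S₁ C₂ S₂) (false, j) (false, j + 1) (true, l) (true, l + k) := by
  apply meet_of (pos_unit k' C₁ S₁ C₂ S₂ h₁ h₂) (pos_inj k' C₁ S₁ C₂ S₂ hC₁ hC₂ h₁ h₂ hone)
  intro x a b a' b' hx ha hb ha' hb' e e'
  exfalso
  obtain ⟨f2, f3⟩ := outer_norm k' C₁ S₁ C₂ S₂ j a b x e
  obtain ⟨g2, g3⟩ := inner_norm k k' hkk C₁ S₁ C₂ S₂ l a' b' x e'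
  have hs : Complex.normSq x.1 + Complex.normSq x.2 = 1 := by rw [← ip_self_eq]; exact hx
  have u1 : C₁ ^ 2 ≤ Complex.normSq x.1 := by
    have w : 0 ≤ C₁ ^ 2 * S₁ ^ 2 * (2 * (a * b)) * ((E (1 : ZMod n)).re - (E k').re) := by
      have : 0 ≤ (E (1 : ZMod n)).re - (E k').re := by linarith
      positivity
    have : S₁ ^ 2 * Complex.normSq x.1 - C₁ ^ 2 * Complex.normSq x.2 =
        C₁ ^ 2 * S₁ ^ 2 * (2 * (a * b)) * ((E (1 : ZMod n)).re - (E k').re) := by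
      rw [f2, f3]; ring
    nlinarith
  have u2 : S₂ ^ 2 ≤ Complex.normSq x.2 := by
    have w : 0 ≤ C₂ ^ 2 * S₂ ^ 2 * (2 * (a' * b')) * ((E (1 : ZMod n)).re - (E k).re) := by
      have : 0 ≤ (E (1 : ZMod n)).re - (E k).re := by linarith
      positivity
    have : C₂ ^ 2 * Complex.normSq x.2 - S₂ ^ 2 * Complex.normSq x.1 =
        C₂ ^ 2 * S₂ ^ 2 * (2 * (a' * b')) * ((E (1 : ZMod n)).re - (E k).re) := by
      rw [g2, g3]; ring
    nlinarith
  linarith

include hC₁ hS₁ hC₂ hS₂ h₁ h₂ hone in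
theorem cross : C₂ * S₁ < C₁ * S₂ := by
  have hC : C₂ < C₁ := by nlinarith
  have hS : S₁ < S₂ := by nlinarith
  nlinarith

include hC₁ hS₁ hC₂ hS₂ h₁ h₂ hone in
theorem meet_or (hdc : (E k').re < (E (1 : ZMod n)).re) (j l : ZMod n) :
    Meet (pos k' C₁ S₁ C₂ S₂) (false, j) (false, j + 1) (false, l) (true, l) := by
  apply meet_of (pos_unit k' C₁ S₁ C₂ S₂ h₁ h₂) (pos_inj k' C₁ S₁ C₂ S₂ hC₁ hC₂ h₁ h₂ hone)
  intro x a b a' b' hx ha hb ha' hb' e e'
  obtain ⟨f2, f3⟩ := outer_norm k' C₁ S₁ C₂ S₂ j a b x e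
  obtain ⟨g1, g2, g3⟩ := rung_norm k' C₁ S₁ C₂ S₂ l a' b' x e'
  have hs : Complex.normSq x.1 + Complex.normSq x.2 = 1 := by rw [← ip_self_eq]; exact hx
  have hcr := cross C₁ S₁ C₂ S₂ hC₁ hS₁ hC₂ hS₂ h₁ h₂ hone
  have w0 : 0 < C₁ ^ 2 * S₁ ^ 2 * 2 * ((E (1 : ZMod n)).re - (E k').re) := by
    have : 0 < (E (1 : ZMod n)).re - (E k').re := by linarith
    positivity
  have w1 : S₁ ^ 2 * Complex.normSq x.1 - C₁ ^ 2 * Complex.normSq x.2 =
      (C₁ ^ 2 * S₁ ^ 2 * 2 * ((E (1 : ZMod n)).re - (E k').re)) * (a * b) := by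
    rw [f2, f3]; ring
  have w2 : S₁ ^ 2 * Complex.normSq x.1 - C₁ ^ 2 * Complex.normSq x.2 =
      -(b' * ((C₁ * S₂ - C₂ * S₁) * (S₁ * (a' * C₁ + b' * C₂) + C₁ * (a' * S₁ + b' * S₂)))) := by
    rw [g2, g3]; ring
  have w3 : 0 < S₁ * (a' * C₁ + b' * C₂) + C₁ * (a' * S₁ + b' * S₂) := by
    rcases eq_or_lt_of_le ha' with h0 | h0
    · rcases eq_or_lt_of_le hb' with h3 | h3
      · rw [g2, g3, ← h0, ← h3] at hs; norm_num at hs
      · positivity
    · positivity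
  have w4 : 0 < (C₁ * S₂ - C₂ * S₁) * (S₁ * (a' * C₁ + b' * C₂) + C₁ * (a' * S₁ + b' * S₂)) :=
    mul_pos (by linarith) w3
  have t1 : 0 ≤ (C₁ ^ 2 * S₁ ^ 2 * 2 * ((E (1 : ZMod n)).re - (E k').re)) * (a * b) :=
    mul_nonneg w0.le (mul_nonneg ha hb)
  have t2 : 0 ≤ b' * ((C₁ * S₂ - C₂ * S₁) * (S₁ * (a' * C₁ + b' * C₂) + C₁ * (a' * S₁ + b' * S₂))) :=
    mul_nonneg hb' w4.le
  have hab : a * b = 0 := by
    have : (C₁ ^ 2 * S₁ ^ 2 * 2 * ((E (1 : ZMod n)).re - (E k').re)) * (a * b) = 0 := by linarith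
    rcases mul_eq_zero.mp this with h | h
    · exact absurd h w0.ne'
    · exact h
  have hb0 : b' = 0 := by
    have : b' * ((C₁ * S₂ - C₂ * S₁) * (S₁ * (a' * C₁ + b' * C₂) + C₁ * (a' * S₁ + b' * S₂))) = 0 := by
      linarith
    rcases mul_eq_zero.mp this with h | h
    · exact h
    · exact absurd h w4.ne'
  rcases mul_eq_zero.mp hab with h | h
  · exact Or.inr (Or.inl ⟨h, hb0⟩)
  · exact Or.inr (Or.inr (Or.inl ⟨h, hb0⟩))

include hkk hC₁ hS₁ hC₂ hS₂ h₁ h₂ hone in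
theorem meet_ir (hec : (E k).re < (E (1 : ZMod n)).re) (j l : ZMod n) :
    Meet (pos k' C₁ S₁ C₂ S₂) (true, j) (true, j + k) (false, l) (true, l) := by
  apply meet_of (pos_unit k' C₁ S₁ C₂ S₂ h₁ h₂) (pos_inj k' C₁ S₁ C₂ S₂ hC₁ hC₂ h₁ h₂ hone)
  intro x a b a' b' hx ha hb ha' hb' e e'
  obtain ⟨f2, f3⟩ := inner_norm k k' hkk C₁ S₁ C₂ S₂ j a b x e
  obtain ⟨g1, g2, g3⟩ := rung_norm k' C₁ S₁ C₂ S₂ l a' b' x e'
  have hs : Complex.normSq x.1 + Complex.normSq x.2 = 1 := by rw [← ip_self_eq]; exact hx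
  have hcr := cross C₁ S₁ C₂ S₂ hC₁ hS₁ hC₂ hS₂ h₁ h₂ hone
  have w0 : 0 < C₂ ^ 2 * S₂ ^ 2 * 2 * ((E (1 : ZMod n)).re - (E k).re) := by
    have : 0 < (E (1 : ZMod n)).re - (E k).re := by linarith
    positivity
  have w1 : C₂ ^ 2 * Complex.normSq x.2 - S₂ ^ 2 * Complex.normSq x.1 =
      (C₂ ^ 2 * S₂ ^ 2 * 2 * ((E (1 : ZMod n)).re - (E k).re)) * (a * b) := by
    rw [f2, f3]; ring
  have w2 : C₂ ^ 2 * Complex.normSq x.2 - S₂ ^ 2 * Complex.normSq x.1 =
      -(a' * ((C₁ * S₂ - C₂ * S₁) * (C₂ * (a' * S₁ + b' * S₂) + S₂ * (a' * C₁ + b' * C₂)))) := by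
    rw [g2, g3]; ring
  have w3 : 0 < C₂ * (a' * S₁ + b' * S₂) + S₂ * (a' * C₁ + b' * C₂) := by
    rcases eq_or_lt_of_le ha' with h0 | h0
    · rcases eq_or_lt_of_le hb' with h3 | h3
      · rw [g2, g3, ← h0, ← h3] at hs; norm_num at hs
      · positivity
    · positivity
  have w4 : 0 < (C₁ * S₂ - C₂ * S₁) * (C₂ * (a' * S₁ + b' * S₂) + S₂ * (a' * C₁ + b' * C₂)) :=
    mul_pos (by linarith) w3
  have t1 : 0 ≤ (C₂ ^ 2 * S₂ ^ 2 * 2 * ((E (1 : ZMod n)).re - (E k).re)) * (a * b) :=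
    mul_nonneg w0.le (mul_nonneg ha hb)
  have t2 : 0 ≤ a' * ((C₁ * S₂ - C₂ * S₁) * (C₂ * (a' * S₁ + b' * S₂) + S₂ * (a' * C₁ + b' * C₂))) :=
    mul_nonneg ha' w4.le
  have hab : a * b = 0 := by
    have : (C₂ ^ 2 * S₂ ^ 2 * 2 * ((E (1 : ZMod n)).re - (E k).re)) * (a * b) = 0 := by linarith
    rcases mul_eq_zero.mp this with h | h
    · exact absurd h w0.ne'
    · exact h
  have ha0 : a' = 0 := by
    have : a' * ((C₁ * S₂ - C₂ * S₁) * (C₂ * (a' * S₁ + b' * S₂) + S₂ * (a' * C₁ + b' * C₂))) = 0 := by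
      linarith
    rcases mul_eq_zero.mp this with h | h
    · exact h
    · exact absurd h w4.ne'
  rcases mul_eq_zero.mp hab with h | h
  · exact Or.inr (Or.inr (Or.inr ⟨h, ha0⟩))
  · exact Or.inl ⟨h, ha0⟩

/-- first ends of the edges -/
def src (t : Fin 3) (j : ZMod n) : Bool × ZMod n := (decide (t = 1), j)

/-- second ends of the edges -/
def tgt (k : ZMod n) (t : Fin 3) (j : ZMod n) : Bool × ZMod n :=
  if t = 0 then (false, j + 1) else if t = 1 then (true, j + k) else (true, j)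

include hn hkk hC₁ hS₁ hC₂ hS₂ h₁ h₂ hone in
theorem all_meet (hdc : (E k').re < (E (1 : ZMod n)).re) (hec : (E k).re < (E (1 : ZMod n)).re)
    (t t' : Fin 3) (j l : ZMod n) (h : ¬(t = t' ∧ j = l)) :
    Meet (pos k' C₁ S₁ C₂ S₂) (src t j) (tgt k t j) (src t' l) (tgt k t' l) := by
  have oi := meet_oi k k' hkk C₁ S₁ C₂ S₂ hC₁ hS₁ hC₂ hS₂ h₁ h₂ hone hdc hec
  have or' := meet_or k' C₁ S₁ C₂ S₂ hC₁ hS₁ hC₂ hS₂ h₁ h₂ hone hdc
  have ir := meet_ir k k' hkk C₁ S₁ C₂ S₂ hC₁ hS₁ hC₂ hS₂ h₁ h₂ hone hec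
  fin_cases t <;> fin_cases t' <;> simp only [src, tgt] <;> simp at h ⊢
  · exact meet_oo hn k' C₁ S₁ C₂ S₂ hC₁ hC₂ h₁ h₂ hone j l h
  · exact oi j l
  · exact or' j l
  · exact (oi l j).swap
  · exact meet_ii hn k k' hkk C₁ S₁ C₂ S₂ hC₁ hC₂ hS₂ h₁ h₂ hone j l h
  · exact ir j l
  · exact (or' l j).swap
  · exact (ir l j).swap
  · exact meet_rr k' C₁ S₁ C₂ S₂ hC₁ hC₂ h₁ h₂ hone j l h

end

theorem canon (hn : 3 ≤ n) (k : ℕ) (hk : (k : ZMod n) ≠ 0) (u v : Bool × ZMod n)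
    (h : (gp n k).Adj u v) : ∃ (t : Fin 3) (j : ZMod n),
      (u = src t j ∧ v = tgt (k : ZMod n) t j) ∨ (v = src t j ∧ u = tgt (k : ZMod n) t j) := by
  obtain ⟨b, j⟩ := u
  cases b
  · rw [adj_false hn] at h
    rcases h with rfl | rfl | rfl
    · exact ⟨0, j, Or.inl ⟨by simp [src], by simp [tgt]⟩⟩
    · exact ⟨0, j + -1, Or.inr ⟨by simp [src], by simp [tgt]⟩⟩
    · exact ⟨2, j, Or.inl ⟨by simp [src], by simp [tgt]⟩⟩
  · rw [adj_true k hk] at h
    rcases h with rfl | rfl | rfl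
    · exact ⟨1, j, Or.inl ⟨by simp [src], by simp [tgt]⟩⟩
    · exact ⟨1, j + -(k : ZMod n), Or.inr ⟨by simp [src], by simp [tgt]⟩⟩
    · exact ⟨2, j, Or.inr ⟨by simp [src], by simp [tgt]⟩⟩

theorem gp_net [NeZero n] (hn : 3 ≤ n) (k k' : ℕ) (hkk : (k : ZMod n) * (k' : ZMod n) = 1)
    (C₁ S₁ C₂ S₂ : ℝ) (hC₁ : 0 < C₁) (hS₁ : 0 < S₁) (hC₂ : 0 < C₂) (hS₂ : 0 < S₂)
    (h₁ : C₁ ^ 2 + S₁ ^ 2 = 1) (h₂ : C₂ ^ 2 + S₂ ^ 2 = 1) (hone : 1 < C₁ ^ 2 + S₂ ^ 2)
    (hdc : (E (k' : ZMod n)).re < (E (1 : ZMod n)).re) (hec : (E (k : ZMod n)).re < (E (1 : ZMod n)).re)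
    (r₁ : 4 * C₁ ^ 2 * S₁ ^ 2 * ((E (1 : ZMod n)).re - (E (k' : ZMod n)).re) ^ 2 +
      (C₁ ^ 2 * (E (1 : ZMod n)).re + S₁ ^ 2 * (E (k' : ZMod n)).re) ^ 2 = 1)
    (r₂ : 4 * C₂ ^ 2 * S₂ ^ 2 * ((E (k : ZMod n)).re - (E (1 : ZMod n)).re) ^ 2 +
      (C₂ ^ 2 * (E (k : ZMod n)).re + S₂ ^ 2 * (E (1 : ZMod n)).re) ^ 2 = 1) :
    IsNet (gp n k) (pos (k' : ZMod n) C₁ S₁ C₂ S₂) := by
  have h10 : (1 : ZMod n) ≠ 0 := by
    have : Fact (1 < n) := ⟨by omega⟩
    exact one_ne_zero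
  have h20 : (2 : ZMod n) ≠ 0 := by
    intro h
    have h2 : ((2 : ℕ) : ZMod n) = 0 := by exact_mod_cast h
    rw [ZMod.natCast_eq_zero_iff] at h2
    have := Nat.le_of_dvd (by norm_num) h2
    omega
  have hk : (k : ZMod n) ≠ 0 := by
    intro h; rw [h, zero_mul] at hkk; exact h10 hkk.symm
  have h2k : (2 : ZMod n) * k ≠ 0 := by
    intro h
    apply h20
    have : (2 : ZMod n) * k * k' = 0 := by rw [h, zero_mul]
    rw [mul_assoc, hkk, mul_one] at this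
    exact this
  have hcr := cross C₁ S₁ C₂ S₂ hC₁ hS₁ hC₂ hS₂ h₁ h₂ hone
  have bal : ∀ u, ∃ v1 v2 v3, v1 ≠ v2 ∧ v1 ≠ v3 ∧ v2 ≠ v3 ∧
      (∀ v, (gp n k).Adj u v ↔ v = v1 ∨ v = v2 ∨ v = v3) ∧
      tang (pos (k' : ZMod n) C₁ S₁ C₂ S₂ u) (pos (k' : ZMod n) C₁ S₁ C₂ S₂ v1) +
      tang (pos (k' : ZMod n) C₁ S₁ C₂ S₂ u) (pos (k' : ZMod n) C₁ S₁ C₂ S₂ v2) +
      tang (pos (k' : ZMod n) C₁ S₁ C₂ S₂ u) (pos (k' : ZMod n) C₁ S₁ C₂ S₂ v3) = 0 := by
    rintro ⟨b, j⟩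
    cases b
    · refine ⟨(false, j + 1), (false, j + -1), (true, j), ?_, by simp, by simp, adj_false hn k j, ?_⟩
      · intro h
        simp only [Prod.mk.injEq, true_and] at h
        apply h20; linear_combination h
      · simp only [pos]
        have e1 : (k' : ZMod n) * (j + 1) = k' * j + k' := by ring
        have e2 : (k' : ZMod n) * (j + -1) = k' * j + -k' := by ring
        rw [e1, e2, E_add j 1, E_add j (-1), E_add ((k' : ZMod n) * j) (k' : ZMod n),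
          E_add ((k' : ZMod n) * j) (-(k' : ZMod n)), E_neg, E_neg,
          pair_sum_pos C₁ S₁ _ _ (E j) (E ((k' : ZMod n) * j)) (E 1) (E (k' : ZMod n)) (E_norm _)
            (E_norm _) rfl rfl h₁ (mul_pos (mul_pos hC₁ hS₁) (by linarith)) r₁,
          rung_pos C₁ S₁ C₂ S₂ (E j) (E ((k' : ZMod n) * j)) (E_norm _) (E_norm _) h₁ h₂ (by linarith),
          pt_add]
        simp [pt]
    · refine ⟨(true, j + (k : ZMod n)), (true, j + -(k : ZMod n)), (false, j), ?_, by simp, by simp,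
        adj_true k hk j, ?_⟩
      · intro h
        simp only [Prod.mk.injEq, true_and] at h
        apply h2k; linear_combination h
      · simp only [pos]
        have e1 : (k' : ZMod n) * (j + k) = k' * j + 1 := by linear_combination hkk
        have e2 : (k' : ZMod n) * (j + -k) = k' * j + -1 := by linear_combination -hkk
        rw [e1, e2, E_add j (k : ZMod n), E_add j (-(k : ZMod n)), E_add ((k' : ZMod n) * j) 1,
          E_add ((k' : ZMod n) * j) (-1), E_neg, E_neg,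
          pair_sum_neg C₂ S₂ _ _ (E j) (E ((k' : ZMod n) * j)) (E (k : ZMod n)) (E 1) (E_norm _)
            (E_norm _) rfl rfl h₂ (mul_pos (mul_pos hC₂ hS₂) (by linarith)) r₂,
          rung_neg C₂ S₂ C₁ S₁ (E j) (E ((k' : ZMod n) * j)) (E_norm _) (E_norm _) h₂ h₁ (by linarith),
          pt_add]
        simp [pt]
  have hunit := pos_unit (k' : ZMod n) C₁ S₁ C₂ S₂ h₁ h₂
  have hinj := pos_inj (k' : ZMod n) C₁ S₁ C₂ S₂ hC₁ hC₂ h₁ h₂ hone
  refine ⟨hunit, hinj, ?_, ?_, ?_, conn k hn, ?_⟩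
  · -- not antipodal
    have hm : (E (1 : ZMod n)).re ≠ -1 := by
      have h3 : -1 ≤ (E (k : ZMod n)).re := by
        have := unit_sq (E_norm (k : ZMod n))
        nlinarith [sq_nonneg (E (k : ZMod n)).im, sq_nonneg ((E (k : ZMod n)).re - 1)]
      intro h; linarith
    have key : ∀ (t : Fin 3) (j : ZMod n), pos (k' : ZMod n) C₁ S₁ C₂ S₂ (src t j) ≠
        -pos (k' : ZMod n) C₁ S₁ C₂ S₂ (tgt (k : ZMod n) t j) := by
      intro t j h
      fin_cases t
      · simp only [src, tgt, Fin.zero_eta, Fin.isValue, zero_ne_one, decide_false, ↓reduceIte, pos, pt,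
          Prod.neg_mk, Prod.mk.injEq] at h
        have h2 := h.1
        rw [E_add] at h2
        have h3 : (C₁ : ℂ) * E j * (1 + E (1 : ZMod n)) = 0 := by linear_combination h2
        have h4 : (C₁ : ℂ) * E j ≠ 0 := mul_ne_zero (by exact_mod_cast hC₁.ne') (E_ne j)
        have h5 := (mul_eq_zero.mp h3).resolve_left h4
        have h6 := congrArg Complex.re h5
        simp at h6
        apply hm; linarith
      · simp only [src, tgt, Fin.mk_one, Fin.isValue, decide_true, one_ne_zero, ↓reduceIte, pos, pt,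
          Prod.neg_mk, Prod.mk.injEq] at h
        have h2 := h.2
        have e1 : (k' : ZMod n) * (j + k) = k' * j + 1 := by linear_combination hkk
        rw [e1, E_add] at h2
        have h3 : (S₂ : ℂ) * E ((k' : ZMod n) * j) * (1 + E (1 : ZMod n)) = 0 := by
          linear_combination h2
        have h4 : (S₂ : ℂ) * E ((k' : ZMod n) * j) ≠ 0 :=
          mul_ne_zero (by exact_mod_cast hS₂.ne') (E_ne _)
        have h5 := (mul_eq_zero.mp h3).resolve_left h4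
        have h6 := congrArg Complex.re h5
        simp at h6
        apply hm; linarith
      · simp [src, tgt, pos, pt] at h
        have h2 := h.1
        have h3 : ((C₁ + C₂ : ℝ) : ℂ) * E j = 0 := by push_cast; linear_combination h2
        have h4 : ((C₁ + C₂ : ℝ) : ℂ) ≠ 0 := by exact_mod_cast (by positivity : C₁ + C₂ ≠ 0)
        exact E_ne j ((mul_eq_zero.mp h3).resolve_left h4)
    intro u v h
    obtain ⟨t, j, ⟨rfl, rfl⟩ | ⟨rfl, rfl⟩⟩ := canon hn k hk u v h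
    · exact key t j
    · intro h2
      exact key t j (by rw [h2, neg_neg])
  · intro u
    obtain ⟨v1, v2, v3, h12, h13, h23, hadj, hsum⟩ := bal u
    rw [(three_sum (gp n k) u v1 v2 v3 h12 h13 h23 hadj _).1]
    exact hsum
  · intro u v u' v' h h' hne x hx
    have hm := all_meet hn (k : ZMod n) k' hkk C₁ S₁ C₂ S₂ hC₁ hS₁ hC₂ hS₂ h₁ h₂ hone hdc hec
    obtain ⟨t, j, ⟨rfl, rfl⟩ | ⟨rfl, rfl⟩⟩ := canon hn k hk u v h <;>
    obtain ⟨t', l, ⟨rfl, rfl⟩ | ⟨rfl, rfl⟩⟩ := canon hn k hk u' v' h'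
    · exact hm t t' j l (by rintro ⟨rfl, rfl⟩; exact hne rfl) x hx
    · exact (hm t t' j l (by rintro ⟨rfl, rfl⟩; exact hne Sym2.eq_swap)).right x hx
    · exact (hm t t' j l (by rintro ⟨rfl, rfl⟩; exact hne Sym2.eq_swap)).left x hx
    · exact (hm t t' j l (by rintro ⟨rfl, rfl⟩; exact hne rfl)).left.right x hx
  · intro u
    obtain ⟨v1, v2, v3, h12, h13, h23, hadj, hsum⟩ := bal u
    exact (three_sum (gp n k) u v1 v2 v3 h12 h13 h23 hadj (fun _ => 0)).2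

end

theorem E_one_re (n : ℕ) [NeZero n] : (E (1 : ZMod n)).re = Real.cos (2 * Real.pi / n) := by
  have := E_re (N := n) 1
  rw [Nat.cast_one] at this
  rw [this]; congr 1; push_cast; ring

theorem general (n : ℕ) [NeZero n] (k k' : ℕ) (hn : 3 ≤ n) (hkk : k * k' ≡ 1 [MOD n])
    (g : Good n k) (g' : Good n k') : Carries (gp n k) := by
  obtain ⟨hec, Y, hY1, hY2, hY⟩ := g
  obtain ⟨hdc, X, hX1, hX2, hX⟩ := g'
  have hk : (k : ZMod n) * (k' : ZMod n) = 1 := by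
    have := (ZMod.natCast_eq_natCast_iff (k * k') 1 n).mpr hkk
    push_cast at this
    exact this
  have sX : √X ^ 2 = X := Real.sq_sqrt (by linarith)
  have sX' : √(1 - X) ^ 2 = 1 - X := Real.sq_sqrt (by linarith)
  have sY : √Y ^ 2 = Y := Real.sq_sqrt (by linarith)
  have sY' : √(1 - Y) ^ 2 = 1 - Y := Real.sq_sqrt (by linarith)
  refine ⟨_, gp_net hn k k' hk (√X) (√(1 - X)) (√(1 - Y)) (√Y) (Real.sqrt_pos.mpr (by linarith))
    (Real.sqrt_pos.mpr (by linarith)) (Real.sqrt_pos.mpr (by linarith))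
    (Real.sqrt_pos.mpr (by linarith)) ?_ ?_ ?_ ?_ ?_ ?_ ?_⟩
  · rw [sX, sX']; ring
  · rw [sY, sY']; ring
  · rw [sX, sY]; linarith
  · rw [E_re, E_one_re]; exact hdc
  · rw [E_re, E_one_re]; exact hec
  · rw [E_re, E_one_re, sX, sX']; exact hX
  · rw [E_re, E_one_re, sY, sY']; linear_combination hY

theorem good_of (n k : ℕ) (h0 : Real.cos (2 * Real.pi / n) ^ 2 < 1)
    (h : Real.cos (2 * Real.pi * k / n) < Real.cos (2 * Real.pi / n))
    (h' : 4 < 5 * Real.cos (2 * Real.pi / n) ^ 2 -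
      6 * Real.cos (2 * Real.pi / n) * Real.cos (2 * Real.pi * k / n) +
      5 * Real.cos (2 * Real.pi * k / n) ^ 2) : Good n k :=
  ⟨h, root_exists _ _ h0 h'⟩

theorem cos_two_fifth : Real.cos (2 * Real.pi / 5) = (√5 - 1) / 4 := by
  have h : 2 * Real.pi / 5 = 2 * (Real.pi / 5) := by ring
  rw [h, Real.cos_two_mul, Real.cos_pi_div_five]
  have : √5 ^ 2 = 5 := Real.sq_sqrt (by norm_num)
  linear_combination (1 / 8 : ℝ) * this

theorem sqrt5 : 2 < √5 ∧ √5 < 3 := by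
  constructor
  · rw [Real.lt_sqrt (by norm_num)]; norm_num
  · rw [Real.sqrt_lt' (by norm_num)]; norm_num

theorem good_5 (k : ℕ) (hk : Real.cos (2 * Real.pi * k / 5) = -(1 + √5) / 4) : Good 5 k := by
  have hs : √5 ^ 2 = 5 := Real.sq_sqrt (by norm_num)
  obtain ⟨h1, h2⟩ := sqrt5
  have c5 : Real.cos (2 * Real.pi / (5 : ℕ)) = (√5 - 1) / 4 := by
    rw [← cos_two_fifth]; norm_num
  have d5 : Real.cos (2 * Real.pi * k / (5 : ℕ)) = -(1 + √5) / 4 := by
    rw [← hk]; norm_num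
  apply good_of
  · rw [c5]; nlinarith
  · rw [c5, d5]; linarith
  · rw [c5, d5]; nlinarith

theorem good_10 (k : ℕ) (hk : Real.cos (2 * Real.pi * k / 10) = -((√5 - 1) / 4)) : Good 10 k := by
  have hs : √5 ^ 2 = 5 := Real.sq_sqrt (by norm_num)
  obtain ⟨h1, h2⟩ := sqrt5
  have c5 : Real.cos (2 * Real.pi / (10 : ℕ)) = (1 + √5) / 4 := by
    rw [← Real.cos_pi_div_five]; congr 1; push_cast; ring
  have d5 : Real.cos (2 * Real.pi * k / (10 : ℕ)) = -((√5 - 1) / 4) := by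
    rw [← hk]; norm_num
  apply good_of
  · rw [c5]; nlinarith
  · rw [c5, d5]; linarith
  · rw [c5, d5]; nlinarith

theorem petersen : Carries (gp 5 2) := by
  apply general 5 2 3 (by norm_num) (by decide)
  · apply good_5
    have h : 2 * Real.pi * (2 : ℕ) / 5 = Real.pi - Real.pi / 5 := by push_cast; ring
    rw [h, Real.cos_pi_sub, Real.cos_pi_div_five]; ring
  · apply good_5
    have h : 2 * Real.pi * (3 : ℕ) / 5 = Real.pi / 5 + Real.pi := by push_cast; ring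
    rw [h, Real.cos_add_pi, Real.cos_pi_div_five]; ring

theorem desargues : Carries (gp 10 3) := by
  apply general 10 3 7 (by norm_num) (by decide)
  · apply good_10
    have h : 2 * Real.pi * (3 : ℕ) / 10 = Real.pi - 2 * Real.pi / 5 := by push_cast; ring
    rw [h, Real.cos_pi_sub, cos_two_fifth]
  · apply good_10
    have h : 2 * Real.pi * (7 : ℕ) / 10 = 2 * Real.pi / 5 + Real.pi := by push_cast; ring
    rw [h, Real.cos_add_pi, cos_two_fifth]

theorem good_24 : Good 24 5 := by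
  have hs2 : √2 ^ 2 = 2 := Real.sq_sqrt (by norm_num)
  have hs3 : √3 ^ 2 = 3 := Real.sq_sqrt (by norm_num)
  have p2 : 0 < √2 := Real.sqrt_pos.mpr (by norm_num)
  have p3 : 1 < √3 ∧ √3 < 2 := by
    constructor
    · rw [Real.lt_sqrt (by norm_num)]; norm_num
    · rw [Real.sqrt_lt' (by norm_num)]; norm_num
  have c : Real.cos (2 * Real.pi / (24 : ℕ)) = √2 * (1 + √3) / 4 := by
    have h : 2 * Real.pi / (24 : ℕ) = Real.pi / 3 - Real.pi / 4 := by push_cast; ring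
    rw [h, Real.cos_sub, Real.cos_pi_div_three, Real.cos_pi_div_four, Real.sin_pi_div_three,
      Real.sin_pi_div_four]
    ring
  have d : Real.cos (2 * Real.pi * (5 : ℕ) / (24 : ℕ)) = √2 * (√3 - 1) / 4 := by
    have h : 2 * Real.pi * (5 : ℕ) / (24 : ℕ) = Real.pi / 6 + Real.pi / 4 := by push_cast; ring
    rw [h, Real.cos_add, Real.cos_pi_div_six, Real.cos_pi_div_four, Real.sin_pi_div_six,
      Real.sin_pi_div_four]
    ring
  refine ⟨?_, (3 + √3) / 6, by linarith [p3.1], by linarith [p3.2], ?_⟩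
  · rw [c, d]; nlinarith
  · rw [c, d]
    ring_nf
    rw [hs2, hs3]
    norm_num

theorem family (m : ℕ) [NeZero (4 * m)] (hm : 2 ≤ m) : Carries (gp (4 * m) (2 * m - 1)) := by
  have hm0 : (0 : ℝ) < m := by exact_mod_cast (by omega : 0 < m)
  have hm2 : (2 : ℝ) ≤ m := by exact_mod_cast hm
  have hpi := Real.pi_pos
  have hmod : (2 * m - 1) * (2 * m - 1) ≡ 1 [MOD 4 * m] := by
    obtain ⟨r, rfl⟩ : ∃ r, m = r + 1 := ⟨m - 1, by omega⟩
    have e : 2 * (r + 1) - 1 = 2 * r + 1 := by omega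
    rw [e]
    apply Nat.ModEq.symm
    rw [Nat.modEq_iff_dvd' (by nlinarith)]
    refine ⟨r, ?_⟩
    have : (2 * r + 1) * (2 * r + 1) = 4 * (r + 1) * r + 1 := by ring
    omega
  have cm : Real.cos (2 * Real.pi / ((4 * m : ℕ) : ℝ)) ^ 2 < 1 ∧
      1 / 2 < Real.cos (2 * Real.pi / ((4 * m : ℕ) : ℝ)) := by
    have e : 2 * Real.pi / ((4 * m : ℕ) : ℝ) = Real.pi / (2 * m) := by
      push_cast; field_simp; ring
    rw [e]
    have h1 : 0 < Real.pi / (2 * m) := by positivity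
    have h2 : Real.pi / (2 * m) < Real.pi / 3 := by
      apply div_lt_div_of_pos_left hpi (by norm_num); linarith
    have h3 : 1 / 2 < Real.cos (Real.pi / (2 * m)) := by
      rw [← Real.cos_pi_div_three]
      exact Real.cos_lt_cos_of_nonneg_of_le_pi h1.le (by linarith) h2
    have h4 : Real.cos (Real.pi / (2 * m)) < 1 := by
      rw [← Real.cos_zero]
      exact Real.cos_lt_cos_of_nonneg_of_le_pi le_rfl (by linarith) h1
    exact ⟨by nlinarith, h3⟩
  have dm : Real.cos (2 * Real.pi * ((2 * m - 1 : ℕ) : ℝ) / ((4 * m : ℕ) : ℝ)) =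
      -Real.cos (2 * Real.pi / ((4 * m : ℕ) : ℝ)) := by
    rw [← Real.cos_pi_sub]
    congr 1
    rw [Nat.cast_sub (by omega)]
    push_cast
    field_simp
    ring
  have g : Good (4 * m) (2 * m - 1) := by
    apply good_of
    · exact cm.1
    · rw [dm]; linarith [cm.2]
    · rw [dm]; nlinarith [cm.2]
  exact general (4 * m) (2 * m - 1) (2 * m - 1) (by omega) hmod g g

/-- The round 3-sphere carries a closed geodesic net modelled on `GP(n, k)` if `k k' ≡ 1` modulo `n` and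
`Good n k`, `Good n k'`; for example on `GP(4 m, 2 m - 1)`, `m ≥ 2`, on the Petersen graph `GP(5, 2)`, on the
Desargues graph `GP(10, 3)` and on `GP(24, 5)`. -/
theorem result :
    (∀ (n : ℕ) [NeZero n] (k k' : ℕ), 3 ≤ n → k * k' ≡ 1 [MOD n] → Good n k → Good n k' →
      Carries (gp n k)) ∧
    (∀ (m : ℕ) [NeZero (4 * m)], 2 ≤ m → Carries (gp (4 * m) (2 * m - 1))) ∧
    Carries (gp 5 2) ∧ Carries (gp 10 3) ∧ Carries (gp 24 5) :=
  ⟨fun n _ k k' => general n k k', fun m _ => family m, petersen, desargues,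
    general 24 5 5 (by norm_num) (by decide) good_24 good_24⟩

end Pool.Agent.Results.MP_a226eb_gt.GeneralizedPetersen
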