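import Mathlib
import Pool.Agent.H357.Nets

set_option autoImplicit false

namespace Pool.Agent.Results.MP_a226eb_gt.MoebiusLadders

open Pool.Agent.H357.Nets ComplexConjugate

/-- The Moebius ladder with `n` rungs: vertices `j ∈ ℤ/2n`, edges `j (j + 1)` and `j (j + n)`. -/
def moebius (n : ℕ) : SimpleGraph (ZMod (2 * n)) :=
  SimpleGraph.fromRel fun i j => j = i + 1 ∨ j = i + (n : ZMod (2 * n))

theorem two_n (n : ℕ) : (n : ZMod (2 * n)) + n = 0 := by
  have : ((2 * n : ℕ) : ZMod (2 * n)) = 0 := ZMod.natCast_self _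
  push_cast at this
  linear_combination this

theorem cast_ne {n a b : ℕ} (ha : a < 2 * n) (hb : b < 2 * n) (h : a ≠ b) :
    (a : ZMod (2 * n)) ≠ b := by
  intro h2
  rw [ZMod.natCast_eq_natCast_iff, Nat.ModEq, Nat.mod_eq_of_lt ha, Nat.mod_eq_of_lt hb] at h2
  exact h h2

theorem adj_iff {n : ℕ} (hn : 2 ≤ n) (j v : ZMod (2 * n)) :
    (moebius n).Adj j v ↔ v = j + 1 ∨ v = j + -1 ∨ v = j + (n : ZMod (2 * n)) := by
  have h1 : (1 : ZMod (2 * n)) ≠ 0 := by
    have := cast_ne (n := n) (a := 1) (b := 0) (by omega) (by omega) (by omega)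
    simpa using this
  have h2 : (n : ZMod (2 * n)) ≠ 0 := by
    have := cast_ne (n := n) (a := n) (b := 0) (by omega) (by omega) (by omega)
    simpa using this
  have h3 := two_n n
  simp only [moebius, SimpleGraph.fromRel_adj, ne_eq]
  constructor
  · rintro ⟨-, (h | h) | (h | h)⟩
    · exact Or.inl h
    · exact Or.inr (Or.inr h)
    · right; left; rw [h]; ring
    · right; right; rw [h]; linear_combination -h3
  · rintro (h | h | h)
    · exact ⟨by rw [h]; intro e; apply h1; linear_combination -e, Or.inl (Or.inl h)⟩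
    · exact ⟨by rw [h]; intro e; apply h1; linear_combination e, Or.inr (Or.inl (by rw [h]; ring))⟩
    · exact ⟨by rw [h]; intro e; apply h2; linear_combination -e, Or.inl (Or.inr h)⟩

theorem reach {n : ℕ} (hn : 2 ≤ n) (m : ℕ) : (moebius n).Reachable 0 (m : ZMod (2 * n)) := by
  induction m with
  | zero => simp
  | succ m ih =>
    refine ih.trans (SimpleGraph.Adj.reachable ?_)
    rw [adj_iff hn]
    left
    push_cast
    rfl

theorem conn {n : ℕ} [NeZero (2 * n)] (hn : 2 ≤ n) : (moebius n).Connected := by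
  have h0 : ∀ v, (moebius n).Reachable 0 v := by
    intro j
    have := reach hn j.val
    rwa [ZMod.natCast_zmod_val] at this
  refine { preconnected := fun u v => (h0 u).symm.trans (h0 v), nonempty := ⟨0⟩ }

/-- the positions of the vertices -/
noncomputable def pos {N : ℕ} [NeZero N] (y : ZMod N) (C S : ℝ) (j : ZMod N) : ℂ × ℂ :=
  pt C S (E j) (E (y * j))

section

variable {n : ℕ} [NeZero (2 * n)]

theorem E_half (hn : 1 ≤ n) : E (n : ZMod (2 * n)) = -1 := by
  rw [E_natCast]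
  have hn0 : (n : ℝ) ≠ 0 := by exact_mod_cast (by omega : n ≠ 0)
  have : (2 * Real.pi * n / ((2 * n : ℕ) : ℝ)) = Real.pi := by
    push_cast; field_simp
  rw [this, Complex.exp_pi_mul_I]

theorem pos_half (hn : 1 ≤ n) (b : ℕ) (C S : ℝ) (j : ZMod (2 * n)) :
    pos (((2 * b : ℕ) : ZMod (2 * n))) C S (j + (n : ZMod (2 * n))) =
      pt (-C) S (E j) (E ((((2 * b : ℕ) : ZMod (2 * n))) * j)) := by
  have h3 := two_n n
  have e : (((2 * b : ℕ) : ZMod (2 * n))) * (j + (n : ZMod (2 * n))) = (((2 * b : ℕ) : ZMod (2 * n))) * j := by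
    push_cast; linear_combination (b : ZMod (2 * n)) * h3
  unfold pos
  rw [e, E_add, E_half hn]
  simp [pt]

variable (C S : ℝ) (hC : 0 < C) (hS : 0 < S) (hCS : C ^ 2 + S ^ 2 = 1)

include hCS in
theorem pos_unit {N : ℕ} [NeZero N] (y : ZMod N) (j : ZMod N) : ip (pos y C S j) (pos y C S j) = 1 := by
  unfold pos
  rw [ip_pt' _ _ _ _ _ _ (E_norm _) (E_norm _)]; linarith

include hC in
theorem pos_inj {N : ℕ} [NeZero N] (y : ZMod N) : Function.Injective (pos y C S) := by
  intro i j h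
  simp only [pos, pt, Prod.mk.injEq] at h
  have hC0 : (C : ℂ) ≠ 0 := by exact_mod_cast hC.ne'
  exact E_inj (mul_left_cancel₀ hC0 h.1)

theorem comb_fst (a b C S C' S' : ℝ) (u v u' v' : ℂ) :
    (a • pt C S u v + b • pt C' S' u' v').1 = (a * C : ℝ) * u + (b * C' : ℝ) * u' := by
  simp only [pt, Prod.fst_add, Prod.smul_fst, Complex.real_smul]
  push_cast; ring

theorem comb_snd (a b C S C' S' : ℝ) (u v u' v' : ℂ) :
    (a • pt C S u v + b • pt C' S' u' v').2 = (a * S : ℝ) * v + (b * S' : ℝ) * v' := by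
  simp only [pt, Prod.snd_add, Prod.smul_snd, Complex.real_smul]
  push_cast; ring

theorem cyc_norm {N : ℕ} [NeZero N] (y j : ZMod N) (a b : ℝ) (x : ℂ × ℂ)
    (h : x = a • pos y C S j + b • pos y C S (j + 1)) :
    Complex.normSq x.1 = C ^ 2 * (a ^ 2 + b ^ 2 + 2 * a * b * (E (1 : ZMod N)).re) ∧
      Complex.normSq x.2 = S ^ 2 * (a ^ 2 + b ^ 2 + 2 * a * b * (E y).re) := by
  simp only [pos] at h
  have e : y * (j + 1) = y * j + y := by ring
  constructor
  · have h1 : x.1 = (C : ℂ) * ((a : ℂ) * E j + b * E (j + 1)) := by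
      rw [h, comb_fst]; push_cast; ring
    rw [h1, map_mul, Complex.normSq_ofReal, normSq_comb]; ring
  · have h1 : x.2 = (S : ℂ) * ((a : ℂ) * E (y * j) + b * E (y * j + y)) := by
      rw [h, comb_snd, e]; push_cast; ring
    rw [h1, map_mul, Complex.normSq_ofReal, normSq_comb]; ring

theorem normSq_unit {N : ℕ} [NeZero N] (r : ℝ) (j : ZMod N) : Complex.normSq ((r : ℂ) * E j) = r ^ 2 := by
  rw [map_mul, Complex.normSq_ofReal, Complex.normSq_eq_norm_sq (E j), E_norm]; ring

theorem rung_norm (hn : 1 ≤ n) (k : ℕ) (j : ZMod (2 * n)) (a b : ℝ) (x : ℂ × ℂ)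
    (h : x = a • pos (((2 * k : ℕ) : ZMod (2 * n))) C S j +
      b • pos (((2 * k : ℕ) : ZMod (2 * n))) C S (j + (n : ZMod (2 * n)))) :
    x.2 = ((S * (a + b) : ℝ) : ℂ) * E ((((2 * k : ℕ) : ZMod (2 * n))) * j) ∧
    Complex.normSq x.1 = (C * (a - b)) ^ 2 ∧ Complex.normSq x.2 = (S * (a + b)) ^ 2 := by
  rw [pos_half hn] at h
  unfold pos at h
  have h1 : x.1 = ((C * (a - b) : ℝ) : ℂ) * E j := by
    rw [h, comb_fst]; push_cast; ring
  have h2 : x.2 = ((S * (a + b) : ℝ) : ℂ) * E ((((2 * k : ℕ) : ZMod (2 * n))) * j) := by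
    rw [h, comb_snd]; push_cast; ring
  refine ⟨h2, ?_, ?_⟩
  · rw [h1, normSq_unit]
  · rw [h2, normSq_unit]

include hC hCS in
theorem meet_cc {N : ℕ} [NeZero N] (hN : 3 ≤ N) (y j l : ZMod N) (hjl : j ≠ l) :
    Meet (pos y C S) j (j + 1) l (l + 1) := by
  apply meet_of (pos_unit C S hCS y) (pos_inj C S hC y)
  intro x a b a' b' hx ha hb ha' hb' e e'
  simp only [pos] at e e'
  have f1 := congrArg Prod.fst e
  have f2 := congrArg Prod.fst e'
  rw [comb_fst] at f1 f2
  rcases two_edges hN C hC.ne' j l hjl a b a' b' ha hb ha' hb' (by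
    push_cast at f1 f2; linear_combination f2 - f1) with h | h
  · exact Or.inl h
  · exact Or.inr (Or.inl h)

include hC hS hCS in
theorem meet_cr (hn : 2 ≤ n) (k : ℕ) (hdc : (E ((2 * k : ℕ) : ZMod (2 * n))).re < (E (1 : ZMod (2 * n))).re)
    (j l : ZMod (2 * n)) :
    Meet (pos (((2 * k : ℕ) : ZMod (2 * n))) C S) j (j + 1) l (l + (n : ZMod (2 * n))) := by
  apply meet_of (pos_unit C S hCS _) (pos_inj C S hC _)
  intro x a b a' b' hx ha hb ha' hb' e e'
  obtain ⟨f2, f3⟩ := cyc_norm C S _ j a b x e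
  obtain ⟨g1, g2, g3⟩ := rung_norm C S (by omega) k l a' b' x e'
  have w0 : 0 < C ^ 2 * S ^ 2 * 2 * ((E (1 : ZMod (2 * n))).re - (E ((2 * k : ℕ) : ZMod (2 * n))).re) := by
    have : 0 < (E (1 : ZMod (2 * n))).re - (E ((2 * k : ℕ) : ZMod (2 * n))).re := by linarith
    positivity
  have w1 : S ^ 2 * Complex.normSq x.1 - C ^ 2 * Complex.normSq x.2 =
      (C ^ 2 * S ^ 2 * 2 * ((E (1 : ZMod (2 * n))).re - (E ((2 * k : ℕ) : ZMod (2 * n))).re)) * (a * b) := by
    rw [f2, f3]; ring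
  have w2 : S ^ 2 * Complex.normSq x.1 - C ^ 2 * Complex.normSq x.2 =
      -((4 * C ^ 2 * S ^ 2) * (a' * b')) := by
    rw [g2, g3]; ring
  have w3 : 0 < 4 * C ^ 2 * S ^ 2 := by positivity
  have t1 : 0 ≤ (C ^ 2 * S ^ 2 * 2 * ((E (1 : ZMod (2 * n))).re - (E ((2 * k : ℕ) : ZMod (2 * n))).re)) *
      (a * b) := mul_nonneg w0.le (mul_nonneg ha hb)
  have t2 : 0 ≤ (4 * C ^ 2 * S ^ 2) * (a' * b') := mul_nonneg w3.le (mul_nonneg ha' hb')
  have hab : a * b = 0 := by
    have : (C ^ 2 * S ^ 2 * 2 * ((E (1 : ZMod (2 * n))).re - (E ((2 * k : ℕ) : ZMod (2 * n))).re)) *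
      (a * b) = 0 := by linarith
    exact (mul_eq_zero.mp this).resolve_left w0.ne'
  have hab' : a' * b' = 0 := by
    have : (4 * C ^ 2 * S ^ 2) * (a' * b') = 0 := by linarith
    exact (mul_eq_zero.mp this).resolve_left w3.ne'
  rcases mul_eq_zero.mp hab with h | h <;> rcases mul_eq_zero.mp hab' with h' | h'
  · exact Or.inr (Or.inr (Or.inr ⟨h, h'⟩))
  · exact Or.inr (Or.inl ⟨h, h'⟩)
  · exact Or.inl ⟨h, h'⟩
  · exact Or.inr (Or.inr (Or.inl ⟨h, h'⟩))

theorem char_eq (k : ℕ) (hk : Nat.Coprime n k) (j l : ZMod (2 * n))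
    (h : ((2 * k : ℕ) : ZMod (2 * n)) * j = ((2 * k : ℕ) : ZMod (2 * n)) * l) :
    j = l ∨ j = l + (n : ZMod (2 * n)) := by
  obtain ⟨t, ht⟩ : ∃ t, t = (j - l).val := ⟨_, rfl⟩
  have hjl : j - l = (t : ZMod (2 * n)) := by rw [ht, ZMod.natCast_zmod_val]
  have htn : t < 2 * n := by rw [ht]; exact ZMod.val_lt _
  have h1 : ((2 * k * t : ℕ) : ZMod (2 * n)) = 0 := by
    have : ((2 * k : ℕ) : ZMod (2 * n)) * (j - l) = 0 := by linear_combination h
    rw [hjl] at this
    exact_mod_cast this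
  rw [ZMod.natCast_eq_zero_iff] at h1
  have h2 : n ∣ k * t := by
    have : 2 * n ∣ 2 * (k * t) := by rw [← mul_assoc]; exact h1
    exact Nat.dvd_of_mul_dvd_mul_left (by norm_num) this
  have h3 : n ∣ t := hk.dvd_of_dvd_mul_left h2
  obtain ⟨q, hq⟩ := h3
  have hq2 : q < 2 := by
    by_contra hc
    push Not at hc
    have : n * 2 ≤ n * q := Nat.mul_le_mul_left n hc
    omega
  interval_cases q
  · left
    rw [mul_zero] at hq
    rw [hq, Nat.cast_zero] at hjl
    exact sub_eq_zero.mp hjl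
  · right
    rw [mul_one] at hq
    rw [hq] at hjl
    linear_combination hjl

include hC hS hCS in
theorem meet_rr (hn : 2 ≤ n) (k : ℕ) (hk : Nat.Coprime n k) (j l : ZMod (2 * n)) (hjl : j ≠ l)
    (hjl' : j ≠ l + (n : ZMod (2 * n))) :
    Meet (pos (((2 * k : ℕ) : ZMod (2 * n))) C S) j (j + (n : ZMod (2 * n))) l
      (l + (n : ZMod (2 * n))) := by
  apply meet_of (pos_unit C S hCS _) (pos_inj C S hC _)
  intro x a b a' b' hx ha hb ha' hb' e e'
  exfalso
  obtain ⟨f1, f2, f3⟩ := rung_norm C S (by omega) k j a b x e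
  obtain ⟨g1, g2, g3⟩ := rung_norm C S (by omega) k l a' b' x e'
  have hs : Complex.normSq x.1 + Complex.normSq x.2 = 1 := by rw [← ip_self_eq]; exact hx
  have hpos : 0 < S * (a + b) := by
    rcases eq_or_lt_of_le ha with h0 | h0
    · rcases eq_or_lt_of_le hb with h3 | h3
      · rw [f2, f3, ← h0, ← h3] at hs; norm_num at hs
      · positivity
    · positivity
  have hpos' : 0 ≤ S * (a' + b') := by positivity
  have heq : S * (a + b) = S * (a' + b') := by
    have : (S * (a + b)) ^ 2 = (S * (a' + b')) ^ 2 := by rw [← f3, ← g3]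
    exact (pow_left_inj₀ hpos.le hpos' two_ne_zero).mp this
  rw [f1, ← heq] at g1
  have h0 : ((S * (a + b) : ℝ) : ℂ) ≠ 0 := by exact_mod_cast hpos.ne'
  rcases char_eq k hk j l (E_inj (mul_left_cancel₀ h0 g1)) with h | h
  · exact hjl h
  · exact hjl' h

end

theorem net (n k : ℕ) [NeZero (2 * n)] (hn : 3 ≤ n) (hk : Nat.Coprime n k)
    (C S : ℝ) (hC : 0 < C) (hS : 0 < S) (hCS : C ^ 2 + S ^ 2 = 1)
    (hdc : (E ((2 * k : ℕ) : ZMod (2 * n))).re < (E (1 : ZMod (2 * n))).re)
    (r : 4 * C ^ 2 * S ^ 2 * ((E (1 : ZMod (2 * n))).re - (E ((2 * k : ℕ) : ZMod (2 * n))).re) ^ 2 +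
      (C ^ 2 * (E (1 : ZMod (2 * n))).re + S ^ 2 * (E ((2 * k : ℕ) : ZMod (2 * n))).re) ^ 2 = 1) :
    IsNet (moebius n) (pos ((2 * k : ℕ) : ZMod (2 * n)) C S) := by
  have h20 : (2 : ZMod (2 * n)) ≠ 0 := by
    have := cast_ne (n := n) (a := 2) (b := 0) (by omega) (by omega) (by omega)
    simpa using this
  have h1n : (1 : ZMod (2 * n)) ≠ (n : ZMod (2 * n)) := by
    have := cast_ne (n := n) (a := 1) (b := n) (by omega) (by omega) (by omega)
    simpa using this
  have hm1n : (-1 : ZMod (2 * n)) ≠ (n : ZMod (2 * n)) := by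
    intro h
    apply h1n
    have h3 := two_n n
    linear_combination -h - h3
  have hn2 : 2 ≤ n := by omega
  have bal : ∀ u, ∃ v1 v2 v3, v1 ≠ v2 ∧ v1 ≠ v3 ∧ v2 ≠ v3 ∧
      (∀ v, (moebius n).Adj u v ↔ v = v1 ∨ v = v2 ∨ v = v3) ∧
      tang (pos ((2 * k : ℕ) : ZMod (2 * n)) C S u) (pos ((2 * k : ℕ) : ZMod (2 * n)) C S v1) +
      tang (pos ((2 * k : ℕ) : ZMod (2 * n)) C S u) (pos ((2 * k : ℕ) : ZMod (2 * n)) C S v2) +
      tang (pos ((2 * k : ℕ) : ZMod (2 * n)) C S u) (pos ((2 * k : ℕ) : ZMod (2 * n)) C S v3) = 0 := by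
    intro j
    refine ⟨j + 1, j + -1, j + (n : ZMod (2 * n)), ?_, ?_, ?_, adj_iff hn2 j, ?_⟩
    · intro h; apply h20; linear_combination h
    · intro h; apply h1n; linear_combination h
    · intro h; apply hm1n; linear_combination h
    · rw [pos_half (by omega)]
      unfold pos
      have e1 : ((2 * k : ℕ) : ZMod (2 * n)) * (j + 1) =
        ((2 * k : ℕ) : ZMod (2 * n)) * j + ((2 * k : ℕ) : ZMod (2 * n)) := by ring
      have e2 : ((2 * k : ℕ) : ZMod (2 * n)) * (j + -1) =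
        ((2 * k : ℕ) : ZMod (2 * n)) * j + -((2 * k : ℕ) : ZMod (2 * n)) := by ring
      rw [e1, e2, E_add j 1, E_add j (-1), E_add (((2 * k : ℕ) : ZMod (2 * n)) * j) ((2 * k : ℕ) : ZMod (2 * n)),
        E_add (((2 * k : ℕ) : ZMod (2 * n)) * j) (-((2 * k : ℕ) : ZMod (2 * n))), E_neg, E_neg,
        pair_sum_pos C S _ _ (E j) (E (((2 * k : ℕ) : ZMod (2 * n)) * j)) (E 1)
          (E ((2 * k : ℕ) : ZMod (2 * n))) (E_norm _) (E_norm _) rfl rfl hCS
          (mul_pos (mul_pos hC hS) (by linarith)) r,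
        rung_pos C S (-C) S (E j) (E (((2 * k : ℕ) : ZMod (2 * n)) * j)) (E_norm _) (E_norm _) hCS
          (by linarith [neg_sq C]) (by nlinarith [mul_pos hC hS]), pt_add]
      simp [pt]
  refine ⟨pos_unit C S hCS _, pos_inj C S hC _, ?_, ?_, ?_, conn hn2, ?_⟩
  · -- not antipodal
    have hm : (E (1 : ZMod (2 * n))).re ≠ -1 := by
      have h3 : -1 ≤ (E ((2 * k : ℕ) : ZMod (2 * n))).re := by
        have := unit_sq (E_norm ((2 * k : ℕ) : ZMod (2 * n)))
        nlinarith [sq_nonneg (E ((2 * k : ℕ) : ZMod (2 * n))).im,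
          sq_nonneg ((E ((2 * k : ℕ) : ZMod (2 * n))).re - 1)]
      intro h; linarith
    have key1 : ∀ j : ZMod (2 * n), pos ((2 * k : ℕ) : ZMod (2 * n)) C S j ≠
        -pos ((2 * k : ℕ) : ZMod (2 * n)) C S (j + 1) := by
      intro j h
      simp only [pos, pt, Prod.neg_mk, Prod.mk.injEq] at h
      have h2 := h.1
      rw [E_add] at h2
      have h3 : (C : ℂ) * E j * (1 + E (1 : ZMod (2 * n))) = 0 := by linear_combination h2
      have h4 : (C : ℂ) * E j ≠ 0 := mul_ne_zero (by exact_mod_cast hC.ne') (E_ne j)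
      have h5 := (mul_eq_zero.mp h3).resolve_left h4
      have h6 := congrArg Complex.re h5
      simp only [Complex.add_re, Complex.one_re, Complex.zero_re] at h6
      apply hm; linarith
    have key2 : ∀ j : ZMod (2 * n), pos ((2 * k : ℕ) : ZMod (2 * n)) C S j ≠
        -pos ((2 * k : ℕ) : ZMod (2 * n)) C S (j + (n : ZMod (2 * n))) := by
      intro j h
      rw [pos_half (by omega)] at h
      simp only [pos, pt, Prod.neg_mk, Prod.mk.injEq] at h
      have h2 := h.2
      have h3 : (2 * (S : ℂ)) * E (((2 * k : ℕ) : ZMod (2 * n)) * j) = 0 := by linear_combination h2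
      have h4 : (2 * (S : ℂ)) ≠ 0 := mul_ne_zero two_ne_zero (by exact_mod_cast hS.ne')
      exact E_ne _ ((mul_eq_zero.mp h3).resolve_left h4)
    intro u v h
    rw [adj_iff hn2] at h
    rcases h with rfl | rfl | rfl
    · exact key1 u
    · intro h
      apply key1 (u + -1)
      rw [neg_add_cancel_right, h, neg_neg]
    · exact key2 u
  · intro u
    obtain ⟨v1, v2, v3, h12, h13, h23, hadj, hsum⟩ := bal u
    rw [(three_sum (moebius n) u v1 v2 v3 h12 h13 h23 hadj _).1]
    exact hsum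
  · intro u v u' v' h h' hne x hx
    have cc := meet_cc C S hC hCS (N := 2 * n) (by omega) ((2 * k : ℕ) : ZMod (2 * n))
    have cr := meet_cr C S hC hS hCS hn2 k hdc
    have rr := meet_rr C S hC hS hCS hn2 k hk
    have h3 := two_n n
    -- canonical edges
    have canon : ∀ u v : ZMod (2 * n), (moebius n).Adj u v → ∃ j,
        (u = j ∧ v = j + 1) ∨ (v = j ∧ u = j + 1) ∨ (u = j ∧ v = j + (n : ZMod (2 * n))) := by
      intro u v h
      rw [adj_iff hn2] at h
      rcases h with h | h | h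
      · exact ⟨u, Or.inl ⟨rfl, h⟩⟩
      · exact ⟨v, Or.inr (Or.inl ⟨rfl, by rw [h]; ring⟩)⟩
      · exact ⟨u, Or.inr (Or.inr ⟨rfl, h⟩)⟩
    obtain ⟨j, ⟨rfl, rfl⟩ | ⟨rfl, rfl⟩ | ⟨rfl, rfl⟩⟩ := canon u v h <;>
    obtain ⟨l, ⟨rfl, rfl⟩ | ⟨rfl, rfl⟩ | ⟨rfl, rfl⟩⟩ := canon u' v' h'
    · exact cc _ _ (by rintro rfl; exact hne rfl) x hx
    · exact (cc _ _ (by rintro rfl; exact hne Sym2.eq_swap)).right x hx
    · exact cr _ _ x hx
    · exact (cc _ _ (by rintro rfl; exact hne Sym2.eq_swap)).left x hx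
    · exact (cc _ _ (by rintro rfl; exact hne rfl)).left.right x hx
    · exact (cr _ _).left x hx
    · exact (cr _ _).swap x hx
    · exact (cr _ _).left.swap x hx
    · refine rr _ _ (by rintro rfl; exact hne rfl) ?_ x hx
      intro h5
      apply hne
      rw [h5, show u' + (n : ZMod (2 * n)) + (n : ZMod (2 * n)) = u' by linear_combination h3]
      exact Sym2.eq_swap
  · intro u
    obtain ⟨v1, v2, v3, h12, h13, h23, hadj, hsum⟩ := bal u
    exact (three_sum (moebius n) u v1 v2 v3 h12 h13 h23 hadj (fun _ => 0)).2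

/-- the root condition, weak form -/
theorem root_weak (c d : ℝ) (hc : c ^ 2 < 1) (h : 4 ≤ 5 * c ^ 2 - 6 * c * d + 5 * d ^ 2) :
    ∃ X : ℝ, 0 < X ∧ X < 1 ∧ 4 * X * (1 - X) * (c - d) ^ 2 + (X * c + (1 - X) * d) ^ 2 = 1 := by
  rcases eq_or_lt_of_le h with h | h
  · exact ⟨1 / 2, by norm_num, by norm_num, by linarith⟩
  · obtain ⟨X, h1, h2, h3⟩ := root_exists c d hc h
    exact ⟨X, by linarith, h2, h3⟩

theorem carries_of (n k : ℕ) [NeZero (2 * n)] (hn : 3 ≤ n) (hk : Nat.Coprime n k)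
    (hdc : Real.cos (2 * Real.pi * k / n) < Real.cos (Real.pi / n))
    (h : 4 ≤ 5 * Real.cos (Real.pi / n) ^ 2 - 6 * Real.cos (Real.pi / n) * Real.cos (2 * Real.pi * k / n) +
      5 * Real.cos (2 * Real.pi * k / n) ^ 2) : Carries (moebius n) := by
  have hn0 : (0 : ℝ) < n := by exact_mod_cast (by omega : 0 < n)
  have hn3 : (3 : ℝ) ≤ n := by exact_mod_cast hn
  have hpi := Real.pi_pos
  have e1 : (E (1 : ZMod (2 * n))).re = Real.cos (Real.pi / n) := by
    have := E_re (N := 2 * n) 1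
    rw [Nat.cast_one] at this
    rw [this]; congr 1; push_cast; field_simp
  have e2 : (E ((2 * k : ℕ) : ZMod (2 * n))).re = Real.cos (2 * Real.pi * k / n) := by
    rw [E_re]; congr 1; push_cast; field_simp
  have hpos : 0 < Real.pi / n := by positivity
  have hle : Real.pi / n ≤ Real.pi / 3 := by
    apply div_le_div_of_nonneg_left hpi.le (by norm_num) hn3
  have hc1 : Real.cos (Real.pi / n) < 1 := by
    rw [← Real.cos_zero]
    exact Real.cos_lt_cos_of_nonneg_of_le_pi le_rfl (by linarith) hpos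
  have hc0 : 1 / 2 ≤ Real.cos (Real.pi / n) := by
    rw [← Real.cos_pi_div_three]
    exact Real.cos_le_cos_of_nonneg_of_le_pi hpos.le (by linarith) hle
  obtain ⟨X, hX1, hX2, hX⟩ := root_weak _ _ (by nlinarith) h
  have sX : √X ^ 2 = X := Real.sq_sqrt (by linarith)
  have sX' : √(1 - X) ^ 2 = 1 - X := Real.sq_sqrt (by linarith)
  refine ⟨_, net n k hn hk (√X) (√(1 - X)) (Real.sqrt_pos.mpr (by linarith))
    (Real.sqrt_pos.mpr (by linarith)) ?_ ?_ ?_⟩
  · rw [sX, sX']; ring
  · rw [e1, e2]; exact hdc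
  · rw [e1, e2, sX, sX']; exact hX

/-- The round 3-sphere carries a closed geodesic net modelled on the Moebius ladder with `n` rungs for all
`n ≥ 3` except possibly `n = 4` and `n = 6`. -/
theorem result (n : ℕ) [NeZero (2 * n)] (hn : 3 ≤ n) (h4 : n ≠ 4) (h6 : n ≠ 6) :
    Carries (moebius n) := by
  have hn0 : (0 : ℝ) < n := by exact_mod_cast (by omega : 0 < n)
  have hn3 : (3 : ℝ) ≤ n := by exact_mod_cast hn
  have hpi := Real.pi_pos
  have hpos : 0 < Real.pi / n := by positivity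
  have hc0 : 1 / 2 ≤ Real.cos (Real.pi / n) := by
    rw [← Real.cos_pi_div_three]
    exact Real.cos_le_cos_of_nonneg_of_le_pi hpos.le (by linarith)
      (div_le_div_of_nonneg_left hpi.le (by norm_num) hn3)
  rcases Nat.even_or_odd' n with ⟨r, hr | hr⟩
  · have h8 : 8 ≤ n := by omega
    have h8r : (8 : ℝ) ≤ n := by exact_mod_cast h8
    have hc : 4 / 5 ≤ Real.cos (Real.pi / n) ^ 2 := by
      have e : Real.cos (2 * (Real.pi / n)) = 2 * Real.cos (Real.pi / n) ^ 2 - 1 := Real.cos_two_mul _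
      have h1 : Real.cos (Real.pi / 4) ≤ Real.cos (2 * (Real.pi / n)) := by
        apply Real.cos_le_cos_of_nonneg_of_le_pi (by positivity) (by linarith)
        rw [← mul_div_assoc, div_le_div_iff₀ hn0 (by norm_num)]
        nlinarith
      rw [Real.cos_pi_div_four] at h1
      have h2 : (6 : ℝ) / 5 < √2 := by rw [Real.lt_sqrt (by norm_num)]; norm_num
      linarith
    have fin : ∀ k : ℕ, Nat.Coprime n k → Real.cos (2 * Real.pi * k / n) ≤ 0 → Carries (moebius n) := by
      intro k hk hd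
      apply carries_of n k hn hk
      · linarith
      · nlinarith [mul_nonneg (by linarith : (0 : ℝ) ≤ Real.cos (Real.pi / n))
          (by linarith : (0 : ℝ) ≤ -Real.cos (2 * Real.pi * k / n)), sq_nonneg (Real.cos (2 * Real.pi * k / n))]
    rcases Nat.even_or_odd' r with ⟨m, hm | hm⟩
    · -- n = 4 m
      have hm2 : 2 ≤ m := by omega
      apply fin (2 * m - 1)
      · have e : n = 2 * (2 * m - 1) + 2 := by omega
        rw [e, Nat.coprime_mul_right_add_left]
        exact Nat.coprime_two_left.mpr ⟨m - 1, by omega⟩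
      · have e : 2 * Real.pi * ((2 * m - 1 : ℕ) : ℝ) / n = Real.pi - 2 * Real.pi / n := by
          have hnm : (n : ℝ) = 4 * m := by rw [hr, hm]; push_cast; ring
          rw [Nat.cast_sub (by omega), hnm]
          have : (m : ℝ) ≠ 0 := by exact_mod_cast (by omega : m ≠ 0)
          push_cast; field_simp; ring
        rw [e, Real.cos_pi_sub, neg_nonpos]
        apply Real.cos_nonneg_of_mem_Icc
        constructor
        · have : 0 < 2 * Real.pi / n := by positivity
          linarith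
        · rw [div_le_div_iff₀ hn0 (by norm_num)]; nlinarith
    · -- n = 4 m + 2
      have hm2 : 2 ≤ m := by omega
      have h10 : 10 ≤ n := by omega
      have h10r : (10 : ℝ) ≤ n := by exact_mod_cast h10
      apply fin (2 * m - 1)
      · have e : n = 2 * (2 * m - 1) + 4 := by omega
        rw [e, Nat.coprime_mul_right_add_left]
        have : Nat.Coprime (2 ^ 2) (2 * m - 1) := by
          apply Nat.Coprime.pow_left
          exact Nat.coprime_two_left.mpr ⟨m - 1, by omega⟩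
        exact this
      · have e : 2 * Real.pi * ((2 * m - 1 : ℕ) : ℝ) / n = Real.pi - 4 * Real.pi / n := by
          have hnm : (n : ℝ) = 4 * m + 2 := by rw [hr, hm]; push_cast; ring
          rw [Nat.cast_sub (by omega), hnm]
          have : (4 * (m : ℝ) + 2) ≠ 0 := by positivity
          push_cast; field_simp; ring
        rw [e, Real.cos_pi_sub, neg_nonpos]
        apply Real.cos_nonneg_of_mem_Icc
        constructor
        · have : 0 < 4 * Real.pi / n := by positivity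
          linarith
        · rw [div_le_div_iff₀ hn0 (by norm_num)]; nlinarith
  · -- n odd
    have e : 2 * Real.pi * (r : ℝ) / n = Real.pi - Real.pi / n := by
      have hnm : (n : ℝ) = 2 * r + 1 := by rw [hr]; push_cast; ring
      rw [hnm]
      have : (2 * (r : ℝ) + 1) ≠ 0 := by positivity
      field_simp; ring
    apply carries_of n r hn
    · rw [hr, Nat.coprime_mul_right_add_left]
      exact Nat.coprime_one_left r
    · rw [e, Real.cos_pi_sub]; linarith
    · rw [e, Real.cos_pi_sub]; nlinarith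

end Pool.Agent.Results.MP_a226eb_gt.MoebiusLadders
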