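import Mathlib
import Pool.Agent.H357.Nets

set_option autoImplicit false

namespace Pool.Agent.Results.MP_a226eb_gt.Necklaces

open Finset ComplexConjugate Pool.Agent.H357.Nets

/-- The point at distance `τ` from `p` on the great circle through the unit vector `p` with unit tangent
vector `d` at `p`. -/
noncomputable def along (p d : ℂ × ℂ) (τ : ℝ) : ℂ × ℂ := Real.cos τ • p + Real.sin τ • d

/-- A closed geodesic net on the unit sphere of `ℝ⁴ = ℂ × ℂ`, modelled on the multigraph with vertex set
`V`, edge set `Ed` and ends `s e`, `t e` of the edges (no bound on the lengths of the edges). -/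
structure IsGeodesicNet {V Ed : Type} [Fintype V] [Fintype Ed] [DecidableEq V] (s t : Ed → V)
    (P : V → ℂ × ℂ) (d : Ed → ℂ × ℂ) (L : Ed → ℝ) : Prop where
  /-- the vertices are on the sphere -/
  sphere : ∀ v, ip (P v) (P v) = 1
  /-- the vertices are different -/
  inj : Function.Injective P
  /-- `d e` is a unit tangent vector at the first end of the edge `e` -/
  dir : ∀ e, ip (d e) (d e) = 1 ∧ ip (P (s e)) (d e) = 0
  /-- the length `L e` of `e` is positive -/
  pos : ∀ e, 0 < L e
  /-- the geodesic ends at the second end of `e` -/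
  ends : ∀ e, along (P (s e)) (d e) (L e) = P (t e)
  /-- the sum of the unit tangent vectors (directed away from the vertex) is zero at every vertex -/
  balanced : ∀ v, ∑ e ∈ univ.filter (fun e => s e = v), d e +
    ∑ e ∈ univ.filter (fun e => t e = v), (Real.sin (L e) • P (s e) - Real.cos (L e) • d e) = 0
  /-- the edges do not meet each other or themselves, except at their ends -/
  embedded : ∀ (e e' : Ed) (τ τ' : ℝ), 0 ≤ τ → τ ≤ L e → 0 ≤ τ' → τ' ≤ L e' →
    along (P (s e)) (d e) τ = along (P (s e')) (d e') τ' →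
    (e = e' ∧ τ = τ') ∨ ((τ = 0 ∨ τ = L e) ∧ (τ' = 0 ∨ τ' = L e'))

/-- first ends of the edges of the necklace -/
def src (n : ℕ) (e : ZMod n × Fin 3) : ZMod n × Bool := (e.1, decide (e.2 = 2))

/-- second ends of the edges of the necklace -/
def tgt (n : ℕ) (e : ZMod n × Fin 3) : ZMod n × Bool :=
  if e.2 = 2 then (e.1 + 1, false) else (e.1, true)

/-- The round 3-sphere carries a closed geodesic net modelled on the necklace with `n` beads: the 3-regular
multigraph with vertices `(i, false)`, `(i, true)`, `i ∈ ℤ/n`, two edges joining `(i, false)` and `(i, true)`,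
and an edge joining `(i, true)` and `(i + 1, false)`. -/
def NecklaceOccurs (n : ℕ) [NeZero n] : Prop :=
  ∃ (P : ZMod n × Bool → ℂ × ℂ) (d : ZMod n × Fin 3 → ℂ × ℂ) (L : ZMod n × Fin 3 → ℝ),
    IsGeodesicNet (src n) (tgt n) P d L

/-! ### bilinearity -/

theorem ip_comm (x y : ℂ × ℂ) : ip x y = ip y x := by
  simp only [ip, Complex.mul_re, Complex.conj_re, Complex.conj_im]; ring

theorem ip_add_left (x y z : ℂ × ℂ) : ip (x + y) z = ip x z + ip y z := by
  simp only [ip, Prod.fst_add, Prod.snd_add, Complex.mul_re, Complex.add_re, Complex.add_im,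
    Complex.conj_re, Complex.conj_im]; ring

theorem ip_smul_left (a : ℝ) (x z : ℂ × ℂ) : ip (a • x) z = a * ip x z := by
  simp only [ip, Prod.smul_fst, Prod.smul_snd, Complex.real_smul, Complex.mul_re, Complex.mul_im,
    Complex.ofReal_re, Complex.ofReal_im, Complex.conj_re, Complex.conj_im]; ring

theorem ip_add_right (x y z : ℂ × ℂ) : ip z (x + y) = ip z x + ip z y := by
  rw [ip_comm, ip_add_left, ip_comm x, ip_comm y]

theorem ip_smul_right (a : ℝ) (x z : ℂ × ℂ) : ip z (a • x) = a * ip z x := by
  rw [ip_comm, ip_smul_left, ip_comm x]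

/-! ### sums over the stars of the necklace -/

section sums

variable {n : ℕ} [NeZero n] {M : Type} [AddCommMonoid M] (f : ZMod n × Fin 3 → M)

theorem sum_src_false (i : ZMod n) :
    ∑ e ∈ univ.filter (fun e => src n e = (i, false)), f e = f (i, 0) + f (i, 1) := by
  have : univ.filter (fun e => src n e = (i, false)) = {(i, 0), (i, 1)} := by
    ext ⟨j, k⟩
    rw [Finset.mem_filter]
    fin_cases k <;> simp [src]
  rw [this, Finset.sum_pair (by simp)]

theorem sum_src_true (i : ZMod n) :
    ∑ e ∈ univ.filter (fun e => src n e = (i, true)), f e = f (i, 2) := by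
  have : univ.filter (fun e => src n e = (i, true)) = {(i, 2)} := by
    ext ⟨j, k⟩
    rw [Finset.mem_filter]
    fin_cases k <;> simp [src]
  rw [this, Finset.sum_singleton]

theorem sum_tgt_false (i : ZMod n) :
    ∑ e ∈ univ.filter (fun e => tgt n e = (i, false)), f e = f (i - 1, 2) := by
  have : univ.filter (fun e => tgt n e = (i, false)) = {(i - 1, 2)} := by
    ext ⟨j, k⟩
    rw [Finset.mem_filter]
    fin_cases k <;> simp [tgt, eq_sub_iff_add_eq]
  rw [this, Finset.sum_singleton]

theorem sum_tgt_true (i : ZMod n) :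
    ∑ e ∈ univ.filter (fun e => tgt n e = (i, true)), f e = f (i, 0) + f (i, 1) := by
  have : univ.filter (fun e => tgt n e = (i, true)) = {(i, 0), (i, 1)} := by
    ext ⟨j, k⟩
    rw [Finset.mem_filter]
    fin_cases k <;> simp [tgt]
  rw [this, Finset.sum_pair (by simp)]

end sums

theorem src0 {n : ℕ} (i : ZMod n) : src n (i, 0) = (i, false) := rfl
theorem src1 {n : ℕ} (i : ZMod n) : src n (i, 1) = (i, false) := rfl
theorem src2 {n : ℕ} (i : ZMod n) : src n (i, 2) = (i, true) := rfl
theorem tgt0 {n : ℕ} (i : ZMod n) : tgt n (i, 0) = (i, true) := rfl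
theorem tgt1 {n : ℕ} (i : ZMod n) : tgt n (i, 1) = (i, true) := rfl
theorem tgt2 {n : ℕ} (i : ZMod n) : tgt n (i, 2) = (i + 1, false) := rfl

/-! ### nonexistence for even `n` -/

section nonexistence

variable {n : ℕ} [NeZero n] {P : ZMod n × Bool → ℂ × ℂ} {d : ZMod n × Fin 3 → ℂ × ℂ}
  {L : ZMod n × Fin 3 → ℝ}

theorem bead (h : IsGeodesicNet (src n) (tgt n) P d L) (i : ZMod n) :
    P (i, true) = -P (i, false) ∧
      d (i, 2) = -(Real.cos (L (i - 1, 2)) • d (i - 1, 2) - Real.sin (L (i - 1, 2)) • P (i - 1, true)) := by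
  have b1 := h.balanced (i, false)
  rw [sum_src_false, sum_tgt_false] at b1
  have b2 := h.balanced (i, true)
  rw [sum_src_true, sum_tgt_true] at b2
  have e0 := h.ends (i, 0)
  have e1 := h.ends (i, 1)
  obtain ⟨u0, o0⟩ := h.dir (i, 0)
  obtain ⟨u1, o1⟩ := h.dir (i, 1)
  obtain ⟨u2, o2⟩ := h.dir (i - 1, 2)
  have hP := h.sphere (i - 1, true)
  simp only [src0, src1, src2, tgt0, tgt1] at b1 b2 e0 e1 o0 o1 o2
  have q : d (i, 0) + d (i, 1) =
      Real.cos (L (i - 1, 2)) • d (i - 1, 2) - Real.sin (L (i - 1, 2)) • P (i - 1, true) := by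
    have := eq_neg_of_add_eq_zero_left b1
    rw [this]; abel
  have hq : ip (d (i, 0) + d (i, 1)) (d (i, 0) + d (i, 1)) = 1 := by
    rw [q, sub_eq_add_neg, ← neg_smul]
    simp only [ip_add_left, ip_add_right, ip_smul_left, ip_smul_right]
    rw [ip_comm (d (i - 1, 2)) (P (i - 1, true)), o2, u2, hP]
    have := Real.sin_sq_add_cos_sq (L (i - 1, 2))
    linear_combination this
  have h01 : ip (d (i, 0)) (d (i, 1)) = -1 / 2 := by
    simp only [ip_add_left, ip_add_right] at hq
    rw [ip_comm (d (i, 1)) (d (i, 0)), u0, u1] at hq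
    linarith
  have ev : along (P (i, false)) (d (i, 0)) (L (i, 0)) = along (P (i, false)) (d (i, 1)) (L (i, 1)) := by
    rw [e0, e1]
  have s0 : Real.sin (L (i, 0)) = Real.sin (L (i, 1)) * (-1 / 2) := by
    have := congrArg (fun x => ip x (d (i, 0))) ev
    simp only [along, ip_add_left, ip_smul_left] at this
    rw [o0, u0, ip_comm (d (i, 1)) (d (i, 0)), h01] at this
    linarith
  have s1 : Real.sin (L (i, 1)) = Real.sin (L (i, 0)) * (-1 / 2) := by
    have := congrArg (fun x => ip x (d (i, 1))) ev
    simp only [along, ip_add_left, ip_smul_left] at this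
    rw [o1, u1, h01] at this
    linarith
  have z0 : Real.sin (L (i, 0)) = 0 := by linarith
  have z1 : Real.sin (L (i, 1)) = 0 := by linarith
  have hne : P (i, true) ≠ P (i, false) := by
    intro hc
    have := h.inj hc
    simp at this
  have c0 : Real.cos (L (i, 0)) = -1 := by
    have h1 := Real.sin_sq_add_cos_sq (L (i, 0))
    rw [z0] at h1
    have h2 : (Real.cos (L (i, 0)) - 1) * (Real.cos (L (i, 0)) + 1) = 0 := by linear_combination h1
    rcases mul_eq_zero.mp h2 with h3 | h3
    · exfalso
      apply hne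
      rw [← e0, along, z0, show Real.cos (L (i, 0)) = 1 by linarith, one_smul, zero_smul, add_zero]
    · linarith
  have c1 : Real.cos (L (i, 1)) = -1 := by
    have h1 := Real.sin_sq_add_cos_sq (L (i, 1))
    rw [z1] at h1
    have h2 : (Real.cos (L (i, 1)) - 1) * (Real.cos (L (i, 1)) + 1) = 0 := by linear_combination h1
    rcases mul_eq_zero.mp h2 with h3 | h3
    · exfalso
      apply hne
      rw [← e1, along, z1, show Real.cos (L (i, 1)) = 1 by linarith, one_smul, zero_smul, add_zero]
    · linarith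
  constructor
  · rw [← e0, along, z0, c0, neg_smul, one_smul, zero_smul, add_zero]
  · rw [z0, z1, c0, c1] at b2
    have : d (i, 2) + (d (i, 0) + d (i, 1)) = 0 := by
      rw [← b2]
      simp
    rw [← q]
    exact eq_neg_of_add_eq_zero_left this

/-- the next connecting edge -/
theorem next (h : IsGeodesicNet (src n) (tgt n) P d L) (i : ZMod n) :
    P (i + 1, true) = Real.cos (L (i, 2) + Real.pi) • P (i, true) +
        Real.sin (L (i, 2) + Real.pi) • d (i, 2) ∧
      d (i + 1, 2) = -Real.sin (L (i, 2) + Real.pi) • P (i, true) +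
        Real.cos (L (i, 2) + Real.pi) • d (i, 2) := by
  obtain ⟨h1, h2⟩ := bead h (i + 1)
  have e2 := h.ends (i, 2)
  simp only [src2, tgt2] at e2
  rw [add_sub_cancel_right] at h2
  rw [Real.cos_add_pi, Real.sin_add_pi]
  constructor
  · rw [h1, ← e2, along]
    module
  · rw [h2]
    module

/-- the angles of the first ends of the connecting edges -/
noncomputable def ang (L : ZMod n × Fin 3 → ℝ) (m : ℕ) : ℝ :=
  ∑ j ∈ range m, (L ((j : ZMod n), 2) + Real.pi)

omit [NeZero n] in
theorem ang_succ (L : ZMod n × Fin 3 → ℝ) (m : ℕ) :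
    ang L (m + 1) = ang L m + (L ((m : ZMod n), 2) + Real.pi) := by
  unfold ang; rw [Finset.sum_range_succ]

theorem iter (h : IsGeodesicNet (src n) (tgt n) P d L) (m : ℕ) :
    P ((m : ZMod n), true) = Real.cos (ang L m) • P (0, true) + Real.sin (ang L m) • d (0, 2) ∧
      d ((m : ZMod n), 2) = -Real.sin (ang L m) • P (0, true) + Real.cos (ang L m) • d (0, 2) := by
  induction m with
  | zero => simp [ang]
  | succ m ih =>
    obtain ⟨h1, h2⟩ := next h (m : ZMod n)
    obtain ⟨i1, i2⟩ := ih
    rw [ang_succ, Real.cos_add (ang L m), Real.sin_add (ang L m), Nat.cast_succ, h1, h2, i1, i2]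
    constructor
    · module
    · module

theorem along_eq (h : IsGeodesicNet (src n) (tgt n) P d L) (m : ℕ) (τ : ℝ) :
    along (P ((m : ZMod n), true)) (d ((m : ZMod n), 2)) τ =
      Real.cos (ang L m + τ) • P (0, true) + Real.sin (ang L m + τ) • d (0, 2) := by
  obtain ⟨i1, i2⟩ := iter h m
  rw [along, i1, i2, Real.cos_add, Real.sin_add]
  module

theorem closing (h : IsGeodesicNet (src n) (tgt n) P d L) :
    ∃ M : ℤ, ang L n = M * (2 * Real.pi) := by
  obtain ⟨i1, -⟩ := iter h n
  rw [ZMod.natCast_self] at i1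
  have o := (h.dir (0, 2)).2
  rw [src2] at o
  have h1 := congrArg (fun x => ip x (P (0, true))) i1
  simp only [ip_add_left, ip_smul_left] at h1
  rw [h.sphere, ip_comm (d (0, 2)), o] at h1
  obtain ⟨M, hM⟩ := (Real.cos_eq_one_iff (ang L n)).mp (by linarith)
  exact ⟨M, hM.symm⟩

/-- number of full turns -/
noncomputable def turns (y : ℝ) : ℤ := ⌊y / (2 * Real.pi)⌋

theorem turns_sub (y : ℝ) (M : ℤ) : turns (y - M * (2 * Real.pi)) = turns y - M := by
  unfold turns
  have : (y - M * (2 * Real.pi)) / (2 * Real.pi) = y / (2 * Real.pi) - M := by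
    field_simp
  rw [this, Int.floor_sub_intCast]

theorem turns_add (y : ℝ) : turns (y + Real.pi + Real.pi) = turns y + 1 := by
  have := turns_sub y (-1)
  rw [sub_neg_eq_add] at this
  rw [← this]
  congr 1
  push_cast
  ring

/-- how often the half-open connecting edge number `m` passes through the point with angle `x` -/
noncomputable def cnt (L : ZMod n × Fin 3 → ℝ) (m : ℕ) (x : ℝ) : ℤ :=
  turns (x - ang L m) - turns (x - ang L m - L ((m : ZMod n), 2))

omit [NeZero n] in
theorem cnt_sum (L : ZMod n × Fin 3 → ℝ) (M : ℤ) (hM : ang L n = M * (2 * Real.pi))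
    (x : ℝ) : ∑ m ∈ range n, cnt L m x + ∑ m ∈ range n, cnt L m (x + Real.pi) = 2 * M - n := by
  have key : ∀ y : ℝ, ∑ m ∈ range n, cnt L m y =
      ∑ m ∈ range n, turns (y - ang L m) - ∑ m ∈ range n, turns (y + Real.pi - ang L m) + M := by
    intro y
    unfold cnt
    rw [Finset.sum_sub_distrib]
    have e1 : ∀ m, y - ang L m - L ((m : ZMod n), 2) = y + Real.pi - ang L (m + 1) := by
      intro m; rw [ang_succ]; ring
    have e2 : ∑ m ∈ range n, turns (y - ang L m - L ((m : ZMod n), 2)) =
        ∑ m ∈ range n, turns (y + Real.pi - ang L (m + 1)) :=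
      Finset.sum_congr rfl fun m _ => by rw [e1]
    have e3 := Finset.sum_range_succ' (fun m => turns (y + Real.pi - ang L m)) n
    have e4 := Finset.sum_range_succ (fun m => turns (y + Real.pi - ang L m)) n
    have e5 : turns (y + Real.pi - ang L n) = turns (y + Real.pi) - M := by rw [hM, turns_sub]
    have e6 : ang L 0 = 0 := by simp [ang]
    rw [e6, sub_zero] at e3
    rw [e5] at e4
    rw [e2]
    linarith
  rw [key x, key (x + Real.pi)]
  have e7 : ∑ m ∈ range n, turns (x + Real.pi + Real.pi - ang L m) =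
      ∑ m ∈ range n, (turns (x - ang L m) + 1) :=
    Finset.sum_congr rfl fun m _ => by
      rw [← turns_add]; congr 1; ring
  rw [e7, Finset.sum_add_distrib]
  simp
  ring

theorem cnt_nonneg (h : IsGeodesicNet (src n) (tgt n) P d L) (m : ℕ) (x : ℝ) : 0 ≤ cnt L m x := by
  unfold cnt turns
  have := h.pos ((m : ZMod n), 2)
  have hpi := Real.pi_pos
  rw [sub_nonneg]
  apply Int.floor_le_floor
  apply div_le_div_of_nonneg_right _ (by positivity)
  linarith

/-- a positive count gives a point of the edge -/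
theorem hit (h : IsGeodesicNet (src n) (tgt n) P d L) (m : ℕ) (x : ℝ) (k : ℕ)
    (hk : (k : ℤ) + 1 ≤ cnt L m x) : ∃ τ : ℝ, 0 ≤ τ ∧ τ + k * (2 * Real.pi) < L ((m : ZMod n), 2) ∧
      along (P ((m : ZMod n), true)) (d ((m : ZMod n), 2)) τ =
        Real.cos x • P (0, true) + Real.sin x • d (0, 2) ∧
      along (P ((m : ZMod n), true)) (d ((m : ZMod n), 2)) (τ + k * (2 * Real.pi)) =
        Real.cos x • P (0, true) + Real.sin x • d (0, 2) := by
  have hpi := Real.pi_pos
  obtain ⟨q, hq⟩ : ∃ q, q = turns (x - ang L m) := ⟨_, rfl⟩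
  have h1 : (q : ℝ) * (2 * Real.pi) ≤ x - ang L m := by
    have := Int.floor_le ((x - ang L m) / (2 * Real.pi))
    rw [← turns, ← hq, le_div_iff₀ (by positivity)] at this
    exact this
  have h2 : x - ang L m - L ((m : ZMod n), 2) < ((q : ℝ) - k) * (2 * Real.pi) := by
    have h3 := Int.lt_floor_add_one ((x - ang L m - L ((m : ZMod n), 2)) / (2 * Real.pi))
    rw [← turns] at h3
    have h4 : turns (x - ang L m - L ((m : ZMod n), 2)) + 1 ≤ q - k := by
      unfold cnt at hk
      rw [← hq] at hk
      linarith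
    have h5 : ((turns (x - ang L m - L ((m : ZMod n), 2)) : ℤ) : ℝ) + 1 ≤ (q : ℝ) - k := by
      exact_mod_cast h4
    have h6 : (x - ang L m - L ((m : ZMod n), 2)) / (2 * Real.pi) < (q : ℝ) - k := lt_of_lt_of_le h3 h5
    rw [div_lt_iff₀ (by positivity)] at h6
    exact h6
  refine ⟨x - ang L m - q * (2 * Real.pi), by linarith, by nlinarith, ?_, ?_⟩
  · rw [along_eq h]
    have e : ang L m + (x - ang L m - q * (2 * Real.pi)) = x - q * (2 * Real.pi) := by ring
    rw [e, Real.cos_sub_int_mul_two_pi, Real.sin_sub_int_mul_two_pi]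
  · rw [along_eq h]
    have e : ang L m + (x - ang L m - q * (2 * Real.pi) + k * (2 * Real.pi)) =
        x - ((q - k : ℤ) : ℝ) * (2 * Real.pi) := by push_cast; ring
    rw [e, Real.cos_sub_int_mul_two_pi, Real.sin_sub_int_mul_two_pi]

theorem cnt_le_one (h : IsGeodesicNet (src n) (tgt n) P d L) (x : ℝ) :
    ∑ m ∈ range n, cnt L m x ≤ 1 := by
  have hpi := Real.pi_pos
  -- at most one edge
  have uniq : ∀ m m' : ℕ, m < n → m' < n → 1 ≤ cnt L m x → 1 ≤ cnt L m' x → m = m' := by
    intro m m' hm hm' h1 h2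
    obtain ⟨τ, a1, a2, a3, -⟩ := hit h m x 0 (by simpa using h1)
    obtain ⟨τ', b1, b2, b3, -⟩ := hit h m' x 0 (by simpa using h2)
    simp only [Nat.cast_zero, zero_mul, add_zero] at a2 b2
    have hem := h.embedded ((m : ZMod n), 2) ((m' : ZMod n), 2) τ τ' a1 a2.le b1 b2.le (by
      rw [src2, src2, a3, b3])
    have hcast : ((m : ZMod n)) = (m' : ZMod n) → m = m' := by
      intro hc
      rw [ZMod.natCast_eq_natCast_iff, Nat.ModEq, Nat.mod_eq_of_lt hm, Nat.mod_eq_of_lt hm'] at hc
      exact hc
    rcases hem with ⟨e, -⟩ | ⟨e1, e2⟩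
    · simp only [Prod.mk.injEq, and_true] at e
      exact hcast e
    · have t0 : τ = 0 := by rcases e1 with e1 | e1; exact e1; linarith
      have t0' : τ' = 0 := by rcases e2 with e2 | e2; exact e2; linarith
      rw [t0] at a3
      rw [t0'] at b3
      have : P ((m : ZMod n), true) = P ((m' : ZMod n), true) := by
        have e3 := a3.trans b3.symm
        simpa [along] using e3
      have e4 := h.inj this
      simp only [Prod.mk.injEq, and_true] at e4
      exact hcast e4
  have le1 : ∀ m : ℕ, cnt L m x ≤ 1 := by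
    intro m
    by_contra hc
    push Not at hc
    obtain ⟨τ, a1, a2, a3, a4⟩ := hit h m x 1 (by push_cast; linarith)
    simp only [Nat.cast_one, one_mul] at a2 a4
    have hem := h.embedded ((m : ZMod n), 2) ((m : ZMod n), 2) τ (τ + 2 * Real.pi) a1 (by linarith)
      (by linarith) a2.le (by rw [src2, a3, a4])
    rcases hem with ⟨-, e⟩ | ⟨-, e2⟩
    · linarith
    · rcases e2 with e2 | e2 <;> linarith
  by_cases hall : ∀ m ∈ range n, cnt L m x = 0
  · rw [Finset.sum_eq_zero hall]; norm_num
  · push Not at hall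
    obtain ⟨m, hm, hne⟩ := hall
    have hm1 : 1 ≤ cnt L m x := by
      have := cnt_nonneg h m x
      omega
    rw [Finset.sum_eq_single m]
    · exact le1 m
    · intro m' hm' hne'
      by_contra hc
      have := cnt_nonneg h m' x
      exact hne' (uniq m' m (Finset.mem_range.mp hm') (Finset.mem_range.mp hm) (by omega) hm1)
    · intro hc; exact absurd hm hc

theorem not_even (h : IsGeodesicNet (src n) (tgt n) P d L) : Odd n := by
  have hpi := Real.pi_pos
  have hn : 0 < n := Nat.pos_of_ne_zero (NeZero.ne n)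
  by_contra hodd
  rw [Nat.not_odd_iff_even] at hodd
  obtain ⟨r, hr⟩ := hodd
  obtain ⟨M, hM⟩ := closing h
  have hL0 := h.pos (((0 : ℕ) : ZMod n), 2)
  have c0 : ∀ x : ℝ, 0 ≤ ∑ m ∈ range n, cnt L m x := fun x =>
    Finset.sum_nonneg fun m _ => cnt_nonneg h m x
  have ang0 : ang L 0 = 0 := by simp [ang]
  -- the count at the start of the edge number 0 is positive
  have f0 : 1 ≤ ∑ m ∈ range n, cnt L m 0 := by
    have h1 : 1 ≤ cnt L 0 0 := by
      unfold cnt
      rw [ang0, sub_zero, zero_sub]
      have t0 : turns 0 = 0 := by simp [turns]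
      have t1 : turns (-L (((0 : ℕ) : ZMod n), 2)) ≤ -1 := by
        unfold turns
        have : -L (((0 : ℕ) : ZMod n), 2) / (2 * Real.pi) < 0 := by
          apply div_neg_of_neg_of_pos _ (by positivity)
          linarith
        have h2 : ⌊-L (((0 : ℕ) : ZMod n), 2) / (2 * Real.pi)⌋ < 0 := by
          rw [Int.floor_lt]; exact_mod_cast this
        omega
      rw [t0]; linarith
    exact h1.trans (Finset.single_le_sum (f := fun m => cnt L m 0) (fun m _ => cnt_nonneg h m 0)
      (Finset.mem_range.mpr hn))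
  have s0 := cnt_sum L M hM 0
  have u0 := cnt_le_one h 0
  have u1 := cnt_le_one h (0 + Real.pi)
  have v1 := c0 (0 + Real.pi)
  have hnr : (n : ℤ) = r + r := by exact_mod_cast hr
  have htwo : 2 * M - (n : ℤ) = 2 := by omega
  -- so the count is 1 everywhere, in particular at the end of the edge number 0
  have sx := cnt_sum L M hM (L (((0 : ℕ) : ZMod n), 2))
  have ux := cnt_le_one h (L (((0 : ℕ) : ZMod n), 2))
  have ux1 := cnt_le_one h (L (((0 : ℕ) : ZMod n), 2) + Real.pi)
  have hx1 : 1 ≤ ∑ m ∈ range n, cnt L m (L (((0 : ℕ) : ZMod n), 2)) := by linarith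
  have hex : ∃ m ∈ range n, 1 ≤ cnt L m (L (((0 : ℕ) : ZMod n), 2)) := by
    by_contra hc
    push Not at hc
    have : ∑ m ∈ range n, cnt L m (L (((0 : ℕ) : ZMod n), 2)) ≤ 0 :=
      Finset.sum_nonpos fun m hm => by have := hc m hm; omega
    linarith
  obtain ⟨m, hm, hm1⟩ := hex
  obtain ⟨τ, a1, a2, a3, -⟩ := hit h m (L (((0 : ℕ) : ZMod n), 2)) 0 (by simpa using hm1)
  have a2 : τ < L ((m : ZMod n), 2) := by simpa using a2
  have a5 := along_eq h 0 (L (((0 : ℕ) : ZMod n), 2))
  rw [ang0, zero_add] at a5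
  have hem := h.embedded ((m : ZMod n), 2) (((0 : ℕ) : ZMod n), 2) τ (L (((0 : ℕ) : ZMod n), 2)) a1 a2.le
    hL0.le le_rfl (by rw [src2, src2, a3, a5])
  rcases hem with ⟨e, e'⟩ | ⟨e1, -⟩
  · simp only [Prod.mk.injEq, and_true] at e
    rw [e] at a2
    linarith
  · have t0 : τ = 0 := by rcases e1 with e1 | e1; exact e1; linarith
    rw [t0] at a3
    have en := h.ends (((0 : ℕ) : ZMod n), 2)
    rw [src2, tgt2] at en
    have e6 : P ((m : ZMod n), true) = P (((0 : ℕ) : ZMod n) + 1, false) := by
      rw [← en, a5, ← a3]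
      simp [along]
    have e7 := h.inj e6
    simp at e7

end nonexistence

/-! ### existence for odd `n` -/

section existence

variable {n : ℕ} [NeZero n]

theorem E_pow (x : ZMod n) : E x ^ n = 1 := by
  have h := (ZMod.stdAddChar (N := n)).map_nsmul_eq_pow n x
  rw [nsmul_eq_mul, ZMod.natCast_self, zero_mul, AddChar.map_zero_eq_one] at h
  exact h.symm

/-- auxiliary unit complex numbers, pairwise not parallel -/
noncomputable def w (i : ZMod n) : ℂ := Complex.exp ((Real.pi * i.val / n : ℝ) * Complex.I)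

theorem w_norm (i : ZMod n) : ‖w i‖ = 1 := Complex.norm_exp_ofReal_mul_I _

theorem w_sq (i : ZMod n) : w i ^ 2 = E i := by
  have h := E_natCast (N := n) i.val
  rw [ZMod.natCast_zmod_val] at h
  rw [h, w, ← Complex.exp_nat_mul]
  congr 1
  push_cast
  ring

theorem w_ne (i : ZMod n) : w i ≠ 0 := Complex.exp_ne_zero _

theorem nonpar (i i' : ZMod n) (a b ε ε' : ℝ) (ha : 0 ≤ a) (hb : 0 ≤ b) (hε : ε = 1 ∨ ε = -1)
    (hε' : ε' = 1 ∨ ε' = -1) (h : ((ε * a : ℝ) : ℂ) * w i = ((ε' * b : ℝ) : ℂ) * w i') :
    (a = 0 ∧ b = 0) ∨ (i = i' ∧ ε = ε' ∧ a = b) := by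
  have e2 : ε ^ 2 = 1 := by rcases hε with rfl | rfl <;> norm_num
  have e2' : ε' ^ 2 = 1 := by rcases hε' with rfl | rfl <;> norm_num
  have h1 := congrArg norm h
  rw [norm_mul, norm_mul, w_norm, w_norm, Complex.norm_real, Complex.norm_real, mul_one, mul_one,
    Real.norm_eq_abs, Real.norm_eq_abs] at h1
  have h2 : a = b := by
    have h3 : (ε * a) ^ 2 = (ε' * b) ^ 2 := by rw [← sq_abs, h1, sq_abs]
    rw [mul_pow, mul_pow, e2, e2', one_mul, one_mul] at h3
    exact (pow_left_inj₀ ha hb two_ne_zero).mp h3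
  rcases eq_or_lt_of_le ha with h0 | h0
  · left; exact ⟨h0.symm, by rw [← h2]; exact h0.symm⟩
  · right
    subst h2
    have hsq : (a : ℂ) ^ 2 * E i = (a : ℂ) ^ 2 * E i' := by
      have h4 := congrArg (fun z => z ^ 2) h
      simp only [mul_pow, w_sq] at h4
      have e2c : ((ε * a : ℝ) : ℂ) ^ 2 = (a : ℂ) ^ 2 := by
        rw [← Complex.ofReal_pow, mul_pow, e2, one_mul, Complex.ofReal_pow]
      have e2c' : ((ε' * a : ℝ) : ℂ) ^ 2 = (a : ℂ) ^ 2 := by
        rw [← Complex.ofReal_pow, mul_pow, e2', one_mul, Complex.ofReal_pow]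
      rw [e2c, e2c'] at h4
      exact h4
    have ha0 : (a : ℂ) ^ 2 ≠ 0 := pow_ne_zero _ (by exact_mod_cast h0.ne')
    have hi : i = i' := E_inj (mul_left_cancel₀ ha0 hsq)
    subst hi
    refine ⟨rfl, ?_, rfl⟩
    have h5 := mul_right_cancel₀ (w_ne i) h
    have h6 : ε * a = ε' * a := by exact_mod_cast h5
    exact mul_right_cancel₀ h0.ne' h6

/-- the vertices -/
noncomputable def vert (h : ZMod n) (v : ZMod n × Bool) : ℂ × ℂ :=
  ((if v.2 then -1 else 1) * E (h * v.1), 0)

/-- the sign of the first two edges of a bead -/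
noncomputable def sgn (j : Fin 3) : ℝ := if j = 0 then 1 else -1

/-- the directions -/
noncomputable def drc (h : ZMod n) (e : ZMod n × Fin 3) : ℂ × ℂ :=
  if e.2 = 2 then (-(Complex.I * E (h * e.1)), 0)
  else (Complex.I * E (h * e.1) / 2, ((sgn e.2 * (√3 / 2) : ℝ) : ℂ) * w e.1)

/-- the lengths -/
noncomputable def len (n : ℕ) (e : ZMod n × Fin 3) : ℝ := if e.2 = 2 then Real.pi / n else Real.pi

theorem sgn_or (j : Fin 3) : sgn j = 1 ∨ sgn j = -1 := by
  unfold sgn; split_ifs <;> simp

theorem along_bead (h : ZMod n) (i : ZMod n) (j : Fin 3) (hj : j ≠ 2) (τ : ℝ) :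
    along (vert h (src n (i, j))) (drc h (i, j)) τ =
      (((Real.cos τ : ℂ) + Real.sin τ * Complex.I / 2) * E (h * i),
        ((sgn j * (Real.sin τ * (√3 / 2)) : ℝ) : ℂ) * w i) := by
  simp only [along, vert, drc, src, hj, decide_false, if_false, Bool.false_eq_true]
  ext1
  · simp only [Prod.fst_add, Prod.smul_fst, Complex.real_smul]; ring
  · simp only [Prod.snd_add, Prod.smul_snd, Complex.real_smul]; push_cast; ring

theorem along_conn (h : ZMod n) (i : ZMod n) (τ : ℝ) :
    along (vert h (src n (i, 2))) (drc h (i, 2)) τ =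
      (-(Complex.exp (τ * Complex.I)) * E (h * i), 0) := by
  rw [Complex.exp_mul_I, ← Complex.ofReal_cos, ← Complex.ofReal_sin]
  simp only [along, vert, drc, src2, if_true]
  ext1
  · simp only [Prod.fst_add, Prod.smul_fst, Complex.real_smul]; ring
  · simp only [Prod.snd_add, Prod.smul_snd, Complex.real_smul]; ring

theorem drc0 (h i : ZMod n) : drc h (i, 0) = (Complex.I * E (h * i) / 2, (√3 / 2 : ℝ) * w i) := by
  simp [drc, sgn]

theorem drc1 (h i : ZMod n) : drc h (i, 1) = (Complex.I * E (h * i) / 2, -((√3 / 2 : ℝ) * w i)) := by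
  simp [drc, sgn]

theorem drc2 (h i : ZMod n) : drc h (i, 2) = (-(Complex.I * E (h * i)), 0) := by
  simp [drc]

omit [NeZero n] in
theorem len0 (i : ZMod n) : len n (i, 0) = Real.pi := by simp [len]

omit [NeZero n] in
theorem len1 (i : ZMod n) : len n (i, 1) = Real.pi := by simp [len]

omit [NeZero n] in
theorem len2 (i : ZMod n) : len n (i, 2) = Real.pi / n := by simp [len]

theorem vertT (h i : ZMod n) : vert h (i, true) = (-E (h * i), 0) := by simp [vert]

theorem sin_zero {τ : ℝ} (h0 : 0 ≤ τ) (h1 : τ ≤ Real.pi) (hs : Real.sin τ = 0) :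
    τ = 0 ∨ τ = Real.pi := by
  rcases eq_or_lt_of_le h0 with h | h
  · exact Or.inl h.symm
  · rcases eq_or_lt_of_le h1 with h' | h'
    · exact Or.inr h'
    · exact absurd hs (Real.sin_pos_of_pos_of_lt_pi h h').ne'

theorem exists_net (hodd : Odd n) : NecklaceOccurs n := by
  obtain ⟨r, hr⟩ := hodd
  have hpi := Real.pi_pos
  have hn0 : (0 : ℝ) < n := by exact_mod_cast Nat.pos_of_ne_zero (NeZero.ne n)
  have hn1 : (1 : ℝ) ≤ n := by exact_mod_cast Nat.pos_of_ne_zero (NeZero.ne n)
  obtain ⟨h, hh⟩ : ∃ h : ZMod n, h = ((r + 1 : ℕ) : ZMod n) := ⟨_, rfl⟩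
  have h2 : 2 * h = 1 := by
    have : ((2 * r + 1 : ℕ) : ZMod n) = 0 := by rw [← hr]; exact ZMod.natCast_self n
    rw [hh]
    push_cast at this ⊢
    linear_combination this
  have Eh : E h = -Complex.exp ((Real.pi / n : ℝ) * Complex.I) := by
    rw [hh, E_natCast]
    have e : (2 * Real.pi * ((r + 1 : ℕ) : ℝ) / n : ℝ) = Real.pi / n + Real.pi := by
      have : (n : ℝ) = 2 * r + 1 := by rw [hr]; push_cast; ring
      field_simp
      rw [this]; push_cast; ring
    rw [e]
    push_cast
    rw [add_mul, Complex.exp_add, Complex.exp_pi_mul_I]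
    ring
  have hinj : ∀ i i' : ZMod n, h * i = h * i' → i = i' := by
    intro i i' hi
    linear_combination 2 * hi - (i - i') * h2
  have hs3 : (√3 : ℝ) ^ 2 = 3 := Real.sq_sqrt (by norm_num)
  have hs30 : 0 < √3 := Real.sqrt_pos.mpr (by norm_num)
  have j2 : ∀ j : Fin 3, j ≠ 2 → j = 0 ∨ j = 1 := by decide
  -- powers
  have pow2 : ∀ (i i' : ZMod n) (τ : ℝ) (ε : ℂ), ε ^ 2 = 1 → 0 ≤ τ → τ ≤ Real.pi / n →
      ε * E (h * i) = -(Complex.exp (τ * Complex.I)) * E (h * i') → τ = 0 ∨ τ = Real.pi / n := by
    intro i i' τ ε hε h0 h1 he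
    have h3 := congrArg (fun z => z ^ (2 * n)) he
    simp only [mul_pow] at h3
    rw [pow_mul' (E (h * i)), pow_mul' (E (h * i')), E_pow, E_pow, one_pow, mul_one, mul_one, pow_mul ε,
      hε, one_pow, Even.neg_pow (even_two_mul n), ← Complex.exp_nat_mul] at h3
    have h4 := h3.symm
    rw [Complex.exp_eq_one_iff] at h4
    obtain ⟨k, hk⟩ := h4
    have h5 : (2 * n : ℝ) * τ = k * (2 * Real.pi) := by
      have h6 : (((2 * n : ℝ) * τ : ℝ) : ℂ) * Complex.I = ((k * (2 * Real.pi) : ℝ) : ℂ) * Complex.I := by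
        push_cast
        push_cast at hk
        linear_combination hk
      have h7 := mul_right_cancel₀ Complex.I_ne_zero h6
      exact_mod_cast h7
    have h8 : τ = k * (Real.pi / n) := by
      field_simp
      linarith
    have hkp : 0 < Real.pi / n := by positivity
    have hk0 : (0 : ℝ) ≤ k := by
      by_contra hc
      push Not at hc
      nlinarith
    have hk1 : (k : ℝ) ≤ 1 := by
      by_contra hc
      push Not at hc
      nlinarith
    have hk0' : 0 ≤ k := by exact_mod_cast hk0
    have hk1' : k ≤ 1 := by exact_mod_cast hk1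
    have : k = 0 ∨ k = 1 := by omega
    rcases this with rfl | rfl
    · left; rw [h8]; simp
    · right; rw [h8]; simp
  have mixed : ∀ (i i' : ZMod n) (j : Fin 3), j ≠ 2 → ∀ τ τ' : ℝ, 0 ≤ τ → τ ≤ Real.pi → 0 ≤ τ' →
      τ' ≤ Real.pi / n →
      along (vert h (src n (i, j))) (drc h (i, j)) τ = along (vert h (src n (i', 2))) (drc h (i', 2)) τ' →
      (τ = 0 ∨ τ = Real.pi) ∧ (τ' = 0 ∨ τ' = Real.pi / n) := by
    intro i i' j hj τ τ' h0 h1 h0' h1' he
    rw [along_bead h i j hj, along_conn] at he
    simp only [Prod.mk.injEq] at he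
    obtain ⟨f1, f2⟩ := he
    have hs : Real.sin τ = 0 := by
      rcases mul_eq_zero.mp f2 with h3 | h3
      · have h4 : sgn j * (Real.sin τ * (√3 / 2)) = 0 := by exact_mod_cast h3
        rcases mul_eq_zero.mp h4 with h5 | h5
        · rcases sgn_or j with h6 | h6 <;> rw [h6] at h5 <;> norm_num at h5
        · rcases mul_eq_zero.mp h5 with h6 | h6
          · exact h6
          · exfalso; linarith
      · exact absurd h3 (w_ne i)
    refine ⟨sin_zero h0 h1 hs, ?_⟩
    apply pow2 i i' τ' (Real.cos τ) ?_ h0' h1' ?_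
    · have := Real.sin_sq_add_cos_sq τ
      rw [hs] at this
      have h3 : Real.cos τ ^ 2 = 1 := by linarith
      exact_mod_cast h3
    · rw [← f1, hs]; push_cast; ring
  refine ⟨vert h, drc h, len n, ?_⟩
  refine ⟨?_, ?_, ?_, ?_, ?_, ?_, ?_⟩
  · rintro ⟨i, b⟩
    rw [ip_self_eq]
    cases b <;> simp [vert, Complex.normSq_eq_norm_sq, E_norm]
  · rintro ⟨i, b⟩ ⟨i', b'⟩ he
    simp only [vert, Prod.mk.injEq, and_true] at he
    have hE : ∀ x y : ZMod n, E x ≠ -E y := by
      intro x y hxy
      have h3 : E x ^ n = (-E y) ^ n := by rw [hxy]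
      rw [E_pow, Odd.neg_pow ⟨r, hr⟩, E_pow] at h3
      norm_num at h3
    cases b <;> cases b' <;> simp at he
    · rw [hinj i i' (E_inj he)]
    · exact absurd he (hE _ _)
    · exact absurd he.symm (hE _ _)
    · rw [hinj i i' (E_inj he)]
  · rintro ⟨i, j⟩
    have hE := Complex.normSq_eq_norm_sq (E (h * i))
    rw [E_norm] at hE
    have hw := Complex.normSq_eq_norm_sq (w i)
    rw [w_norm] at hw
    by_cases hj : j = 2
    · subst hj
      constructor
      · rw [ip_self_eq]
        simp [drc, Complex.normSq_mul, hE]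
      · rw [src2]
        simp only [ip, vert, drc, if_true, Complex.mul_re, Complex.mul_im, Complex.conj_re, Complex.conj_im,
          Complex.neg_re, Complex.neg_im, Complex.I_re, Complex.I_im, Complex.one_re, Complex.one_im,
          Complex.zero_re, Complex.zero_im]
        ring
    · constructor
      · rw [ip_self_eq]
        simp only [drc, hj, if_false]
        rw [map_div₀, map_mul, map_mul, hE, hw, Complex.normSq_I, Complex.normSq_ofReal]
        have : Complex.normSq 2 = 4 := by
          rw [show (2 : ℂ) = ((2 : ℝ) : ℂ) by norm_num, Complex.normSq_ofReal]; norm_num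
        rw [this]
        have hsg : sgn j * sgn j = 1 := by rcases sgn_or j with h6 | h6 <;> rw [h6] <;> norm_num
        linear_combination (√3 * √3 / 4) * hsg + (1 / 4 : ℝ) * hs3
      · simp only [ip, vert, drc, src, hj, if_false, decide_false, Bool.false_eq_true]
        simp only [Complex.mul_re, Complex.mul_im, Complex.conj_re, Complex.conj_im,
          Complex.I_re, Complex.I_im, Complex.one_re, Complex.one_im,
          Complex.zero_re, Complex.zero_im, Complex.div_ofNat_re, Complex.div_ofNat_im]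
        ring
  · rintro ⟨i, j⟩
    unfold len
    split_ifs <;> positivity
  · rintro ⟨i, j⟩
    by_cases hj : j = 2
    · subst hj
      rw [along_conn, tgt2]
      simp only [len, if_true, vert, Bool.false_eq_true, if_false, one_mul]
      rw [mul_add, mul_one, E_add, Eh]
      congr 1
      ring
    · rw [along_bead h i j hj]
      have ht : tgt n (i, j) = (i, true) := by simp [tgt, hj]
      rw [ht]
      simp [len, hj, vert]
  · rintro ⟨i, b⟩
    have hexp : Complex.exp ((Real.pi / n : ℝ) * Complex.I) =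
        Real.cos (Real.pi / n) + Real.sin (Real.pi / n) * Complex.I := by
      rw [Complex.exp_mul_I, ← Complex.ofReal_cos, ← Complex.ofReal_sin]
    cases b
    · rw [sum_src_false, sum_tgt_false, src2]
      have e1 : E (h * i) = -Complex.exp ((Real.pi / n : ℝ) * Complex.I) * E (h * (i - 1)) := by
        rw [← Eh, ← E_add]; congr 1; ring
      rw [hexp] at e1
      have I2 : Complex.I ^ 2 = -1 := Complex.I_sq
      rw [drc0, drc1, drc2, vertT, len2]
      ext1
      · simp only [Prod.fst_add, Prod.fst_sub, Prod.smul_fst, Complex.real_smul, Prod.fst_zero]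
        rw [e1]
        linear_combination (-(Real.sin (Real.pi / n) : ℂ) * E (h * (i - 1))) * I2
      · simp only [Prod.snd_add, Prod.snd_sub, Prod.smul_snd, Complex.real_smul, Prod.snd_zero]
        ring
    · rw [sum_src_true, sum_tgt_true, src0, src1, drc0, drc1, drc2, len0, len1, Real.sin_pi, Real.cos_pi]
      ext1
      · simp only [Prod.fst_add, Prod.fst_sub, Prod.smul_fst, Complex.real_smul, Prod.fst_zero]
        push_cast
        ring
      · simp only [Prod.snd_add, Prod.snd_sub, Prod.smul_snd, Complex.real_smul, Prod.snd_zero]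
        push_cast
        ring
  · rintro ⟨i, j⟩ ⟨i', j'⟩ τ τ' h0 h1 h0' h1' he
    by_cases hj : j = 2
    · subst hj
      have l1 : len n (i, 2) = Real.pi / n := by simp [len]
      rw [l1] at h1 ⊢
      by_cases hj' : j' = 2
      · subst hj'
        have l1' : len n (i', 2) = Real.pi / n := by simp [len]
        rw [l1'] at h1'
        left
        rw [along_conn, along_conn] at he
        simp only [Prod.mk.injEq, and_true] at he
        have he' : Complex.exp (τ * Complex.I) * E (h * i) = Complex.exp (τ' * Complex.I) * E (h * i') := by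
          linear_combination -he
        have h3 := congrArg (fun z => z ^ n) he'
        simp only [mul_pow] at h3
        rw [E_pow, E_pow, mul_one, mul_one, ← Complex.exp_nat_mul, ← Complex.exp_nat_mul,
          Complex.exp_eq_exp_iff_exists_int] at h3
        obtain ⟨k, hk⟩ := h3
        have h5 : (n : ℝ) * τ = n * τ' + k * (2 * Real.pi) := by
          have h6 : (((n : ℝ) * τ : ℝ) : ℂ) * Complex.I = ((n * τ' + k * (2 * Real.pi) : ℝ) : ℂ) * Complex.I := by
            push_cast
            linear_combination hk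
          have h7 := mul_right_cancel₀ Complex.I_ne_zero h6
          exact_mod_cast h7
        have b1 : (n : ℝ) * τ ≤ Real.pi := by rw [le_div_iff₀ hn0] at h1; linarith
        have b2 : (n : ℝ) * τ' ≤ Real.pi := by rw [le_div_iff₀ hn0] at h1'; linarith
        have b3 : 0 ≤ (n : ℝ) * τ := by positivity
        have b4 : 0 ≤ (n : ℝ) * τ' := by positivity
        have k1 : (k : ℝ) < 1 := by
          by_contra hc; push Not at hc; nlinarith
        have k2 : (-1 : ℝ) < k := by
          by_contra hc; push Not at hc; nlinarith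
        have k0 : k = 0 := by
          have k1' : k < 1 := by exact_mod_cast k1
          have k2' : -1 < k := by exact_mod_cast k2
          omega
        rw [k0] at h5
        have htt : τ = τ' := by
          have : (n : ℝ) * τ = n * τ' := by simpa using h5
          exact mul_left_cancel₀ hn0.ne' this
        rw [htt] at he'
        have hii := hinj i i' (E_inj (mul_left_cancel₀ (Complex.exp_ne_zero _) he'))
        exact ⟨by rw [hii], htt⟩
      · have l1' : len n (i', j') = Real.pi := by simp [len, hj']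
        rw [l1'] at h1' ⊢
        right
        have := mixed i' i j' hj' τ' τ h0' h1' h0 h1 he.symm
        exact ⟨this.2, this.1⟩
    · have l1 : len n (i, j) = Real.pi := by simp [len, hj]
      rw [l1] at h1 ⊢
      by_cases hj' : j' = 2
      · subst hj'
        have l1' : len n (i', 2) = Real.pi / n := by simp [len]
        rw [l1'] at h1' ⊢
        right
        exact mixed i i' j hj τ τ' h0 h1 h0' h1' he
      · have l1' : len n (i', j') = Real.pi := by simp [len, hj']
        rw [l1'] at h1' ⊢
        rw [along_bead h i j hj, along_bead h i' j' hj'] at he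
        simp only [Prod.mk.injEq] at he
        obtain ⟨f1, f2⟩ := he
        have sn : 0 ≤ Real.sin τ := Real.sin_nonneg_of_nonneg_of_le_pi h0 h1
        have sn' : 0 ≤ Real.sin τ' := Real.sin_nonneg_of_nonneg_of_le_pi h0' h1'
        rcases nonpar i i' _ _ (sgn j) (sgn j') (by positivity) (by positivity) (sgn_or j) (sgn_or j') f2
          with ⟨g1, g2⟩ | ⟨g1, g2, g3⟩
        · right
          have z1 : Real.sin τ = 0 := by
            rcases mul_eq_zero.mp g1 with h6 | h6
            · exact h6
            · exfalso; linarith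
          have z2 : Real.sin τ' = 0 := by
            rcases mul_eq_zero.mp g2 with h6 | h6
            · exact h6
            · exfalso; linarith
          exact ⟨sin_zero h0 h1 z1, sin_zero h0' h1' z2⟩
        · left
          subst g1
          have hss : Real.sin τ = Real.sin τ' := by
            have : √3 / 2 ≠ 0 := by positivity
            exact mul_right_cancel₀ this g3
          have hjj : j = j' := by
            rcases j2 j hj with rfl | rfl <;> rcases j2 j' hj' with rfl | rfl <;> simp [sgn] at g2 ⊢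
            · norm_num at g2
            · norm_num at g2
          have f3 := mul_right_cancel₀ (E_ne (h * i)) f1
          rw [hss] at f3
          have f4 : (Real.cos τ : ℂ) = Real.cos τ' := by linear_combination f3
          have f5 : Real.cos τ = Real.cos τ' := by exact_mod_cast f4
          have := Real.injOn_cos ⟨h0, h1⟩ ⟨h0', h1'⟩ f5
          exact ⟨by rw [hjj], this⟩

end existence

/-- The round 3-sphere carries a closed geodesic net modelled on the necklace with `n` beads (the cycle with
`2 n` vertices, every second edge of which is doubled) if and only if `n` is odd. -/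
theorem result (n : ℕ) [NeZero n] : NecklaceOccurs n ↔ Odd n :=
  ⟨fun ⟨_, _, _, h⟩ => not_even h, exists_net⟩

end Pool.Agent.Results.MP_a226eb_gt.Necklaces
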